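import Pool.Agent.P.MP_6e435d_co.Heap

set_option autoImplicit false
set_option linter.dupNamespace false

namespace Pool.Agent.P.MP_6e435d_co.G

def lfA (l : List Sh) : Bool :=
  decide (0 < (l.map Sh.wt).sum) || (decide ((l.map Sh.wt).sum = 0) && l.countP Sh.st % 2 == 1)

def lfB (l : List Sh) : Bool :=
  decide (4 < (l.map Sh.wt).sum) || (decide ((l.map Sh.wt).sum = 4) && l.countP Sh.st % 2 == 0)

theorem lfA_ok (l : List Sh) (h : lfA l = true) : GA (valL l) := by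
  rw [← valM_coe]
  apply C3
  rw [HM_coe, SM_coe]
  simpa [lfA] using h

theorem lfB_ok (l : List Sh) (h : lfB l = true) : GB (valL l) := by
  rw [← valM_coe]
  apply C4
  rw [HM_coe, SM_coe]
  simpa [lfB] using h

def cert2 : List (List ℕ × ℕ × ℕ) :=
  [([],0,0),([17],18,0),([40],0,0),([20,72],73,2),([17,20],21,0),([20,40],0,0),([17,20,60],61,0),
   ([20,44],45,1),([33],34,1),([17,20,72],0,0),([21],0,0),([21,73],74,1),([73],74,1),
   ([17,21,33],0,0),([17,21,57],58,1),([17,41],42,1),([17,21,73],0,0),([17,33,44],45,1),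
   ([33,72],0,0),([33,97],98,1),([17,45],46,1),([20,40],41,1),([17,20,40],21,0),([40,45],0,0),
   ([97],98,5),([17,97],98,6),([17,20,97],98,1),([17,33,81],82,6),([17,33,76],77,3),
   ([20,33,40],34,0),([17,20,20,40],21,0),([20,33],34,0),([17,20,33,40],0,0),([17,20,33,65],66,1),
   ([17,44],45,3),([44],45,1),([17,33],34,2),([33,44],0,0),([17,33,41,44],42,1),([17,52],53,3),
   ([21,33,57],58,1),([33,68],69,2),([17,33,73],34,0),([17,33,46],47,0),([17,33,60],0,0),
   ([17,33,84],85,7),([17,33,97],0,0)]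

theorem facts2 : ∀ t ∈ [[sO 9, D, A2], [sX 9, U, A2], [sO 12, A2, A4]], GB (valL t) :=
  (run_ok' (TA := []) (es := cert2) nf1_val lfA_ok lfB_ok (by decide +kernel)).2

theorem neg_A4 : - V A4 = V A4 := by
  rw [A4, V_even (by norm_num)]
  exact neg_eq_of_add_eq_zero_left (V_A_self (by norm_num))

theorem V_O9 : V (sO 9) = valL [U, A2] :=
  pair_zero (facts2 [sO 9, D, A2] (by simp)) (facts2 [sX 9, U, A2] (by simp))
    (by simp [valL, neg_star, V_U, add_comm])

theorem V_X9 : V (sX 9) = valL [D, A2] :=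
  (V_c V_O9 (by simp [valL, neg_star, V_U, add_comm])).symm

theorem V_A12 : V (sO 12) = valL [A2, A4] := by
  have h := facts2 [sO 12, A2, A4] (by simp)
  have e : - valL [A2, A4] = valL [A2, A4] := by simp [valL, neg_star, neg_A4, add_comm]
  refine pair_zero h ?_ e.symm
  rw [valL_cons] at h ⊢
  rwa [show neg (sO 12) = sX 12 from rfl, V_even (by norm_num)]

def nf2 (s : Sh) : List Sh :=
  if s.dl = false ∧ s.dr = false ∧ s.m = 9 then [s1 (!s.c) 2, A2]
  else if s.dl = false ∧ s.dr = false ∧ s.m = 12 then [A2, A4] else nf1 s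

theorem nf2_val (s : Sh) : valL (nf2 s) = V s := by
  obtain ⟨dl, c, m, dr⟩ := s
  unfold nf2
  split_ifs with h1 h2
  · obtain ⟨rfl, rfl, rfl⟩ := h1
    cases c
    · exact V_O9.symm
    · exact V_X9.symm
  · obtain ⟨rfl, rfl, rfl⟩ := h2
    cases c
    · exact V_A12.symm
    · exact V_A12.symm.trans (V_even (n := 12) (by norm_num)).symm
  · exact nf1_val _

def cert3 : List (List ℕ × ℕ × ℕ) :=
  [([],0,0),([44],45,0),([33],34,1),([56],0,0),([17,76],77,0),([17],18,0),([17,21,33],0,0),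
   ([17,65],66,4),([17,21,44],0,0),([17,33,44],34,0),([17,88],0,0),([17,41,65,88],66,1),
   ([17,33],34,2),([17,20],21,0),([39],40,0),([53],0,0),([41,104],105,5),([17,21,41],42,0),
   ([21,21,41,53],0,0),([17,21,41,92],93,3),([17,21,41,81],82,3),([21],0,0),([21,41,76],77,2),
   ([21,21,41],0,0),([17,21,41,44],45,3),([17,21,41,104],0,0),([17,41,81,104],82,6),
   ([20,88],89,2),([21,76],0,0),([33,76],34,0),([33,65],66,4),([33,88],0,0),([17,33,41,88],42,1),
   ([41,88],42,1),([17,21,33,76],0,0),([21,33,41,76],42,1),([21,33,41,65],66,4),([21,41,44],42,1),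
   ([21,33,41,88],0,0),([33,41,120],121,2),([40],0,0),([20,40,57,88],89,2),([17,33,57,88],58,1),
   ([17,20,40],21,0),([17,33,40],0,0),([33,40,57,76],77,0),([17,40,57],58,1),([17,21,57],58,1),
   ([21,40,57],0,0),([33,40,57,65],66,4),([40,44,57],58,0),([33,40,57,88],0,0),
   ([33,57,65,88],66,1),([21,53],0,0),([17,92],93,3),([17,81],82,2),([76],77,3),([17,44],45,3),
   ([17,104],0,0),([20,104],21,0),([21,33,60],0,0),([33,92],93,7),([20,33,40],34,0),
   ([20,40],41,1),([20,40],0,0),([17,20,20,40],21,0),([20,33],34,0),([17,20,33,40],0,0),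
   ([33,81],82,3),([17,33,76],77,3),([33,44],45,3),([33,104],0,0),([33,57,81,104],82,1),
   ([57,88],89,2),([17,21,57,76],77,0),([21,33,57],58,1),([17,21,21,33,57],0,0),
   ([17,21,57,65],66,4),([17,21,33,44,57],58,1),([17,21,57,88],0,0),([17,57,120],121,2),
   ([17,21,89],90,3),([21,57],58,2),([21,21,89],0,0),([21,33,89],34,0),([17,21,21,57],0,0),
   ([17,21,33,57],34,0),([17,21,21,33,89],0,0),([17,21,65,89],66,4),([17,33,45],46,2),([45],46,2),
   ([21,33,45],0,0),([21,89],90,4),([17,21,21,89],0,0),([21,21,41,89],42,1),([21,57,65],66,1),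
   ([21,21,65,89],0,0),([21,65,81,89],82,6),([17,21,33,81,89],82,6),([21,21,57],0,0),
   ([17,21,21,41,57],42,1),([17,21,21,21,41,89],0,0),([17,21,21,41,81,89],82,6),
   ([17,21,21,57,65,89],90,1),([21,68],69,3),([17,21,21,68],0,0),([17,21,21,65,68,89],90,1),
   ([65],66,1),([17,21,65],0,0),([17,21,57,65,81],82,1),([17,21,21,65,81,89],0,0),
   ([65,81,89,104],105,2),([89,120],121,2),([21,89,92],93,0),([17,21,33,76,89],90,0),
   ([17,21,44,65,89],90,1),([17,21,89,120],0,0),([17,33,65,89,120],66,4),([17,81,88,105],106,1),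
   ([17,20,56],21,0),([20,56],57,0),([17,45,56],0,0),([17,56,105],106,5),([40,44,105],106,5),
   ([20,40,45],46,2),([17,20,33,40],34,2),([33,40,45],0,0),([33,40,105],106,5),
   ([17,20,20,40,56],57,2),([40,56,105],0,0),([20,40,88,105],89,2),([17,40,45],0,0),
   ([17,40,105],106,5),([81],82,6),([17,21,68],69,0),([17,21,81],0,0),([17,21,105],106,1),
   ([21,40,105],0,0),([40,57,88,105],89,2),([68,88],69,0),([76,81],82,6),([65,81],82,8),
   ([21,33,44],0,0),([33,44,81],82,6),([81,88],0,0),([88,105],106,1),([17,40,76,105],106,2),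
   ([17,40,65,105],106,3),([17,33,40,44,105],106,5),([20,40,44],45,1),([20,40,56],0,0),
   ([20,20,40,88],89,2),([17,40,88,105],0,0),([40,68,88,105],69,0),([40,76],0,0),
   ([40,76,81,105],106,1),([17,21,65,105],106,3),([77],78,6),([17,45],46,1),([17,21,77],0,0),
   ([21,105],106,2),([17,20,40,65],66,4),([21,40,65,105],0,0),([40,65,81,105],82,6),
   ([33,40,44],0,0),([33,40,44,81,105],106,1),([17,40,44],0,0),([17,20,40,76],77,5),
   ([17,20,33,40,44],45,1),([17,20,40,88],0,0),([17,20,20,40,81,88],82,6),([40,81,88,105],0,0),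
   ([65,81,88,105],66,1),([17,21,76,105],106,2),([17,21,33,44,105],106,5),([17,21,88,105],0,0),
   ([17,33,88,105],34,0),([21,33,76,105],106,2),([21,21,105],0,0),([21,33,65,105],66,4),
   ([21,44,105],106,5),([17,20,33,88],34,0),([21,33,88,105],0,0),([33,105,120],121,2),
   ([17,105,120],121,2),([20,33,120],121,2),([21,33,105],106,5),([17,21,21,33,53,105],0,0),
   ([21,33,92,105],93,3),([17,21,21,44,105],0,0),([17,21,33,44,65,105],66,4),
   ([17,21,33,105,120],0,0),([17,33,81,105,120],82,6),([20,33,40,76],34,0),([20,33,40,65],66,4),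
   ([20,33,40,88],0,0),([17,20,40,88,121],122,1),([33,88,121],122,1),([17,33,40,76,121],122,1),
   ([40,121],122,1),([21,121],122,1),([17,40,89],90,3),([17,21,40,121],0,0),
   ([17,33,40,65,121],66,4),([17,40,44,121],122,1),([17,33,68,88],69,2),([17,33,40,88,121],0,0),
   ([17,33,65,88,121],66,1),([33,104,121],122,1),([17,104,121],122,1),([17,21,33,121],122,1),
   ([21,21,33,53,121],0,0),([17,21,33,92,121],93,3),([17,33,81],82,6),([21,33,68],69,2),
   ([21,33,81],0,0),([77,81],78,3),([21,57,81],82,1),([17,45,81],46,2),([17,77],78,3),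
   ([17,21,57,77],78,3),([17,21,68,77],69,3),([17,21,77,81],0,0),([17,21,33,81,121],122,4),
   ([21,33,76,121],122,4),([21,21,33,41,68],69,2),([21,21,33,121],0,0),([17,21,33,44,121],45,3),
   ([17,21,33,89],34,0),([21,21,33,89],0,0),([17,33,89,104],105,2),([17,21,33,41,68,104],69,2),
   ([17,21,33,104,121],0,0),([17,33,81,104,121],82,6),([20,33,136],137,2),([17,124],125,2),
   ([17,113],114,1),([17,33,92],93,0),([17,44,81],82,6),([17,136],0,0),([41,136],42,1),
   ([44,65],45,3),([17,21,65,85],0,0),([65,124],125,3),([17,65,81],82,6),([21,41,81],42,1),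
   ([21,65,68],69,0),([21,65,81],0,0),([65,113],114,10),([17,21,33,53,65],0,0),([33,65,92],93,3),
   ([17,44,65],66,1),([21,44,65],0,0),([44,65,81],82,6),([65,76],66,1),([65,136],0,0),
   ([65,89,113,136],114,1),([120],0,0),([20,152],153,2),([33,129],130,1),([17,33,124],125,0),
   ([33,65,76],66,4),([33,152],0,0),([57,152],58,1),([129],130,12),([92],93,0),([152],0,0),
   ([68,152],69,3),([17,21,33,68],69,3),([17,21,33,81],0,0),([81,129],130,12),([21,81,85],0,0),
   ([17,81,124],125,3),([17,33,44,81],45,3),([21,60,81],0,0),([81,92],93,7),([65,76,81],77,3),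
   ([81,152],0,0),([81,105,129,152],130,1),([17,20,168],169,2),([21,33,117],0,0),
   ([17,33,156],157,3),([33,113],114,1),([17,21,33,100],101,5),([17,21,33,113],0,0),
   ([17,33,145],146,14),([17,33,56],0,0),([17,33,44,113],114,5),([17,21,33,60,65],0,0),
   ([17,33,65,92],93,7),([17,33,76,81],82,6),([17,33,168],0,0),([17,33,121,145,168],146,1),
   ([88],0,0),([20,81,88],82,6),([17,20,81,88],82,6),([20,45,88],46,2),([17,20,88],89,0),
   ([17,33,65],66,1),([17,33,88],0,0),([17,57,88],58,1),([21,57,76],77,3),([21,33,44,57],45,3),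
   ([21,57,88],0,0),([45,57,88],46,2),([45,68,88],69,5),([21,45,57],46,2),([21,45,68],69,5),
   ([21,45,81],0,0),([45,76,81],77,3),([45,65,81],46,2),([45,81,88],0,0),([88,137],138,5),
   ([17,20,45,104],46,2),([17,20,33,104],34,0),([20,33,104],105,2),([21,33,45,53],0,0),
   ([17,33,45,92],93,3),([17,33,45,81],46,2),([33,45,76],77,3),([17,33,45,104],0,0),
   ([104,153],154,5),([17,21,33,41,76],77,2),([17,21,21,41,44],0,0),([17,21,41,44,81],82,6),
   ([21,21,41,81,85],0,0),([17,21,41,81,124],125,3),([21,21,33,57,60],0,0),([21,33,57,92],93,7),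
   ([21,33,44,57,81],82,1),([17,21,21,33,57,81,85],0,0),([21,33,57,81,124],125,3),
   ([21,44,65,89],45,1),([17,21,76,89],77,3),([21,44,89],90,1),([21,21,76,89],0,0),
   ([21,33,65,76,89],66,4),([21,65,89,92],93,0),([21,65,81,89,124],125,2),([17,21,44,105],45,3),
   ([21,21,44,105],0,0),([21,44,81,105],82,6),([21,33,76,81,105],106,2),([21,81,105],106,1),
   ([17,21,21,53,81,105],0,0),([21,81,92,105],93,3),([17,21,21,85,105],0,0),([21,105,124],125,3),
   ([17,21,76,121],122,4),([21,44,57],58,0),([21,44,68],69,1),([21,44,81],0,0),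
   ([17,21,33,44,81,121],122,1),([21,21,33,81,85,121],0,0),([17,21,33,81,121,124],125,3),
   ([17,65,76],77,3),([21,65,76],0,0),([21,65,76,89,113],114,1),([17,21,21,65,89,113,117],0,0),
   ([21,65,89,113,156],157,3),([17,21,81,105,129],130,1),([21,21,60,81,105,129],0,0),
   ([21,81,92,105,129],93,7),([17,21,21,81,105,129,133],0,0),([21,81,105,129,172],173,3),
   ([21,33,100],101,0),([17,77,81],78,3),([21,60,77,81],0,0),([21,81,148],149,7),([17,120],0,0),
   ([17,145],146,1),([113],114,1),([21,41,92],93,0),([21,145],0,0),([21,169],170,1),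
   ([17,161],162,1),([21,57,92],93,2),([21,68,81],82,0),([21,100],101,5),([21,137],138,5),
   ([21,60,77],0,0),([21,148],149,7),([21,161],0,0),([21,185],186,1),([17,77,113],78,3),
   ([17,21,57,113],58,1),([17,61],62,3),([21,61],0,0),([21,41,113],114,7),([45,113],114,10),
   ([21,44,57,77],78,2),([21,21,68],0,0),([21,33,68,77],78,3),([21,77,89],78,3),
   ([21,77,100],101,9),([21,77,113],0,0),([21,201],202,9),([17,21,169],170,9),
   ([21,21,57,100],101,5),([21,21,68,89],69,3),([21,21,169],0,0),([21,81,169],82,6),([161],162,9),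
   ([17,129],130,1),([17,21,57,92],93,0),([17,21,68,81],69,3),([17,21,100],101,2),
   ([17,21,137],138,6),([21,21,109],0,0),([17,21,148],149,3),([17,21,161],0,0),
   ([17,21,185],186,1),([21,129],0,0),([21,153],154,1),([21,21,68,105],69,3),([21,21,185],0,0),
   ([21,81,185],82,6),([177],178,1),([21,21,41,85],0,0),([17,21,41,124],125,3),
   ([17,21,65,100],101,5),([17,21,44,121],122,1),([17,21,153],154,5),([17,21,177],0,0),
   ([17,21,201],202,1),([21,21,41,68],42,1),([17,21,21,21,41,109],0,0),([21,21,41,148],149,3),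
   ([21,21,68,121],69,2),([21,21,89,100],101,5),([21,21,201],0,0),([21,81,201],82,6),
   ([17,21,33,169],170,7),([21,33,137],138,3),([17,21,21,21,33,57,61],0,0),
   ([21,21,33,57,100],101,3),([21,21,33,68,89],69,2),([21,21,33,169],0,0),([21,65,169],66,4),
   ([17,21,21,68,105],69,0),([17,21,21,185],0,0),([17,21,33,185],34,0),([17,33,129],130,12),
   ([21,33,129],0,0),([21,33,153],154,1),([21,21,33,68,105],69,2),([21,21,33,185],0,0),
   ([21,65,185],66,4),([17,21,21,41,68],42,1),([21,21,21,41,109],0,0),([17,21,21,41,148],149,3),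
   ([21,21,33,68],0,0),([17,21,21,68,121],122,1),([17,21,21,89,100],101,5),([17,21,21,201],0,0),
   ([17,21,33,201],34,0),([21,33,169],34,0),([17,21,21,21,33,41,109],0,0),
   ([21,21,33,41,148],149,3),([21,21,33,68,121],122,1),([21,21,33,89,100],101,5),
   ([21,21,33,201],0,0),([21,65,201],66,4),([17,21,33,137],138,1),([17,21,21,33,57,100],101,5),
   ([17,21,21,33,68,89],69,2),([17,21,21,33,169],0,0),([17,21,65,169],66,4),
   ([17,21,21,57,100],101,5),([17,21,21,68,89],69,0),([17,21,21,169],0,0),([21,21,41,169],42,1),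
   ([21,65,137],138,7),([21,21,57,65,100],101,2),([21,21,65,68,89],90,1),([21,21,65,169],0,0),
   ([21,65,81,169],82,6),([17,125],126,3),([40,100],101,5),([40,89],90,4),([40,45],0,0),
   ([17,20,40,84],85,3),([17,20,39,40],40,2),([40,45,68],69,5),([40,55,57],56,2),
   ([17,21,40,52],0,0),([40,52,61],62,3),([20,40,93],94,3),([40,125],0,0),([40,185],186,6),
   ([17,40,153],154,5),([17,21,40,68,105],69,0),([17,21,40,185],0,0),([17,21,65,185],66,1),
   ([21,33,185],34,0),([21,21,41,185],42,1),([17,40,68],69,0),([21,40,153],0,0),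
   ([21,65,153],66,1),([21,21,40,68,105],0,0),([21,21,65,68,105],66,1),([21,21,65,185],0,0),
   ([21,65,81,185],82,6),([21,33,201],34,0),([17,21,21,33,41,68],42,1),([21,21,21,33,41,109],0,0),
   ([17,21,21,33,41,148],149,3),([17,21,21,33,68,121],122,1),([17,21,21,33,89,100],101,5),
   ([17,21,21,33,201],0,0),([17,21,33,81,201],82,6),([21,21,33,57,201],58,1),
   ([21,21,33,68,201],69,2),([21,33,81,169],82,6),([17,21,21,41,81],0,0),
   ([17,21,33,41,77,81],78,3),([21,21,33,41,60,77,81],0,0),([21,21,33,41,81,148],149,7),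
   ([21,21,33,68,81,121],82,0),([21,21,33,81,89,100],101,0),([21,21,33,81,201],0,0),
   ([21,65,81,201],66,4),([20,120],121,2),([21,110],111,2),([156],157,2),([44,44],45,3),
   ([21,33,81,185],82,6),([21,33,81,201],82,6),([21,33,65,169],66,4),([21,33,65,185],66,4),
   ([21,33,65,201],66,4),([33,65,81],34,0),([17,21,81,169],82,6),([21,21,57,169],58,1),
   ([21,21,68,169],69,3),([21,21,57,68],69,3),([21,21,137],0,0),([21,81,137],82,6),
   ([21,21,57,81,100],101,0),([21,21,68,81,89],82,0),([21,21,81,169],0,0),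
   ([21,33,65,81,169],66,4),([17,21,81,185],82,6),([21,21,57,185],58,1),([21,21,68,185],69,3),
   ([21,81,153],154,7),([21,21,68,81,105],106,1),([17,21,81,100],101,0),([21,21,81,185],0,0),
   ([21,33,65,81,185],66,4),([17,21,33,65,201],66,4),([21,21,33,41,201],42,1),
   ([21,21,33,41,65,68],66,1),([17,21,21,21,33,41,65,109],0,0),([21,21,33,41,65,148],149,3),
   ([17,21,21,65,68],0,0),([21,21,33,65,68,121],122,1),([21,21,33,65,89,100],101,2),
   ([21,21,33,65,201],0,0),([21,33,65,81,201],82,6),([20,33,56],34,0),([17,21,21,33,71],0,0),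
   ([21,33,110],111,3),([17,21,33,117],0,0),([33,156],157,3),([33,44,44],45,1),
   ([17,21,81,201],82,6),([17,21,65,201],66,4),([17,21,21,41,169],42,1),([40,137],138,0),
   ([17,21,40,57,68],69,0),([17,21,40,137],0,0),([17,21,65,137],66,1),
   ([17,21,21,57,65,100],101,2),([17,21,21,65,169],0,0),([17,21,65,81,169],82,6),
   ([17,21,21,41,185],42,1),([17,21,65,153],154,8),([21,40,68,105],69,3),([40,68],69,3),
   ([17,21,21,40,68,105],0,0),([17,21,21,65,68,105],66,1),([21,65,100],101,2),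
   ([17,21,21,65,185],0,0),([17,21,65,81,185],82,6),([17,21,21,41,201],42,1),
   ([17,21,21,41,65,68],66,1),([21,21,21,41,65,109],0,0),([17,21,21,41,65,148],149,3),
   ([17,21,33,65,68],69,2),([21,21,33,65,68],0,0),([17,21,21,65,68,121],122,1),
   ([17,21,21,65,89,100],101,2),([17,21,21,65,201],0,0),([17,21,65,81,201],82,6),
   ([17,20,120],121,2),([21,21,71],0,0),([17,21,110],111,3),([17,156],157,2),([17,44,44],45,1),
   ([17,21,33,81,169],82,6),([17,33,161],34,0),([21,33,68,81],69,3),([21,33,44,105],34,0),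
   ([17,21,21,33,109],0,0),([21,33,148],149,3),([21,33,161],0,0),([33,81,161],82,6),
   ([17,81,161],82,6),([17,21,33,57,161],58,1),([17,21,33,68,161],69,2),([17,20,81,104],82,6),
   ([17,33,57,104],58,1),([17,33,68,104],69,2),([17,33,81,92],93,0),([33,76,81],77,3),
   ([17,33,81,104],0,0),([17,33,81,129],130,1),([17,21,33,57,81,92],93,2),
   ([17,21,33,81,100],101,5),([17,21,33,44,81,105],106,5),([17,21,33,105],106,1),
   ([17,21,21,33,57,68],58,1),([17,21,21,33,137],0,0),([17,21,33,81,137],82,6),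
   ([17,21,33,68,81],82,0),([21,21,33,81,109],0,0),([17,21,33,81,148],149,3),
   ([17,21,33,81,161],0,0),([17,21,33,81,185],186,1),([17,21,33,65,169],66,4),
   ([17,21,33,65,185],66,4),([17,33,65,81],66,4),([17,21,21,57,169],58,1),
   ([17,21,21,68,169],69,0),([17,21,81,137],138,6),([17,21,21,57,81,100],101,0),
   ([17,21,21,68,81,89],82,0),([17,21,21,81,169],0,0),([17,21,33,65,81,169],66,4),
   ([17,21,21,33,41,185],42,1),([33,40,153],34,0),([17,33,40,121],122,1),([33,40,68],69,2),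
   ([17,21,33,40,153],0,0),([17,21,33,65,153],66,1),([17,21,21,21,68,105],0,0),
   ([17,21,21,33,65,68,105],66,4),([17,21,21,33,61,65],0,0),([21,33,65,100],101,3),
   ([17,21,21,33,65,185],0,0),([17,21,33,65,81,185],82,6),([17,21,21,57,201],58,1),
   ([17,21,21,68,201],69,0),([17,21,21,41,68,81],69,3),([21,21,21,41,81,109],0,0),
   ([17,21,21,41,81,148],149,3),([17,21,21,121],0,0),([17,21,21,68,81,121],82,0),
   ([17,21,21,81,89,100],101,0),([17,21,21,81,201],0,0),([17,21,33,65,81,201],66,4),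
   ([17,20,33,56],57,0),([17,20,33,120],34,0),([17,21,33,110],111,2),([17,33,44,44],45,3),
   ([21,65,105],66,1),([21,81,121],122,1)]

def TA : List (List Sh) :=
  [[sO 11, sO 8, sX 5, sO 2], [sO 13, sO 10, sX 5, sO 2], [sO 15, sO 12, sX 5, sO 2],
   [sO 11, sO 8, sX 7, sO 4], [sO 13, sO 10, sX 7, sO 4], [sO 15, sO 12, sX 7, sO 4],
   [sO 13, sO 10, sX 11, sO 8], [sO 15, sO 12, sX 11, sO 8], [sO 11, sO 8, sX 13, sO 10],
   [sO 15, sO 12, sX 13, sO 10], [sO 11, sO 8, sX 15, sO 12], [sO 13, sO 10, sX 15, sO 12],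
   [sO 17, sO 14, sX 11, sO 8], [sO 19, sO 16, sX 13, sO 10], [sO 21, sO 18, sX 15, sO 12],
   [sO 11, sX 17], [sO 13, sX 19], [s1 false 5, U, sO 0, sX 5, sO 2],
   [s1 false 9, U, sO 4, sX 5, sO 2], [s1 false 11, U, sO 6, sX 5, sO 2],
   [s1 false 15, U, sO 10, sX 5, sO 2], [s1 false 5, U, sO 0, sX 7, sO 4],
   [s1 false 9, U, sO 4, sX 7, sO 4], [s1 false 11, U, sO 6, sX 7, sO 4],
   [s1 false 15, U, sO 10, sX 7, sO 4], [s1 false 5, U, sO 0, sX 11, sO 8],
   [s1 false 9, U, sO 4, sX 11, sO 8], [s1 false 11, U, sO 6, sX 11, sO 8],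
   [s1 false 15, U, sO 10, sX 11, sO 8], [s1 false 5, U, sO 0, sX 13, sO 10],
   [s1 false 9, U, sO 4, sX 13, sO 10], [s1 false 11, U, sO 6, sX 13, sO 10],
   [s1 false 15, U, sO 10, sX 13, sO 10], [s1 false 5, U, sO 0, sX 15, sO 12],
   [s1 false 9, U, sO 4, sX 15, sO 12], [s1 false 11, U, sO 6, sX 15, sO 12],
   [s1 false 15, U, sO 10, sX 15, sO 12], [s1 false 19, U, sO 14, sX 11, sO 8],
   [s1 false 21, U, sO 16, sX 13, sO 10], [s1 false 8, U, sO 0], [s1 false 12, U, sO 4],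
   [s1 false 18, U, sO 10], [sO 14, sO 8], [sO 16, sO 10], [sO 18, sO 12],
   [U, sX 21, sO 0, sO 0, sO 0, sO 0], [U, sX 23, sO 0, sO 0, sO 0, sO 0],
   [U, sX 25, sO 0, sO 0, sO 0, sO 0], [sO 0, sO 0, sO 0, sO 10],
   [U, sX 21, sO 0, sO 0, sO 0, sO 10], [U, sX 23, sO 0, sO 0, sO 0, sO 10],
   [U, sX 25, sO 0, sO 0, sO 0, sO 10], [sO 0, sO 0, sO 8, sO 0],
   [U, sX 21, sO 0, sO 0, sO 8, sO 0], [U, sX 23, sO 0, sO 0, sO 8, sO 0],
   [U, sX 25, sO 0, sO 0, sO 8, sO 0], [sO 0, sO 0, sO 8, sO 10],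
   [U, sX 21, sO 0, sO 0, sO 8, sO 10], [U, sX 23, sO 0, sO 0, sO 8, sO 10],
   [U, sX 25, sO 0, sO 0, sO 8, sO 10], [sO 5, D, sO 0, sO 0], [sO 7, D, sO 0, sO 0],
   [sO 15, D, sO 0, sO 0], [s2 false 13, U, sO 0, sO 0], [s1 false 5, sO 0, sO 0],
   [s1 false 9, sO 0, sO 0], [s1 false 11, sO 0, sO 0], [s1 false 19, sO 0, sO 0],
   [s1 false 5, s1 false 5, sO 0, sO 0], [sO 0, sO 4, sO 0, sO 0],
   [U, sX 21, sO 0, sO 4, sO 0, sO 0], [U, sX 23, sO 0, sO 4, sO 0, sO 0],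
   [U, sX 25, sO 0, sO 4, sO 0, sO 0], [sO 0, sO 4, sO 0, sO 10],
   [U, sX 21, sO 0, sO 4, sO 0, sO 10], [U, sX 23, sO 0, sO 4, sO 0, sO 10],
   [U, sX 25, sO 0, sO 4, sO 0, sO 10], [sO 0, sO 4, sO 8, sO 0],
   [U, sX 21, sO 0, sO 4, sO 8, sO 0], [U, sX 23, sO 0, sO 4, sO 8, sO 0],
   [U, sX 25, sO 0, sO 4, sO 8, sO 0], [sO 0, sO 4, sO 8, sO 10],
   [U, sX 21, sO 0, sO 4, sO 8, sO 10], [U, sX 23, sO 0, sO 4, sO 8, sO 10],
   [U, sX 25, sO 0, sO 4, sO 8, sO 10], [sO 5, D, sO 0, sO 4], [sO 7, D, sO 0, sO 4],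
   [sO 15, D, sO 0, sO 4], [s2 false 13, U, sO 0, sO 4], [s1 false 5, sO 0, sO 4],
   [s1 false 9, sO 0, sO 4], [s1 false 11, sO 0, sO 4], [s1 false 19, sO 0, sO 4],
   [s1 false 5, s1 false 5, sO 0, sO 4], [sO 2, sO 0, sO 0, sO 0],
   [U, sX 21, sO 2, sO 0, sO 0, sO 0], [U, sX 23, sO 2, sO 0, sO 0, sO 0],
   [U, sX 25, sO 2, sO 0, sO 0, sO 0], [sO 2, sO 0, sO 0, sO 10],
   [U, sX 21, sO 2, sO 0, sO 0, sO 10], [U, sX 23, sO 2, sO 0, sO 0, sO 10],
   [U, sX 25, sO 2, sO 0, sO 0, sO 10], [sO 2, sO 0, sO 8, sO 0],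
   [U, sX 21, sO 2, sO 0, sO 8, sO 0], [U, sX 23, sO 2, sO 0, sO 8, sO 0],
   [U, sX 25, sO 2, sO 0, sO 8, sO 0], [sO 2, sO 0, sO 8, sO 10],
   [U, sX 21, sO 2, sO 0, sO 8, sO 10], [U, sX 23, sO 2, sO 0, sO 8, sO 10],
   [U, sX 25, sO 2, sO 0, sO 8, sO 10], [sO 5, D, sO 2, sO 0], [sO 7, D, sO 2, sO 0],
   [sO 15, D, sO 2, sO 0], [s2 false 13, U, sO 2, sO 0], [s1 false 5, sO 2, sO 0],
   [s1 false 9, sO 2, sO 0], [s1 false 11, sO 2, sO 0], [s1 false 19, sO 2, sO 0],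
   [s1 false 5, s1 false 5, sO 2, sO 0], [sO 2, sO 4, sO 0, sO 0],
   [U, sX 21, sO 2, sO 4, sO 0, sO 0], [U, sX 23, sO 2, sO 4, sO 0, sO 0],
   [U, sX 25, sO 2, sO 4, sO 0, sO 0], [sO 2, sO 4, sO 0, sO 10],
   [U, sX 21, sO 2, sO 4, sO 0, sO 10], [U, sX 23, sO 2, sO 4, sO 0, sO 10],
   [U, sX 25, sO 2, sO 4, sO 0, sO 10], [sO 2, sO 4, sO 8, sO 0],
   [U, sX 21, sO 2, sO 4, sO 8, sO 0], [U, sX 23, sO 2, sO 4, sO 8, sO 0],
   [U, sX 25, sO 2, sO 4, sO 8, sO 0], [sO 2, sO 4, sO 8, sO 10],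
   [U, sX 21, sO 2, sO 4, sO 8, sO 10], [U, sX 23, sO 2, sO 4, sO 8, sO 10],
   [U, sX 25, sO 2, sO 4, sO 8, sO 10], [sO 5, D, sO 2, sO 4], [sO 7, D, sO 2, sO 4],
   [sO 15, D, sO 2, sO 4], [s2 false 13, U, sO 2, sO 4], [s1 false 5, sO 2, sO 4],
   [s1 false 9, sO 2, sO 4], [s1 false 11, sO 2, sO 4], [s1 false 19, sO 2, sO 4],
   [s1 false 5, s1 false 5, sO 2, sO 4], [U, sO 8, sX 13], [U, sO 8, sX 17], [U, sO 8, sX 19],
   [U, sO 10, sX 15], [U, sO 10, sX 19], [U, sO 12, sX 17]]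

theorem facts3 : ∀ t ∈ TA, GA (valL t) :=
  (run_ok' (TB := []) (es := cert3) nf2_val lfA_ok lfB_ok (by decide +kernel)).1

theorem f1 : ∀ n ∈ [5, 7, 11, 13, 15], ∀ m ∈ [11, 13, 15], m ≠ n →
    [sO m, sO (m - 3), sX n, sO (n - 3)] ∈ TA := by decide +kernel

theorem f2 : ∀ n ∈ [11, 13, 15], [sO (n + 6), sO (n + 3), sX n, sO (n - 3)] ∈ TA := by
  decide +kernel

theorem f3 : ∀ m ∈ [11, 13], [sO m, sX (m + 6)] ∈ TA := by decide +kernel

theorem f4 : ∀ n ∈ [5, 7, 11, 13, 15], ∀ m ∈ [0, 4, 6, 10],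
    [s1 false (m + 5), U, sO m, sX n, sO (n - 3)] ∈ TA := by decide +kernel

theorem f5 : ∀ n ∈ [11, 13], [s1 false (n + 8), U, sO (n + 3), sX n, sO (n - 3)] ∈ TA := by
  decide +kernel

theorem f6 : ∀ m ∈ [0, 4, 10], [s1 false (m + 8), U, sO m] ∈ TA := by decide +kernel

theorem f7 : ∀ j ∈ [14, 16, 18], [sO j, sO (j - 6)] ∈ TA := by decide +kernel

theorem f8 : ∀ a ∈ [0, 2], ∀ b ∈ [0, 4], ∀ c ∈ [0, 8], ∀ d ∈ [0, 10], a + b + c + d ≠ 0 →
    [sO a, sO b, sO c, sO d] ∈ TA := by decide +kernel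

theorem f9 : ∀ a ∈ [0, 2], ∀ b ∈ [0, 4], (∀ n ∈ [5, 7, 15], [sO n, D, sO a, sO b] ∈ TA) ∧
    [s2 false 13, U, sO a, sO b] ∈ TA ∧ (∀ n ∈ [5, 9, 11, 19], [s1 false n, sO a, sO b] ∈ TA) ∧
    [s1 false 5, s1 false 5, sO a, sO b] ∈ TA := by decide +kernel

theorem f10 : ∀ a ∈ [0, 2], ∀ b ∈ [0, 4], ∀ c ∈ [0, 8], ∀ d ∈ [0, 10], ∀ n ∈ [21, 23, 25],
    [U, sX n, sO a, sO b, sO c, sO d] ∈ TA := by decide +kernel

theorem f11 : ∀ p ∈ [(8, 13), (8, 17), (8, 19), (10, 15), (10, 19), (12, 17)],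
    [U, sO p.1, sX p.2] ∈ TA := by decide +kernel

end Pool.Agent.P.MP_6e435d_co.G
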