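import Pool.Agent.P.MP_6e435d_co.Rows

set_option autoImplicit false
set_option linter.dupNamespace false

namespace Pool.Agent.P.MP_6e435d_co.G

def fx (s : Sh) : Sh := if s.m = 0 ∧ s.dl = true ∧ s.dr = true then ⟨false, s.c, 2, false⟩ else s

theorem fx_l (s : Sh) : (fx s).l = s.l := by
  unfold fx
  split_ifs with h
  · obtain ⟨dl, c, m, dr⟩ := s
    obtain ⟨rfl, rfl, rfl⟩ := h
    simp [Sh.l, alt, col]
  · rfl

theorem V_fx (s : Sh) : V (fx s) = V s := by rw [V, V, fx_l]

theorem opt_fx {b : Bool} {s : Sh} {c' : Cp} (ho : Opt b (.row s.l) c') :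
    ∃ i j, i + j + 2 = (fx s).m ∧
      c' = .row ((cut b (fx s) i j).1.l ++ none :: (cut b (fx s) i j).2.l) := by
  by_cases hm : 1 ≤ (fx s).m
  · rw [← fx_l] at ho
    exact opt_sh hm ho
  · exfalso
    obtain ⟨u, w, x, y, x', y', -, h, -⟩ := opt_row.1 ho
    have h2 := congrArg List.length h
    obtain ⟨dl, c, m, dr⟩ := s
    unfold fx at hm
    split_ifs at hm with h3
    · simp at hm
    · have : m = 0 := by simpa using hm
      subst this
      cases dl <;> cases dr <;> simp [Sh.l, alt] at h2 h3 <;> omega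

theorem V_dead {s : Sh} (h : (fx s).m ≤ 1) : V s = 0 := by
  apply v_dead
  intro b c' ho
  obtain ⟨i, j, h1, -⟩ := opt_fx ho
  omega

/-- Value of a multiset of blocks. -/
def valM (M : Multiset Sh) : Gm := (M.map V).sum

theorem valM_cons (s : Sh) (R : Multiset Sh) : valM (s ::ₘ R) = V s + valM R := by simp [valM]

theorem valM_add (R T : Multiset Sh) : valM (R + T) = valM R + valM T := by simp [valM]

theorem valM_zero : valM 0 = 0 := by simp [valM]

theorem mk_map (M : Multiset Sh) : mk (M.map fun s => Cp.row s.l) = valM M := by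
  induction M using Multiset.induction_on with
  | empty => simp [valM]
  | cons s R ih => rw [Multiset.map_cons, mk_cons, ih, valM_cons, V]

theorem all_sh {b : Bool} (M : Multiset Sh) (h : ℕ)
    (H1 : ∀ s R i j, M = s ::ₘ R → i + j + 2 = (fx s).m →
      Wq (V (cut b (fx s) i j).1 + V (cut b (fx s) i j).2 + (valM R + v (.hp h))) (!b))
    (H2 : ∀ k, k < h → Wq (valM M + v (.hp k)) (!b)) : ¬ Wq (valM M + v (.hp h)) b := by
  classical
  rw [add_comm, ← mk_map, ← mk_cons]
  apply Wq_all
  intro c c' R h1 ho
  rcases Multiset.cons_eq_cons.1 h1 with ⟨rfl, rfl⟩ | ⟨-, T, h2, rfl⟩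
  · obtain ⟨k, hk, rfl⟩ := opt_hp.1 ho
    rw [mk_map, add_comm]
    exact H2 k hk
  · have hc : c ∈ M.map fun s => Cp.row s.l := by rw [h2]; simp
    obtain ⟨s, hs, rfl⟩ := Multiset.mem_map.1 hc
    obtain ⟨R, rfl⟩ := Multiset.exists_cons_of_mem hs
    rw [Multiset.map_cons, Multiset.cons_inj_right] at h2
    subst h2
    obtain ⟨i, j, hij, rfl⟩ := opt_fx ho
    rw [v_split, mk_cons, mk_map, add_comm (v (Cp.hp h))]
    exact H1 s R i j rfl hij

theorem v_hp0 : v (.hp 0) = 0 := by
  apply v_dead
  intro b c' ho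
  obtain ⟨k, hk, -⟩ := opt_hp.1 ho
  omega

theorem all_sh0 {b : Bool} (M : Multiset Sh)
    (H1 : ∀ s R i j, M = s ::ₘ R → i + j + 2 = (fx s).m →
      Wq (V (cut b (fx s) i j).1 + V (cut b (fx s) i j).2 + valM R) (!b)) : ¬ Wq (valM M) b := by
  have := all_sh (b := b) M 0 (by simpa [v_hp0] using H1) (by omega)
  simpa [v_hp0] using this

/-! ### A checker for finite strategy tables -/

def valL (l : List Sh) : Gm := (l.map V).sum

theorem valL_cons (s : Sh) (l : List Sh) : valL (s :: l) = V s + valL l := by simp [valL]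

theorem valL_nil : valL [] = 0 := rfl

theorem valM_coe (l : List Sh) : valM (l : Multiset Sh) = valL l := by simp [valM, valL]

def key (s : Sh) : ℕ := s.m * 8 + s.dl.toNat * 4 + s.dr.toNat * 2 + s.c.toNat

def dec (e : ℕ) : Sh := ⟨e / 4 % 2 == 1, e % 2 == 1, e / 8, e / 2 % 2 == 1⟩

def canon (s : Sh) : Sh := if key s < key (rev s) then rev s else s

theorem V_canon (s : Sh) : V (canon s) = V s := by
  unfold canon
  split_ifs
  · exact V_rev s
  · rfl

def eqS (a b : Sh) : Bool := Nat.beq a.m b.m && (a.dl == b.dl) && (a.c == b.c) && (a.dr == b.dr)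

theorem eqS_eq {a b : Sh} (h : eqS a b = true) : a = b := by
  obtain ⟨a1, a2, a3, a4⟩ := a
  obtain ⟨b1, b2, b3, b4⟩ := b
  simp only [eqS, Bool.and_eq_true, Nat.beq_eq, beq_iff_eq] at h
  obtain ⟨⟨⟨rfl, rfl⟩, rfl⟩, rfl⟩ := h
  rfl

/-- Remove one copy of `a`, if there is one. -/
def del (a : Sh) : List Sh → Option (List Sh)
  | [] => none
  | s :: l => if eqS a s then some l else (del a l).map (s :: ·)

theorem del_val (a : Sh) : ∀ l r : List Sh, del a l = some r → valL l = V a + valL r := by
  intro l
  induction l with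
  | nil => intro r h; simp [del] at h
  | cons s l ih =>
    intro r h
    unfold del at h
    split_ifs at h with h1
    · obtain rfl := eqS_eq h1
      simp only [Option.some.injEq] at h
      rw [← h, valL_cons]
    · simp only [Option.map_eq_some_iff] at h
      obtain ⟨r', h2, rfl⟩ := h
      rw [valL_cons, valL_cons, ih r' h2]
      abel

def put (a : Sh) : List Sh → List Sh
  | [] => [a]
  | s :: l => if key s < key a then s :: put a l else a :: s :: l

theorem put_val (a : Sh) : ∀ l : List Sh, valL (put a l) = V a + valL l := by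
  intro l
  induction l with
  | nil => rfl
  | cons s l ih =>
    unfold put
    split_ifs
    · rw [valL_cons, valL_cons, ih]
      abel
    · rw [valL_cons]

def ins (s : Sh) (l : List Sh) : List Sh :=
  match del (canon (neg s)) l with
  | some r => r
  | none => put s l

theorem ins_val (s : Sh) (l : List Sh) : valL (ins s l) = V s + valL l := by
  unfold ins
  split
  · rename_i r h
    rw [del_val _ _ _ h, V_canon, V_neg]
    abel
  · exact put_val s l

theorem foldr_ins_val (t l : List Sh) : valL (t.foldr ins l) = valL t + valL l := by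
  induction t with
  | nil => simp [valL_nil]
  | cons s t ih => rw [List.foldr_cons, ins_val, ih, valL_cons, add_assoc]

def addS (nf : Sh → List Sh) (s : Sh) (l : List Sh) : List Sh := (nf (canon s)).foldr ins l

theorem addS_val {nf : Sh → List Sh} (hnf : ∀ s, valL (nf s) = V s) (s : Sh) (l : List Sh) :
    valL (addS nf s l) = V s + valL l := by
  rw [addS, foldr_ins_val, hnf, V_canon]

def res (nf : Sh → List Sh) (b : Bool) (s : Sh) (R : List Sh) (i : ℕ) : List Sh :=
  addS nf (cut b s i (s.m - 2 - i)).1 (addS nf (cut b s i (s.m - 2 - i)).2 R)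

def eqL : List Sh → List Sh → Bool
  | [], [] => true
  | a :: l, b :: r => eqS a b && eqL l r
  | _, _ => false

theorem eqL_eq : ∀ l r : List Sh, eqL l r = true → l = r
  | [], [], _ => rfl
  | a :: l, b :: r, h => by
    simp only [eqL, Bool.and_eq_true] at h
    rw [eqS_eq h.1, eqL_eq l r h.2]
  | [], _ :: _, h => by simp [eqL] at h
  | _ :: _, [], h => by simp [eqL] at h

def known (lf : List Sh → Bool) (K : List (List Sh)) (r : List Sh) : Bool :=
  lf r || K.any (eqL r)

theorem known_ok {lf : List Sh → Bool} {K : List (List Sh)} {p : List Sh → Prop}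
    (h1 : ∀ l, lf l = true → p l) (h2 : ∀ l ∈ K, p l) {r : List Sh} (h : known lf K r = true) :
    p r := by
  simp only [known, Bool.or_eq_true, List.any_eq_true] at h
  rcases h with h | ⟨l, hl, h⟩
  · exact h1 r h
  · rw [eqL_eq _ _ h]
    exact h2 l hl

def chkA (nf : Sh → List Sh) (lB : List Sh → Bool) (KB : List (List Sh)) (l : List Sh) (s : Sh)
    (i : ℕ) : Bool :=
  match del s l with
  | some R => Nat.ble (i + 2) (fx s).m && known lB KB (res nf true (fx s) R i)
  | none => false

/-- All moves of Right, `pre` holding the blocks already treated (in reverse order). -/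
def chkB (nf : Sh → List Sh) (lA : List Sh → Bool) (KA : List (List Sh)) :
    List Sh → List Sh → Bool
  | _, [] => true
  | pre, s :: l => (List.range ((fx s).m - 1)).all
      (fun i => known lA KA (res nf false (fx s) (pre.reverseAux l) i)) && chkB nf lA KA (s :: pre) l

def run (nf : Sh → List Sh) (lA lB : List Sh → Bool) (TA TB : List (List Sh)) :
    List (List ℕ × ℕ × ℕ) → List (List Sh) → List (List Sh) → Bool
  | [], KA, KB => TA.all (fun t => known lA KA (t.foldr (addS nf) [])) &&
      TB.all (fun t => known lB KB (t.foldr (addS nf) []))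
  | (l, 0, _) :: es, KA, KB =>
      chkB nf lA KA [] (l.map dec) && run nf lA lB TA TB es KA (l.map dec :: KB)
  | (l, q + 1, i) :: es, KA, KB =>
      chkA nf lB KB (l.map dec) (dec q) i && run nf lA lB TA TB es (l.map dec :: KA) KB

/-- Left, moving first, wins. -/
def GA (x : Gm) : Prop := Wq x true

/-- Left, moving second, wins. -/
def GB (x : Gm) : Prop := ¬ Wq x false

section sound

variable {nf : Sh → List Sh} {lA lB : List Sh → Bool}

theorem res_val (hnf : ∀ s, valL (nf s) = V s) (b : Bool) (s : Sh) (R : List Sh) (i : ℕ) :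
    valL (res nf b s R i) =
      V (cut b s i (s.m - 2 - i)).1 + V (cut b s i (s.m - 2 - i)).2 + valL R := by
  rw [res, addS_val hnf, addS_val hnf, add_assoc]

theorem chkA_ok (hnf : ∀ s, valL (nf s) = V s) (hB : ∀ l, lB l = true → GB (valL l))
    {KB : List (List Sh)} (hK : ∀ l ∈ KB, GB (valL l)) {l : List Sh} {s : Sh} {i : ℕ}
    (h : chkA nf lB KB l s i = true) : GA (valL l) := by
  unfold chkA at h
  split at h
  · rename_i R hR
    simp only [Bool.and_eq_true, Nat.ble_eq] at h
    have h2 := known_ok (p := fun l => GB (valL l)) hB hK h.2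
    rw [res_val hnf] at h2
    rw [del_val _ _ _ hR, ← V_fx]
    exact Wq_cut i ((fx s).m - 2 - i) (by omega) h2
  · simp at h

theorem chkB_aux (hnf : ∀ s, valL (nf s) = V s) (hA : ∀ l, lA l = true → GA (valL l))
    {KA : List (List Sh)} (hK : ∀ l ∈ KA, GA (valL l)) : ∀ (l pre : List Sh),
    chkB nf lA KA pre l = true → ∀ s ∈ l, ∃ R : List Sh, valL pre + valL l = V s + valL R ∧
      ∀ i j, i + j + 2 = (fx s).m →
        GA (V (cut false (fx s) i j).1 + V (cut false (fx s) i j).2 + valL R) := by
  intro l
  induction l with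
  | nil => intro pre _ s hs; simp at hs
  | cons a l ih =>
    intro pre h s hs
    simp only [chkB, Bool.and_eq_true, List.all_eq_true, List.mem_range] at h
    rcases List.mem_cons.1 hs with rfl | hs
    · refine ⟨pre.reverseAux l, ?_, ?_⟩
      · simp only [valL, List.reverseAux_eq, List.map_cons, List.sum_cons, List.map_append,
          List.sum_append, List.map_reverse, List.sum_reverse]
        abel
      · intro i j hij
        have h2 := known_ok (p := fun l => GA (valL l)) hA hK (h.1 i (by omega))
        rw [res_val hnf] at h2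
        obtain rfl : j = (fx s).m - 2 - i := by omega
        exact h2
    · obtain ⟨R, h1, h2⟩ := ih (a :: pre) h.2 s hs
      refine ⟨R, ?_, h2⟩
      rw [← h1, valL_cons, valL_cons]
      abel

theorem chkB_ok (hnf : ∀ s, valL (nf s) = V s) (hA : ∀ l, lA l = true → GA (valL l))
    {KA : List (List Sh)} (hK : ∀ l ∈ KA, GA (valL l)) {l : List Sh}
    (h : chkB nf lA KA [] l = true) : GB (valL l) := by
  rw [← valM_coe]
  apply all_sh0
  intro s R i j h1 hij
  have hs : s ∈ l := by
    rw [← Multiset.mem_coe, h1]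
    simp
  obtain ⟨R', h2, h3⟩ := chkB_aux hnf hA hK l [] h s hs
  rw [valL_nil, zero_add, ← valM_coe, h1, valM_cons] at h2
  rw [add_left_cancel h2]
  exact h3 i j hij

theorem norm_val (hnf : ∀ s, valL (nf s) = V s) (t : List Sh) :
    valL (t.foldr (addS nf) []) = valL t := by
  induction t with
  | nil => rfl
  | cons s t ih => rw [List.foldr_cons, addS_val hnf, ih, valL_cons]

theorem run_ok (hnf : ∀ s, valL (nf s) = V s) (hA : ∀ l, lA l = true → GA (valL l))
    (hB : ∀ l, lB l = true → GB (valL l)) (TA TB : List (List Sh)) :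
    ∀ (es : List (List ℕ × ℕ × ℕ)) (KA KB : List (List Sh)), (∀ l ∈ KA, GA (valL l)) →
      (∀ l ∈ KB, GB (valL l)) → run nf lA lB TA TB es KA KB = true →
      (∀ t ∈ TA, GA (valL t)) ∧ (∀ t ∈ TB, GB (valL t)) := by
  intro es
  induction es with
  | nil =>
    intro KA KB h1 h2 h
    simp only [run, Bool.and_eq_true, List.all_eq_true] at h
    constructor
    · intro t ht
      rw [← norm_val hnf]
      exact known_ok (p := fun l => GA (valL l)) hA h1 (h.1 t ht)
    · intro t ht
      rw [← norm_val hnf]
      exact known_ok (p := fun l => GB (valL l)) hB h2 (h.2 t ht)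
  | cons e es ih =>
    intro KA KB h1 h2 h
    obtain ⟨l, q, i⟩ := e
    rcases q with _ | q
    · simp only [run, Bool.and_eq_true] at h
      refine ih _ _ h1 ?_ h.2
      intro t ht
      rcases List.mem_cons.1 ht with rfl | ht
      · exact chkB_ok hnf hA h1 h.1
      · exact h2 t ht
    · simp only [run, Bool.and_eq_true] at h
      refine ih _ _ ?_ h2 h.2
      intro t ht
      rcases List.mem_cons.1 ht with rfl | ht
      · exact chkA_ok hnf hB h2 h.1
      · exact h1 t ht

theorem run_ok' (hnf : ∀ s, valL (nf s) = V s) (hA : ∀ l, lA l = true → GA (valL l))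
    (hB : ∀ l, lB l = true → GB (valL l)) {TA TB : List (List Sh)}
    {es : List (List ℕ × ℕ × ℕ)} (h : run nf lA lB TA TB es [] [] = true) :
    (∀ t ∈ TA, GA (valL t)) ∧ (∀ t ∈ TB, GB (valL t)) :=
  run_ok hnf hA hB TA TB es [] [] (by simp) (by simp) h

end sound

theorem GA_add {x y : Gm} (hx : GB x) (hy : GA y) : GA (x + y) := Wq_add1 (b := true) hx hy

theorem GB_add {x y : Gm} (hx : GB x) (hy : GB y) : GB (x + y) := Wq_add2 hx hy

theorem GB_zero : GB 0 := Wq_zero false

theorem GA_iff (x : Gm) : GA x ↔ ¬ GB (-x) := by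
  rw [GB, not_not]
  exact (Wq_neg x true).symm

theorem eq_zero_GB {x : Gm} (h1 : GB x) (h2 : GB (-x)) : x = 0 := by
  apply eq_zero_of
  intro b
  cases b
  · exact h1
  · intro h
    exact (GA_iff x).1 h h2

end Pool.Agent.P.MP_6e435d_co.G
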