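import Mathlib

set_option autoImplicit false

namespace Pool.Agent.P.MP_6e435d_co

/-- `n` alternating pieces, the first of colour `c`. -/
def alt : Bool → ℕ → List (Option Bool)
  | _, 0 => []
  | c, n + 1 => some c :: alt (!c) n

/-- Colour of the piece number `i` (from 0) of an alternating block that starts with `c`. -/
def col (c : Bool) (i : ℕ) : Bool := if i % 2 = 0 then c else !c

/-- A block: `m` alternating pieces starting with colour `c`; if `dl` one more piece of the first
colour in front, if `dr` one more piece of the last colour behind. -/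
structure Sh where
  dl : Bool
  c : Bool
  m : ℕ
  dr : Bool
  deriving DecidableEq

/-- The squares of a block. -/
def Sh.l (s : Sh) : List (Option Bool) :=
  (if s.dl then [some s.c] else []) ++ alt s.c s.m ++
    (if s.dr then [some (col s.c (s.m + 1))] else [])

/-- A row made of the given blocks, each followed by one empty square. -/
def rowOf (L : List (List (Option Bool))) : List (Option Bool) := L.flatMap fun l => l ++ [none]

def sg (c : Bool) : ℤ := if c then -1 else 1

def w0 (m : ℕ) : ℤ := if m % 2 = 1 ∧ 5 ≤ m then 2 else 0

def w1 (m : ℕ) : ℤ :=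
  if m % 2 = 1 then (if m = 3 then 2 else if m % 10 = 3 ∨ m % 10 = 7 then 1 else 0)
  else (if m = 0 ∨ m = 4 then 0 else if m % 10 = 2 ∨ m % 10 = 8 then -2 else -1)

def w2 (m : ℕ) : ℤ := if m % 10 = 3 then -2 else if m % 10 = 7 then -1 else 0

/-- Twice the numerical part of the weight of a block. -/
def Sh.wt (s : Sh) : ℤ :=
  if s.dl then (if s.dr then sg s.c * w2 s.m else sg s.c * w1 s.m)
  else (if s.dr then sg (col s.c (s.m + 1)) * w1 s.m else sg s.c * w0 s.m)

/-- The star part of the weight of a block. -/
def Sh.st (s : Sh) : Bool := s.dl && s.dr && decide (s.m % 10 = 8)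

end Pool.Agent.P.MP_6e435d_co
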