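import Pool.Agent.P.MP_6e435d_co.Defs

set_option autoImplicit false

namespace Pool.Agent.P.MP_6e435d_co

/-- The row made of alternating strips, each given by its first colour and its length and
followed by one empty square. -/
def strips (L : List (Bool × ℕ)) : List (Option Bool) := rowOf (L.map fun s => alt s.1 s.2)

/-- The lengths a strip of length `n` counts as. -/
def piece (n : ℕ) : List ℕ :=
  if n = 3 then [2] else if n = 12 then [2, 4] else if n ≤ 1 ∨ n = 6 then [] else [n]

/-- Parity of the number of times the length `j` is counted. -/
def ev (L : List (Bool × ℕ)) (j : ℕ) : ℕ := (L.flatMap fun s => piece s.2).count j % 2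

/-- Strips of length `n` that start with the colour of the opponent of `b`, minus those that start
with the colour `b`. -/
def od (b : Bool) (L : List (Bool × ℕ)) (n : ℕ) : ℤ := (L.count (!b, n) : ℤ) - L.count (b, n)

/-- The same difference over all odd lengths from five on. -/
def dd (b : Bool) (L : List (Bool × ℕ)) : ℤ :=
  (L.countP fun s => s.1 = !b ∧ s.2 % 2 = 1 ∧ 5 ≤ s.2 : ℤ) -
    L.countP fun s => s.1 = b ∧ s.2 % 2 = 1 ∧ 5 ≤ s.2

end Pool.Agent.P.MP_6e435d_co
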