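import Pool.Agent.P.MP_6e435d_co.Cert

set_option autoImplicit false
set_option linter.dupNamespace false
set_option linter.unusedVariables false

namespace Pool.Agent.P.MP_6e435d_co.G

/-- The parts that occur in critical play. -/
inductive Pt
  | A (n : ℕ)
  | O (n : ℕ)
  | X (n : ℕ)
  | oO (n : ℕ)
  | oA (n : ℕ)
  | oOo (n : ℕ)
  | U
  deriving DecidableEq

open Pt

def gO (a : ℕ) : Prop := 2 ≤ a ∧ (a % 10 = 0 ∨ a % 10 = 2 ∨ a % 10 = 6)
def gA (a : ℕ) : Prop := a % 10 = 3 ∨ a % 10 = 9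
def gX (a : ℕ) : Prop := a % 2 = 1 ∧ 5 ≤ a

def Pt.sh : Pt → Sh
  | A n => sO n
  | O n => sO n
  | X n => sX n
  | oO n => s1 false (n - 1)
  | oA n => s1 false (n - 1)
  | oOo n => s2 false (n - 2)
  | Pt.U => G.U

def Pt.ok : Pt → Prop
  | A n => n % 2 = 0 ∧ n ≠ 0 ∧ n ≠ 6 ∧ n ≠ 12
  | O n => gX n ∧ n ≠ 9
  | X n => gX n ∧ n ≠ 9
  | oO n => gO n ∧ n ≠ 2
  | oA n => gA n
  | oOo n => n % 10 = 5 ∧ n ≠ 5
  | Pt.U => True

def Pt.w : Pt → ℤ
  | A _ => 0
  | O _ => 1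
  | X _ => -1
  | oO _ => 0
  | oA _ => -1
  | oOo _ => -1
  | Pt.U => 1

def Pt.f : Pt → ℤ
  | A _ => 0
  | O _ => 1
  | X _ => -1
  | oO _ => 1
  | oA _ => 0
  | oOo _ => 1
  | Pt.U => 0

def Pt.sz : Pt → ℕ
  | A n => n
  | O n => n
  | X n => n
  | oO n => n
  | oA n => n
  | oOo n => n
  | Pt.U => 3

def Pt.Dbl : Pt → Prop
  | oO _ => True
  | oOo _ => True
  | oA n => n ≠ 3
  | _ => False

abbrev MP := Multiset Pt

def val (M : MP) : Gm := (M.map fun p => V p.sh).sum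
def wP (M : MP) : ℤ := (M.map Pt.w).sum
def fP (M : MP) : ℤ := (M.map Pt.f).sum
def sP (M : MP) : ℕ := (M.map Pt.sz).sum
def okP (M : MP) : Prop := ∀ p ∈ M, p.ok

@[simp] theorem val_cons (p : Pt) (R : MP) : val (p ::ₘ R) = V p.sh + val R := by simp [val]
@[simp] theorem val_add (R T : MP) : val (R + T) = val R + val T := by simp [val]
@[simp] theorem val_zero : val 0 = 0 := by simp [val]
@[simp] theorem val_single (p : Pt) : val {p} = V p.sh := by simp [val]
@[simp] theorem wP_cons (p : Pt) (R : MP) : wP (p ::ₘ R) = p.w + wP R := by simp [wP]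
@[simp] theorem wP_add (R T : MP) : wP (R + T) = wP R + wP T := by simp [wP]
@[simp] theorem wP_zero : wP 0 = 0 := by simp [wP]
@[simp] theorem wP_single (p : Pt) : wP {p} = p.w := by simp [wP]
@[simp] theorem fP_cons (p : Pt) (R : MP) : fP (p ::ₘ R) = p.f + fP R := by simp [fP]
@[simp] theorem fP_add (R T : MP) : fP (R + T) = fP R + fP T := by simp [fP]
@[simp] theorem fP_zero : fP 0 = 0 := by simp [fP]
@[simp] theorem fP_single (p : Pt) : fP {p} = p.f := by simp [fP]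
@[simp] theorem sP_cons (p : Pt) (R : MP) : sP (p ::ₘ R) = p.sz + sP R := by simp [sP]
@[simp] theorem sP_add (R T : MP) : sP (R + T) = sP R + sP T := by simp [sP]
@[simp] theorem sP_zero : sP 0 = 0 := by simp [sP]
@[simp] theorem sP_single (p : Pt) : sP {p} = p.sz := by simp [sP]
@[simp] theorem okP_cons (p : Pt) (R : MP) : okP (p ::ₘ R) ↔ p.ok ∧ okP R := by simp [okP]
@[simp] theorem okP_add (R T : MP) : okP (R + T) ↔ okP R ∧ okP T := by
  simp [okP, or_imp, forall_and]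
@[simp] theorem okP_zero : okP 0 := by simp [okP]
@[simp] theorem okP_single (p : Pt) : okP {p} ↔ p.ok := by simp [okP]

theorem val_eq (M : MP) : val M = valM (M.map Pt.sh) := by simp [val, valM]

theorem w0_spec (m : ℕ) : (m % 2 = 1 ∧ 5 ≤ m ∧ w0 m = 2) ∨ ((m % 2 = 0 ∨ m < 5) ∧ w0 m = 0) := by
  unfold w0
  split_ifs <;> omega

theorem w1_spec (m : ℕ) :
    (m % 2 = 1 ∧ w1 m = 0 ∧ (m % 10 = 1 ∨ m % 10 = 5 ∨ m % 10 = 9)) ∨
      (m % 2 = 1 ∧ 1 ≤ w1 m ∧ (m % 10 = 3 ∨ m % 10 = 7)) ∨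
      (m % 2 = 0 ∧ w1 m = -2 ∧ (m % 10 = 2 ∨ m % 10 = 8)) ∨
      (m % 2 = 0 ∧ -1 ≤ w1 m ∧ (m % 10 = 0 ∨ m % 10 = 4 ∨ m % 10 = 6)) := by
  unfold w1
  split_ifs <;> omega

theorem w2_spec (m : ℕ) : (w2 m = -2 ∧ m % 10 = 3) ∨ (-1 ≤ w2 m ∧ m % 10 ≠ 3) := by
  unfold w2
  split_ifs <;> omega

theorem wt_sO (n : ℕ) : (sO n).wt = w0 n := by simp [sO, Sh.wt, sg]
theorem wt_sX (n : ℕ) : (sX n).wt = - w0 n := by simp [sX, Sh.wt, sg]
theorem wt_s1 (n : ℕ) : (s1 false n).wt = w1 n := by simp [s1, Sh.wt, sg]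
theorem wt_s2 (n : ℕ) : (s2 false n).wt = w2 n := by simp [s2, Sh.wt, sg]

theorem wt_sh {p : Pt} (h : p.ok) : p.sh.wt = 2 * p.w := by
  cases p with
  | A n => have := w0_spec n; simp only [Pt.ok] at h; simp only [Pt.sh, wt_sO, Pt.w]; omega
  | O n => have := w0_spec n; simp only [Pt.ok, gX] at h; simp only [Pt.sh, wt_sO, Pt.w]; omega
  | X n => have := w0_spec n; simp only [Pt.ok, gX] at h; simp only [Pt.sh, wt_sX, Pt.w]; omega
  | oO n =>
    have := w1_spec (n - 1)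
    simp only [Pt.ok, gO] at h
    simp only [Pt.sh, wt_s1, Pt.w]
    omega
  | oA n =>
    have := w1_spec (n - 1)
    simp only [Pt.ok, gA] at h
    simp only [Pt.sh, wt_s1, Pt.w]
    omega
  | oOo n =>
    have := w2_spec (n - 2)
    simp only [Pt.ok] at h
    simp only [Pt.sh, wt_s2, Pt.w]
    omega
  | U => decide

theorem HM_sh {M : MP} (h : okP M) : HM (M.map Pt.sh) = 2 * wP M := by
  induction M using Multiset.induction_on with
  | empty => simp [HM]
  | cons p R ih =>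
    rw [okP_cons] at h
    rw [Multiset.map_cons, HM_cons, ih h.2, wt_sh h.1, wP_cons]
    ring

def nfA (n : ℕ) : MP := if n = 0 ∨ n = 6 then 0 else if n = 12 then {A 2, A 4} else {A n}
def nfX (n : ℕ) : MP := if n = 9 then {oA 3, A 2} else {X n}
def nfoO (n : ℕ) : MP := if n = 2 then 0 else {oO n}
def nfoOo (n : ℕ) : MP := if n = 5 then {oA 3} else {oOo n}

theorem V_A2 : V A2 = V (sO 2) := V_even (by norm_num)
theorem V_A4 : V A4 = V (sO 4) := V_even (by norm_num)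

theorem val_nfA (n : ℕ) : val (nfA n) = V (sO n) := by
  unfold nfA
  split_ifs with h1 h2
  · rcases h1 with rfl | rfl
    · rw [val_zero, V_dead (by decide)]
    · rw [val_zero, V_A6]
  · subst h2
    simp [V_A12, valL, Pt.sh, V_A2, V_A4]
  · simp [Pt.sh]

theorem val_nfX (n : ℕ) : val (nfX n) = V (sX n) := by
  unfold nfX
  split_ifs with h1
  · subst h1
    simp [V_X9, valL, Pt.sh, V_A2, D]
  · simp [Pt.sh]

theorem val_nfoO (n : ℕ) : val (nfoO (n + 1)) = V (s1 false n) := by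
  unfold nfoO
  split_ifs with h1
  · obtain rfl : n = 1 := by omega
    rw [val_zero, V_dead (by decide)]
  · simp [Pt.sh]

theorem val_nfoOo (n : ℕ) : val (nfoOo (n + 2)) = V (s2 false n) := by
  unfold nfoOo
  split_ifs with h1
  · obtain rfl : n = 3 := by omega
    simp [V_oOo5, valL, Pt.sh, D]
  · simp [Pt.sh]

/-- The moves of Right that lower the weight by exactly one. -/
inductive Crit : Pt → MP → Prop
  | a1 (a b : ℕ) : a % 2 = 0 → gA b → Crit (A (a + b + 1)) (nfA a + {oA b})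
  | a2 (a b : ℕ) : gO a → gX b → Crit (A (a + b + 1)) (nfoO a + nfX b)
  | o1 (a b : ℕ) : gO a → b % 2 = 0 → Crit (O (a + b + 1)) (nfoO a + nfA b)
  | x1 (a b : ℕ) : gA a → gX b → Crit (X (a + b + 1)) ({oA a} + nfX b)
  | p1 (a b : ℕ) : a % 10 = 5 → b % 2 = 0 → Crit (oO (a + b + 1)) (nfoOo a + nfA b)
  | p2 (a b : ℕ) : gA a → gO b → Crit (oO (a + b + 1)) ({oA a} + nfoO b)
  | q1 (a b : ℕ) : a % 10 = 5 → gX b → Crit (oA (a + b + 1)) (nfoOo a + nfX b)
  | q2 (a b : ℕ) : gA a → gA b → Crit (oA (a + b + 1)) ({oA a} + {oA b})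
  | r1 (a b : ℕ) : a % 10 = 5 → gA b → Crit (oOo (a + b + 1)) (nfoOo a + {oA b})
  | u : Crit Pt.U {A 2}

theorem col_even (c : Bool) {i : ℕ} (h : i % 2 = 0) : col c i = c := if_pos h

theorem col_odd (c : Bool) {i : ℕ} (h : i % 2 = 1) : col c i = !c := if_neg (by omega)

theorem cut_eq (b dl c dr : Bool) (m i j : ℕ) (h : col c i = b) :
    cut b ⟨dl, c, m, dr⟩ i j = (⟨dl, c, i, false⟩, ⟨true, b, j, dr⟩) := by
  simp [cut, h]

theorem cut_ne (b dl c dr : Bool) (m i j : ℕ) (h : col c i = !b) :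
    cut b ⟨dl, c, m, dr⟩ i j = (⟨dl, c, i, true⟩, ⟨false, !b, j, dr⟩) := by
  simp [cut, h]

theorem V_r (c : Bool) (i : ℕ) (h : col c (i + 1) = false) :
    V ⟨false, c, i, true⟩ = V (s1 false i) := by
  rw [← V_rev]
  simp [rev, h, s1]

theorem wt_r (c : Bool) (i : ℕ) (h : col c (i + 1) = false) :
    (Sh.mk false c i true).wt = w1 i := by
  simp [Sh.wt, h, sg]

theorem crit_cast {p p' : Pt} {N : MP} (h : Crit p N) (e : p = p') : Crit p' N := e ▸ h

def RMp (p : Pt) (i j : ℕ) : Prop :=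
  2 * p.w - 2 < (cut false p.sh i j).1.wt + (cut false p.sh i j).2.wt ∨
    ∃ N, Crit p N ∧ val N = V (cut false p.sh i j).1 + V (cut false p.sh i j).2

theorem RM_A {n : ℕ} (hp : (A n).ok) (i j : ℕ) (h : i + j + 2 = (A n).sh.m) :
    RMp (A n) i j := by
  simp only [RMp, Pt.ok, Pt.sh, sO, Pt.w] at hp h ⊢
  rcases Nat.mod_two_eq_zero_or_one i with hi | hi
  · have a1 := w0_spec i
    have a2 := w1_spec j
    rw [cut_eq false _ false _ _ _ _ (col_even _ hi)]
    change _ < (sO i).wt + (s1 false j).wt ∨ ∃ N, _ ∧ _ = V (sO i) + V (s1 false j)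
    rw [wt_sO, wt_s1]
    by_cases hc : gA (j + 1)
    · exact Or.inr ⟨_, crit_cast (Crit.a1 i (j + 1) hi hc) (congrArg _ (by omega)),
        by simp [val_nfA, Pt.sh]⟩
    · unfold gA at hc
      omega
  · have a1 := w1_spec i
    have a2 := w0_spec j
    rw [cut_ne false _ false _ _ _ _ (col_odd _ hi)]
    have e : col false (i + 1) = false := col_even _ (by omega)
    change _ < _ + (sX j).wt ∨ ∃ N, _ ∧ _ = _ + V (sX j)
    rw [wt_r _ _ e, wt_sX, V_r _ _ e]
    by_cases hc : gO (i + 1) ∧ gX j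
    · exact Or.inr ⟨_, crit_cast (Crit.a2 (i + 1) j hc.1 hc.2) (congrArg _ (by omega)),
        by simp [val_nfoO, val_nfX]⟩
    · unfold gO gX at hc
      omega

theorem RM_O {n : ℕ} (hp : (O n).ok) (i j : ℕ) (h : i + j + 2 = (O n).sh.m) :
    RMp (O n) i j := by
  simp only [RMp, Pt.ok, Pt.sh, sO, Pt.w, gX] at hp h ⊢
  rcases Nat.mod_two_eq_zero_or_one i with hi | hi
  · have a1 := w0_spec i
    have a2 := w1_spec j
    rw [cut_eq false _ false _ _ _ _ (col_even _ hi)]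
    change _ < (sO i).wt + (s1 false j).wt ∨ ∃ N, _ ∧ _ = V (sO i) + V (s1 false j)
    rw [wt_sO, wt_s1]
    by_cases hc : gO (j + 1)
    · exact Or.inr ⟨_, crit_cast (Crit.o1 (j + 1) i hc hi) (congrArg _ (by omega)),
        by simp [val_nfA, val_nfoO, add_comm]⟩
    · unfold gO at hc
      omega
  · have a1 := w1_spec i
    have a2 := w0_spec j
    rw [cut_ne false _ false _ _ _ _ (col_odd _ hi)]
    have e : col false (i + 1) = false := col_even _ (by omega)
    change _ < _ + (sX j).wt ∨ ∃ N, _ ∧ _ = _ + V (sX j)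
    rw [wt_r _ _ e, wt_sX, V_r _ _ e, V_even (by omega)]
    by_cases hc : gO (i + 1)
    · exact Or.inr ⟨_, crit_cast (Crit.o1 (i + 1) j hc (by omega)) (congrArg _ (by omega)),
        by simp [val_nfoO, val_nfA]⟩
    · unfold gO at hc
      omega

theorem RM_X {n : ℕ} (hp : (X n).ok) (i j : ℕ) (h : i + j + 2 = (X n).sh.m) :
    RMp (X n) i j := by
  simp only [RMp, Pt.ok, Pt.sh, sX, Pt.w, gX] at hp h ⊢
  rcases Nat.mod_two_eq_zero_or_one i with hi | hi
  · have a1 := w1_spec i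
    have a2 := w0_spec j
    rw [cut_ne false _ true _ _ _ _ (col_even _ hi)]
    have e : col true (i + 1) = false := col_odd _ (by omega)
    change _ < _ + (sX j).wt ∨ ∃ N, _ ∧ _ = _ + V (sX j)
    rw [wt_r _ _ e, wt_sX, V_r _ _ e]
    by_cases hc : gA (i + 1) ∧ gX j
    · exact Or.inr ⟨_, crit_cast (Crit.x1 (i + 1) j hc.1 hc.2) (congrArg _ (by omega)),
        by simp [val_nfX, Pt.sh]⟩
    · unfold gA gX at hc
      omega
  · have a1 := w0_spec i
    have a2 := w1_spec j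
    rw [cut_eq false _ true _ _ _ _ (col_odd _ hi)]
    change _ < (sX i).wt + (s1 false j).wt ∨ ∃ N, _ ∧ _ = V (sX i) + V (s1 false j)
    rw [wt_sX, wt_s1]
    by_cases hc : gA (j + 1) ∧ gX i
    · exact Or.inr ⟨_, crit_cast (Crit.x1 (j + 1) i hc.1 hc.2) (congrArg _ (by omega)),
        by simp [val_nfX, Pt.sh, add_comm]⟩
    · unfold gA gX at hc
      omega

theorem RM_oO {n : ℕ} (hp : (oO n).ok) (i j : ℕ) (h : i + j + 2 = (oO n).sh.m) :
    RMp (oO n) i j := by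
  simp only [RMp, Pt.ok, Pt.sh, s1, Pt.w, gO] at hp h ⊢
  rcases Nat.mod_two_eq_zero_or_one i with hi | hi
  · have a1 := w1_spec i
    have a2 := w1_spec j
    rw [cut_eq false _ false _ _ _ _ (col_even _ hi)]
    change _ < (s1 false i).wt + (s1 false j).wt ∨
      ∃ N, _ ∧ _ = V (s1 false i) + V (s1 false j)
    rw [wt_s1, wt_s1]
    by_cases hc : gA (i + 1) ∧ gO (j + 1)
    · exact Or.inr ⟨_, crit_cast (Crit.p2 (i + 1) (j + 1) hc.1 hc.2) (congrArg _ (by omega)),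
        by simp [val_nfoO, Pt.sh]⟩
    · unfold gA gO at hc
      omega
  · have a1 := w2_spec i
    have a2 := w0_spec j
    rw [cut_ne false _ false _ _ _ _ (col_odd _ hi)]
    change _ < (s2 false i).wt + (sX j).wt ∨ ∃ N, _ ∧ _ = V (s2 false i) + V (sX j)
    rw [wt_s2, wt_sX, V_even (by omega)]
    by_cases hc : (i + 2) % 10 = 5
    · exact Or.inr ⟨_, crit_cast (Crit.p1 (i + 2) j hc (by omega)) (congrArg _ (by omega)),
        by simp [val_nfoOo, val_nfA]⟩
    · omega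

theorem RM_oA {n : ℕ} (hp : (oA n).ok) (i j : ℕ) (h : i + j + 2 = (oA n).sh.m) :
    RMp (oA n) i j := by
  simp only [RMp, Pt.ok, Pt.sh, s1, Pt.w, gA] at hp h ⊢
  rcases Nat.mod_two_eq_zero_or_one i with hi | hi
  · have a1 := w1_spec i
    have a2 := w1_spec j
    rw [cut_eq false _ false _ _ _ _ (col_even _ hi)]
    change _ < (s1 false i).wt + (s1 false j).wt ∨
      ∃ N, _ ∧ _ = V (s1 false i) + V (s1 false j)
    rw [wt_s1, wt_s1]
    by_cases hc : gA (i + 1) ∧ gA (j + 1)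
    · exact Or.inr ⟨_, crit_cast (Crit.q2 (i + 1) (j + 1) hc.1 hc.2) (congrArg _ (by omega)),
        by simp [Pt.sh]⟩
    · unfold gA at hc
      omega
  · have a1 := w2_spec i
    have a2 := w0_spec j
    rw [cut_ne false _ false _ _ _ _ (col_odd _ hi)]
    change _ < (s2 false i).wt + (sX j).wt ∨ ∃ N, _ ∧ _ = V (s2 false i) + V (sX j)
    rw [wt_s2, wt_sX]
    by_cases hc : (i + 2) % 10 = 5 ∧ gX j
    · exact Or.inr ⟨_, crit_cast (Crit.q1 (i + 2) j hc.1 hc.2) (congrArg _ (by omega)),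
        by simp [val_nfoOo, val_nfX]⟩
    · unfold gX at hc
      omega

theorem RM_oOo {n : ℕ} (hp : (oOo n).ok) (i j : ℕ) (h : i + j + 2 = (oOo n).sh.m) :
    RMp (oOo n) i j := by
  simp only [RMp, Pt.ok, Pt.sh, s2, Pt.w] at hp h ⊢
  rcases Nat.mod_two_eq_zero_or_one i with hi | hi
  · have a1 := w1_spec i
    have a2 := w2_spec j
    rw [cut_eq false _ false _ _ _ _ (col_even _ hi)]
    change _ < (s1 false i).wt + (s2 false j).wt ∨
      ∃ N, _ ∧ _ = V (s1 false i) + V (s2 false j)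
    rw [wt_s1, wt_s2]
    by_cases hc : (j + 2) % 10 = 5 ∧ gA (i + 1)
    · exact Or.inr ⟨_, crit_cast (Crit.r1 (j + 2) (i + 1) hc.1 hc.2) (congrArg _ (by omega)),
        by simp [val_nfoOo, Pt.sh, add_comm]⟩
    · unfold gA at hc
      omega
  · have a1 := w2_spec i
    have a2 := w1_spec j
    rw [cut_ne false _ false _ _ _ _ (col_odd _ hi)]
    have e : col true (j + 1) = false := col_odd _ (by omega)
    change _ < (s2 false i).wt + (Sh.mk false true j true).wt ∨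
      ∃ N, _ ∧ _ = V (s2 false i) + V (Sh.mk false true j true)
    rw [wt_s2, wt_r _ _ e, V_r _ _ e]
    by_cases hc : (i + 2) % 10 = 5 ∧ gA (j + 1)
    · exact Or.inr ⟨_, crit_cast (Crit.r1 (i + 2) (j + 1) hc.1 hc.2) (congrArg _ (by omega)),
        by simp [val_nfoOo, Pt.sh]⟩
    · unfold gA at hc
      omega

theorem RM_U (i j : ℕ) (h : i + j + 2 = Pt.U.sh.m) : RMp Pt.U i j := by
  have h2 : (Pt.sh Pt.U).m = 2 := rfl
  obtain rfl : i = 0 := by omega
  obtain rfl : j = 0 := by omega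
  refine Or.inr ⟨_, Crit.u, ?_⟩
  rw [V_dead (s := (cut false (Pt.sh Pt.U) 0 0).2) (by decide), add_zero, ← V_fx (cut _ _ _ _).1,
    val_single]
  exact V_A2.symm

theorem fx_sh {p : Pt} (hp : p.ok) : fx p.sh = p.sh := by
  unfold fx
  rw [if_neg]
  cases p <;> simp only [Pt.sh, sO, sX, s1, s2, G.U, Pt.ok] at hp ⊢ <;> simp
  omega

theorem RM {p : Pt} (hp : p.ok) (i j : ℕ) (h : i + j + 2 = p.sh.m) : RMp p i j := by
  cases p with
  | A n => exact RM_A hp i j h
  | O n => exact RM_O hp i j h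
  | X n => exact RM_X hp i j h
  | oO n => exact RM_oO hp i j h
  | oA n => exact RM_oA hp i j h
  | oOo n => exact RM_oOo hp i j h
  | U => exact RM_U i j h

theorem GB_rule {M : MP} (hM : okP M) (hw : wP M = 1)
    (h : ∀ p R N, M = p ::ₘ R → Crit p N → GA (val (R + N))) : GB (val M) := by
  rw [val_eq]
  apply all_sh0
  intro s R i j h1 hij
  have hs : s ∈ M.map Pt.sh := by rw [h1]; simp
  obtain ⟨p, hp, rfl⟩ := Multiset.mem_map.1 hs
  obtain ⟨R', rfl⟩ := Multiset.exists_cons_of_mem hp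
  rw [Multiset.map_cons, Multiset.cons_inj_right] at h1
  subst h1
  rw [okP_cons] at hM
  rw [fx_sh hM.1] at hij ⊢
  rcases RM hM.1 i j hij with h2 | ⟨N, h2, h3⟩
  · have := C3 (M := (cut false p.sh i j).1 ::ₘ (cut false p.sh i j).2 ::ₘ R'.map Pt.sh)
      (Or.inl (by rw [HM_cons, HM_cons, HM_sh hM.2]; rw [wP_cons] at hw; omega))
    rwa [valM_cons, valM_cons, ← add_assoc] at this
  · have := h p R' N rfl h2
    rwa [val_add, h3, add_comm, val_eq] at this

/-! ### Replies of Left -/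

theorem rX {n : ℕ} (h : gX n) {x : Gm} (hx : GB (V (sO (n - 3)) + x)) : GA (V (sX n) + x) := by
  unfold gX at h
  apply Wq_cut (n - 3) 1 (by simp only [sX]; omega)
  rw [sX, cut_eq true _ true _ _ _ _ (col_even _ (by omega)), V_dead (s := ⟨true, true, 1, false⟩)
    (by decide), add_zero]
  rwa [← V_even (by omega)] at hx

theorem rA {n : ℕ} (h : n % 2 = 0) (h2 : 4 ≤ n) {x : Gm} (hx : GB (V (sO (n - 3)) + x)) :
    GA (V (sO n) + x) := by
  apply Wq_cut (n - 3) 1 (by simp only [sO]; omega)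
  rw [sO, cut_eq true _ false _ _ _ _ (col_odd _ (by omega)), V_dead (s := ⟨true, true, 1, false⟩)
    (by decide), add_zero]
  exact hx

theorem rP {n : ℕ} (h : n % 2 = 1) (h2 : 5 ≤ n) {x : Gm} (hx : GB (V (s1 false (n - 3 - 1)) + x)) :
    GA (V (s1 false (n - 1)) + x) := by
  apply Wq_cut (n - 3 - 1) 1 (by simp only [s1]; omega)
  rw [s1, cut_eq true _ false _ _ _ _ (col_odd _ (by omega)), V_dead (s := ⟨true, true, 1, false⟩)
    (by decide), add_zero]
  exact hx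

theorem rO {n : ℕ} (h : gX n) {x : Gm} (hx : GB (V (sO (n - 4)) + V G.U + x)) :
    GA (V (sO n) + x) := by
  unfold gX at h
  apply Wq_cut (n - 4) 2 (by simp only [sO]; omega)
  rw [sO, cut_eq true _ false _ _ _ _ (col_odd _ (by omega))]
  exact hx

theorem roO {n : ℕ} (h2 : 6 ≤ n) {x : Gm} (hx : GB (V (sO (n - 5)) + x)) :
    GA (V (s1 false (n - 1)) + x) := by
  apply Wq_cut 2 (n - 5) (by simp only [s1]; omega)
  rw [s1, cut_ne true _ false _ _ _ _ (col_even _ (by omega))]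
  change GB (V (s2 false 2) + V (sO (n - 5)) + x)
  rwa [V_ooxx, zero_add]

theorem roOo {n : ℕ} (h : n % 2 = 1) (h2 : 5 ≤ n) {x : Gm}
    (hx : GB (V (sO 2) + V (s1 false (n - 3 - 1)) + x)) : GA (V (s2 false (n - 2)) + x) := by
  apply Wq_cut 0 (n - 3 - 1) (by simp only [s2]; omega)
  rw [s2, cut_ne true _ false _ _ _ _ (col_even _ (by omega))]
  change GB (V ⟨true, false, 0, true⟩ + V ⟨false, false, n - 3 - 1, true⟩ + x)
  rwa [V_r _ _ (col_even _ (by omega)), ← V_fx ⟨true, false, 0, true⟩]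

theorem r6 {x : Gm} (hx : GB (V G.U + x)) : GA (V (s1 false 5) + x) := by
  apply Wq_cut 1 2 rfl
  rw [V_dead (s := (cut true (s1 false 5) 1 2).1) (by decide), zero_add]
  exact hx

theorem rD {x : Gm} (hx : GB (V (sO 2) + x)) : GA (V (s1 false 2) + x) := by
  apply Wq_cut 0 0 rfl
  rw [V_dead (s := (cut true (s1 false 2) 0 0).2) (by decide), add_zero,
    ← V_fx (cut true (s1 false 2) 0 0).1]
  exact hx

end Pool.Agent.P.MP_6e435d_co.G
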