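import Pool.Agent.P.MP_6e435d_co.Fam

set_option autoImplicit false
set_option linter.dupNamespace false

namespace Pool.Agent.P.MP_6e435d_co.G

open Pt Multiset

theorem nfA_props {n : ℕ} (h : n % 2 = 0) :
    okP (nfA n) ∧ wP (nfA n) = 0 ∧ fP (nfA n) = 0 ∧ sP (nfA n) ≤ n ∧
      ∀ q ∈ nfA n, ∃ t, q = A t := by
  unfold nfA
  split_ifs with h1 h2
  · simp
  · simp [Pt.ok, Pt.w, Pt.f, Pt.sz, h2]
  · simp [Pt.ok, Pt.w, Pt.f, Pt.sz]
    omega

theorem nfX_props {n : ℕ} (h : gX n) :
    okP (nfX n) ∧ wP (nfX n) = -1 ∧ sP (nfX n) ≤ n ∧ (∀ t, O t ∉ nfX n) ∧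
      ((n = 9 ∧ fP (nfX n) = 0) ∨ (n ≠ 9 ∧ fP (nfX n) = -1 ∧ nfX n = {X n})) := by
  unfold nfX
  split_ifs with h1
  · simp [Pt.ok, Pt.w, Pt.f, Pt.sz, h1, gA]
  · simp [Pt.ok, Pt.w, Pt.f, Pt.sz, h, h1]

theorem nfoO_props {n : ℕ} (h : gO n) :
    okP (nfoO n) ∧ wP (nfoO n) = 0 ∧ sP (nfoO n) ≤ n ∧ (∀ t, O t ∉ nfoO n) ∧
      ((n = 2 ∧ fP (nfoO n) = 0 ∧ nfoO n = 0) ∨ (fP (nfoO n) = 1 ∧ nfoO n = {oO n})) := by
  unfold nfoO
  split_ifs with h1
  · simp [h1]
  · simp [Pt.ok, Pt.w, Pt.f, Pt.sz, h, h1]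

theorem nfoOo_props {n : ℕ} (h : n % 10 = 5) :
    okP (nfoOo n) ∧ wP (nfoOo n) = -1 ∧ sP (nfoOo n) ≤ n ∧ (∀ t, O t ∉ nfoOo n) ∧
      ((n = 5 ∧ fP (nfoOo n) = 0 ∧ nfoOo n = {oA 3}) ∨
        (fP (nfoOo n) = 1 ∧ nfoOo n = {oOo n})) := by
  unfold nfoOo
  split_ifs with h1
  · simp [Pt.ok, Pt.w, Pt.f, Pt.sz, h1, gA]
  · simp [Pt.ok, Pt.w, Pt.f, Pt.sz, h, h1]

theorem nfA_noO {n : ℕ} (h : n % 2 = 0) (t : ℕ) : O t ∉ nfA n := by
  intro h1
  obtain ⟨t', h2⟩ := (nfA_props h).2.2.2.2 _ h1
  cases h2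

theorem crit_props {p : Pt} {N : MP} (h : Crit p N) :
    okP N ∧ wP N = p.w - 1 ∧ sP N < p.sz ∧ p.f - 1 ≤ fP N ∧ ∀ t, O t ∉ N := by
  cases h with
  | a1 a b ha hb =>
    have h1 := nfA_props ha
    have h2 := nfA_noO ha
    have h3 := h1.2.2.2.1
    simp [Pt.ok, Pt.w, Pt.f, Pt.sz, h1, h2, hb]
  | a2 a b ha hb =>
    have h1 := nfoO_props ha
    have h2 := nfX_props hb
    simp [Pt.w, Pt.f, Pt.sz, h1, h2]
    omega
  | o1 a b ha hb =>
    have h1 := nfoO_props ha
    have h2 := nfA_props hb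
    have h3 := nfA_noO hb
    simp [Pt.w, Pt.f, Pt.sz, h1, h2, h3]
    omega
  | x1 a b ha hb =>
    have h2 := nfX_props hb
    simp [Pt.ok, Pt.w, Pt.f, Pt.sz, h2, ha]
    omega
  | p1 a b ha hb =>
    have h1 := nfoOo_props ha
    have h2 := nfA_props hb
    have h3 := nfA_noO hb
    simp [Pt.w, Pt.f, Pt.sz, h1, h2, h3]
    omega
  | p2 a b ha hb =>
    have h2 := nfoO_props hb
    simp [Pt.ok, Pt.w, Pt.f, Pt.sz, h2, ha]
    omega
  | q1 a b ha hb =>
    have h1 := nfoOo_props ha
    have h2 := nfX_props hb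
    simp [Pt.w, Pt.f, Pt.sz, h1, h2]
    omega
  | q2 a b ha hb =>
    simp [Pt.ok, Pt.w, Pt.f, Pt.sz, ha, hb]
  | r1 a b ha hb =>
    have h1 := nfoOo_props ha
    simp [Pt.ok, Pt.w, Pt.f, Pt.sz, h1, hb]
    omega
  | u => simp [Pt.ok, Pt.w, Pt.f, Pt.sz]

/-- The critical moves that remove a short end. -/
inductive Peel : Pt → MP → Prop
  | o (n : ℕ) : Peel (O n) (nfA (n - 3))
  | a (n : ℕ) : 8 ≤ n → Peel (A n) {X (n - 3)}
  | p (n : ℕ) : Peel (oO n) (oA 3 ::ₘ nfA (n - 6))
  | q (n : ℕ) : 11 ≤ n → Peel (oA n) (oA 3 ::ₘ {X (n - 6)})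

theorem peel_cast {p : Pt} {N N' : MP} (h : Peel p N) (e : N = N') : Peel p N' := e ▸ h

theorem crit_drop {p : Pt} {N : MP} (hp : p.ok) (h : Crit p N) (hf : fP N < p.f) :
    (p.Dbl ∧ ∃ q ∈ N, q.Dbl) ∨ Peel p N := by
  cases h with
  | a1 a b ha hb =>
    have h1 := nfA_props ha
    simp [Pt.f, h1] at hf
  | a2 a b ha hb =>
    right
    have hb' := hb.2
    rcases (nfoO_props ha).2.2.2.2 with ⟨rfl, h1, h2⟩ | ⟨h1, h2⟩ <;>
      rcases (nfX_props hb).2.2.2.2 with ⟨h3, h4⟩ | ⟨h3, h4, h5⟩ <;>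
      simp only [fP_add, Pt.f] at hf <;> try omega
    refine peel_cast (Peel.a _ (by omega)) ?_
    rw [h2, h5, zero_add, show 2 + b + 1 - 3 = b by omega]
  | o1 a b ha hb =>
    right
    have h3 := nfA_props hb
    rcases (nfoO_props ha).2.2.2.2 with ⟨rfl, h1, h2⟩ | ⟨h1, h2⟩ <;>
      simp only [fP_add, Pt.f] at hf <;> try omega
    refine peel_cast (Peel.o _) ?_
    rw [h2, zero_add, show 2 + b + 1 - 3 = b by omega]
  | x1 a b ha hb =>
    have h2 := nfX_props hb
    simp [Pt.f] at hf
    omega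
  | p1 a b ha hb =>
    right
    have h3 := nfA_props hb
    rcases (nfoOo_props ha).2.2.2.2 with ⟨rfl, h1, h2⟩ | ⟨h1, h2⟩ <;>
      simp only [fP_add, Pt.f] at hf <;> try omega
    refine peel_cast (Peel.p _) ?_
    rw [h2, singleton_add, show 5 + b + 1 - 6 = b by omega]
  | p2 a b ha hb =>
    rcases (nfoO_props hb).2.2.2.2 with ⟨rfl, h1, h2⟩ | ⟨h1, h2⟩
    · by_cases h3 : a = 3
      · subst h3
        right
        refine peel_cast (Peel.p _) ?_
        rw [h2]
        rfl
      · exact Or.inl ⟨trivial, oA a, by simp, h3⟩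
    · simp [Pt.f, h1] at hf
  | q1 a b ha hb =>
    right
    have hb' := hb.2
    rcases (nfoOo_props ha).2.2.2.2 with ⟨rfl, h1, h2⟩ | ⟨h1, h2⟩ <;>
      rcases (nfX_props hb).2.2.2.2 with ⟨h3, h4⟩ | ⟨h3, h4, h5⟩ <;>
      simp only [fP_add, Pt.f] at hf <;> try omega
    refine peel_cast (Peel.q _ (by omega)) ?_
    rw [h2, h5, singleton_add, show 5 + b + 1 - 6 = b by omega]
  | q2 a b ha hb => simp [Pt.f] at hf
  | r1 a b ha hb =>
    refine Or.inl ⟨trivial, oA b, by simp, ?_⟩
    rcases (nfoOo_props ha).2.2.2.2 with ⟨rfl, h1, h2⟩ | ⟨h1, h2⟩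
    · simp only [Pt.ok] at hp
      simp only [Pt.Dbl]
      omega
    · simp [Pt.f, h1] at hf
  | u => simp [Pt.f] at hf

theorem crit_same {p : Pt} {N : MP} (hp : p.ok) (h : Crit p N) (hf : fP N = p.f) :
    p.Dbl ∨ (∃ q ∈ N, q.Dbl) ∨ (p = Pt.U ∧ N = {A 2}) ∨
      (∃ n, p = A (n + 4) ∧ N = nfA n + {oA 3}) ∨ (∃ n, p = X (n + 4) ∧ N = {oA 3} + {X n}) := by
  cases h with
  | a1 a b ha hb =>
    by_cases h3 : b = 3
    · subst h3
      exact Or.inr (Or.inr (Or.inr (Or.inl ⟨a, rfl, rfl⟩)))
    · exact Or.inr (Or.inl ⟨oA b, by simp, h3⟩)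
  | a2 a b ha hb =>
    simp only [Pt.ok] at hp
    rcases (nfoO_props ha).2.2.2.2 with ⟨rfl, h1, h2⟩ | ⟨h1, h2⟩
    · rcases (nfX_props hb).2.2.2.2 with ⟨h3, h4⟩ | ⟨h3, h4, h5⟩ <;>
        simp only [fP_add, Pt.f] at hf <;> omega
    · exact Or.inr (Or.inl ⟨oO a, by simp [h2], trivial⟩)
  | o1 a b ha hb =>
    have h3 := nfA_props hb
    rcases (nfoO_props ha).2.2.2.2 with ⟨rfl, h1, h2⟩ | ⟨h1, h2⟩
    · simp only [fP_add, Pt.f] at hf
      omega
    · exact Or.inr (Or.inl ⟨oO a, by simp [h2], trivial⟩)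
  | x1 a b ha hb =>
    by_cases h3 : a = 3
    · subst h3
      rcases (nfX_props hb).2.2.2.2 with ⟨h3, h4⟩ | ⟨h3, h4, h5⟩
      · simp [Pt.f, h4] at hf
      · exact Or.inr (Or.inr (Or.inr (Or.inr ⟨b, congrArg _ (by omega), by rw [h5]⟩)))
    · exact Or.inr (Or.inl ⟨oA a, by simp, h3⟩)
  | p1 a b ha hb => exact Or.inl trivial
  | p2 a b ha hb => exact Or.inl trivial
  | q1 a b ha hb =>
    left
    simp only [Pt.Dbl]
    omega
  | q2 a b ha hb =>
    left
    unfold gA at ha hb
    simp only [Pt.Dbl]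
    omega
  | r1 a b ha hb => exact Or.inl trivial
  | u => exact Or.inr (Or.inr (Or.inl ⟨rfl, rfl⟩))

/-- Equal after cancelling pairs of opposite parts. -/
structure Eqv (M F : MP) : Prop where
  a : ∀ n, (count (A n) M + count (A n) F) % 2 = 0
  o : ∀ n, count (O n) M + count (X n) F = count (X n) M + count (O n) F
  k : count Pt.U M + count (oA 3) F = count (oA 3) M + count Pt.U F
  d : ∀ q : Pt, q.Dbl → count q M = count q F

theorem Z_val : ∀ (k : ℕ) (M : MP), card M < k → okP M → Eqv M 0 →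
    val M = 0 ∧ fP M = 0 := by
  intro k
  induction k with
  | zero => intro M h; omega
  | succ k ih =>
    intro M hk hM hZ
    rcases empty_or_exists_mem M with rfl | ⟨p, hp⟩
    · simp
    obtain ⟨R, rfl⟩ := exists_cons_of_mem hp
    have key : ∀ q : Pt, 0 < count q R → V p.sh + V q.sh = 0 → p.f + q.f = 0 →
        (∀ T, Eqv (p ::ₘ q ::ₘ T) 0 → Eqv T 0) → val (p ::ₘ R) = 0 ∧ fP (p ::ₘ R) = 0 := by
      intro q h1 h2 h3 h4
      obtain ⟨T, rfl⟩ := exists_cons_of_mem (count_pos.1 h1)
      simp only [okP_cons, card_cons] at hM hk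
      obtain ⟨h5, h6⟩ := ih T (by omega) hM.2.2 (h4 T hZ)
      rw [val_cons, val_cons, fP_cons, fP_cons, h5, h6, add_zero, add_zero]
      exact ⟨h2, h3⟩
    have tac : ∀ q : Pt, (∀ n, (count (A n) {p} + count (A n) {q}) % 2 = 0) →
        (∀ n, count (O n) {p} + count (O n) {q} = count (X n) {p} + count (X n) {q}) →
        (count Pt.U {p} + count Pt.U {q} = count (oA 3) {p} + count (oA 3) {q}) →
        ∀ T, Eqv (p ::ₘ q ::ₘ T) 0 → Eqv T 0 := by
      intro q h1 h2 h3 T h
      rw [← singleton_add, ← singleton_add] at h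
      refine ⟨fun n => ?_, fun n => ?_, ?_, fun r hr => ?_⟩
      · have := h.a n
        have := h1 n
        simp only [count_add, count_zero] at *
        omega
      · have := h.o n
        have := h2 n
        simp only [count_add, count_zero] at *
        omega
      · have := h.k
        simp only [count_add, count_zero] at *
        omega
      · have := h.d r hr
        simp only [count_add, count_zero] at *
        omega
    rw [okP_cons] at hM
    cases p with
    | A n =>
      have := hZ.a n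
      simp only [count_cons_self, count_zero] at this
      exact key (A n) (by omega) (V_A_self hM.1.1) rfl
        (tac _ (fun t => by omega) (fun t => by simp) (by simp))
    | O n =>
      have := hZ.o n
      simp only [count_cons_self, count_zero, ne_eq, reduceCtorEq, not_false_eq_true,
        count_cons_of_ne] at this
      exact key (X n) (by omega) (by simp [Pt.sh, V_X]) rfl
        (tac _ (fun t => by simp) (fun t => by simp [count_singleton]) (by simp))
    | X n =>
      have := hZ.o n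
      simp only [count_cons_self, count_zero, ne_eq, reduceCtorEq, not_false_eq_true,
        count_cons_of_ne] at this
      exact key (O n) (by omega) (by simp [Pt.sh, V_X]) rfl
        (tac _ (fun t => by simp) (fun t => by simp [count_singleton]) (by simp))
    | oO n => simpa using hZ.d (oO n) trivial
    | oOo n => simpa using hZ.d (oOo n) trivial
    | oA n =>
      by_cases h3 : n = 3
      · subst h3
        have := hZ.k
        simp only [count_cons_self, count_zero, ne_eq, reduceCtorEq, not_false_eq_true,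
          count_cons_of_ne] at this
        exact key Pt.U (by omega) (by simp [Pt.sh, V_U, D]) rfl
          (tac _ (fun t => by simp) (fun t => by simp) (by simp))
      · simpa using hZ.d (oA n) h3
    | U =>
      have := hZ.k
      simp only [count_cons_self, count_zero, ne_eq, reduceCtorEq, not_false_eq_true,
        count_cons_of_ne] at this
      exact key (oA 3) (by omega) (by simp [Pt.sh, V_U, D]) rfl
        (tac _ (fun t => by simp) (fun t => by simp) (by simp))

theorem Z_val' {M : MP} (hM : okP M) (h : Eqv M 0) : val M = 0 ∧ fP M = 0 :=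
  Z_val _ M (Nat.lt_succ_self _) hM h

theorem Eqv_val (F : MP) : ∀ M : MP, okP M → okP F → Eqv M F → val M = val F := by
  induction F using Multiset.induction_on with
  | empty => intro M hM _ h; simpa using (Z_val' hM h).1
  | cons p F ih =>
    intro M hM hF h
    rw [okP_cons] at hF
    have dbl : p.Dbl → val M = val (p ::ₘ F) := by
      intro hd
      have h1 := h.d p hd
      rw [count_cons_self] at h1
      obtain ⟨T, rfl⟩ := exists_cons_of_mem (count_pos.1 (by omega : 0 < count p M))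
      rw [okP_cons] at hM
      rw [val_cons, val_cons, ih T hM.2 hF.2]
      rw [← singleton_add, ← singleton_add] at h
      refine ⟨fun n => ?_, fun n => ?_, ?_, fun r hr => ?_⟩
      · have := h.a n
        simp only [count_add] at *
        omega
      · have := h.o n
        simp only [count_add] at *
        omega
      · have := h.k
        simp only [count_add] at *
        omega
      · have := h.d r hr
        simp only [count_add] at *
        omega
    have key : ∀ q : Pt, q.ok → V p.sh + V q.sh = 0 → ¬ p.Dbl → ¬ q.Dbl →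
        (∀ n, (count (A n) {p} + count (A n) {q}) % 2 = 0) →
        (∀ n, count (O n) {p} + count (O n) {q} = count (X n) {p} + count (X n) {q}) →
        (count Pt.U {p} + count Pt.U {q} = count (oA 3) {p} + count (oA 3) {q}) →
        val M = val (p ::ₘ F) := by
      intro q h0 h1 hp hq h2 h3 h4
      have h5 : val (q ::ₘ M) = val F := by
        apply ih _ (by simp [h0, hM]) hF.2
        rw [← singleton_add] at h ⊢
        refine ⟨fun n => ?_, fun n => ?_, ?_, fun r hr => ?_⟩
        · have := h.a n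
          have := h2 n
          simp only [count_add] at *
          omega
        · have := h.o n
          have := h3 n
          simp only [count_add] at *
          omega
        · have := h.k
          simp only [count_add] at *
          omega
        · have := h.d r hr
          have e1 : count r {p} = 0 := by
            rw [count_eq_zero, mem_singleton]
            rintro rfl
            exact hp hr
          have e2 : count r {q} = 0 := by
            rw [count_eq_zero, mem_singleton]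
            rintro rfl
            exact hq hr
          simp only [count_add] at *
          omega
      rw [val_cons, ← h5, val_cons, ← add_assoc, h1, zero_add]
    cases p with
    | A n =>
      exact key (A n) hF.1 (V_A_self hF.1.1) id id (fun t => by omega) (fun t => by simp) (by simp)
    | O n =>
      exact key (X n) hF.1 (by simp [Pt.sh, V_X]) id id (fun t => by simp)
        (fun t => by simp [count_singleton]) (by simp)
    | X n =>
      exact key (O n) hF.1 (by simp [Pt.sh, V_X]) id id (fun t => by simp)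
        (fun t => by simp [count_singleton]) (by simp)
    | oO n => exact dbl trivial
    | oOo n => exact dbl trivial
    | oA n =>
      by_cases h3 : n = 3
      · subst h3
        exact key Pt.U trivial (by simp [Pt.sh, V_U, D]) (fun h => h rfl) id (fun t => by simp)
          (fun t => by simp) (by simp)
      · exact dbl h3
    | U =>
      exact key (oA 3) (Or.inl rfl) (by simp [Pt.sh, V_U, D]) id (fun h => h rfl)
        (fun t => by simp) (fun t => by simp) (by simp)

/-- Right has a critical move to a sum that cancels completely. -/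
def E (M : MP) : Prop := ∃ p R N, M = p ::ₘ R ∧ Crit p N ∧ Eqv (R + N) 0

theorem cnt_nfA (q : Pt) (j : ℕ) (h : ∀ t, q ≠ A t) : count q (nfA j) = 0 := by
  unfold nfA
  split_ifs <;> simp [h]

@[simp] theorem cO_nfA (n j : ℕ) : count (O n) (nfA j) = 0 := cnt_nfA _ _ (by simp)
@[simp] theorem cX_nfA (n j : ℕ) : count (X n) (nfA j) = 0 := cnt_nfA _ _ (by simp)
@[simp] theorem cU_nfA (j : ℕ) : count Pt.U (nfA j) = 0 := cnt_nfA _ _ (by simp)
@[simp] theorem coA_nfA (n j : ℕ) : count (oA n) (nfA j) = 0 := cnt_nfA _ _ (by simp)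
@[simp] theorem coO_nfA (n j : ℕ) : count (oO n) (nfA j) = 0 := cnt_nfA _ _ (by simp)

theorem cD_nfA {q : Pt} (h : q.Dbl) (j : ℕ) : count q (nfA j) = 0 :=
  cnt_nfA _ _ (by rintro t rfl; exact h)

theorem cA_nfA (t j : ℕ) (ht : 8 ≤ t) :
    (t = j ∧ j ≠ 12 ∧ count (A t) (nfA j) = 1) ∨ ((t ≠ j ∨ j = 12) ∧ count (A t) (nfA j) = 0) := by
  unfold nfA
  split_ifs with h1 h2
  · simp
    omega
  · have : t ≠ 2 := by omega
    have : t ≠ 4 := by omega
    simp [*]
  · by_cases h3 : t = j <;> simp [*]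

theorem Dbl_ne {q : Pt} (h : q.Dbl) :
    (∀ n, q ≠ A n) ∧ (∀ n, q ≠ O n) ∧ (∀ n, q ≠ X n) ∧ q ≠ oA 3 ∧ q ≠ Pt.U := by
  cases q <;> simp_all [Pt.Dbl]

theorem E_pat {M : MP} (hM : okP M) (hf : fP M = 1) (h : E M) :
    (∃ m j, gX m ∧ j % 2 = 0 ∧ (j + 3 = m ∨ j = m + 3) ∧ Eqv M (O m ::ₘ nfA j)) ∨
    (∃ m, gO (m + 6) ∧ Eqv M (oO (m + 6) ::ₘ Pt.U ::ₘ nfA m)) ∨
    (∃ m, 5 ≤ m ∧ Eqv M (oA (m + 6) ::ₘ Pt.U ::ₘ {O m})) := by
  obtain ⟨p, R, N, rfl, hc, hZ⟩ := h
  rw [okP_cons] at hM
  have h1 := (Z_val' (by simp [hM.2, (crit_props hc).1]) hZ).2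
  simp only [fP_add, fP_cons] at h1 hf
  rcases crit_drop hM.1 hc (by omega) with ⟨-, q, hq, hd⟩ | hp
  · have := hZ.d q hd
    have := count_pos.2 hq
    simp only [count_add, count_zero] at *
    omega
  cases hp with
  | o n =>
    have h2 := hM.1.1
    refine Or.inl ⟨n, n - 3, h2, by unfold gX at h2; omega, Or.inl (by unfold gX at h2; omega),
      fun t => ?_, fun t => ?_, ?_, fun r hr => ?_⟩
    · simpa using hZ.a t
    · have := hZ.o t
      simp [count_cons] at this ⊢
      omega
    · simpa using hZ.k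
    · have := hZ.d r hr
      have h3 := Dbl_ne hr
      simp only [count_add, count_zero] at this
      simp [h3]
      omega
  | a n h8 =>
    have h2 := hM.1
    simp only [Pt.ok] at h2
    have e : nfA n = {A n} := by
      unfold nfA
      rw [if_neg (by omega), if_neg (by omega)]
    refine Or.inl ⟨n - 3, n, by unfold gX; omega, h2.1, Or.inr (by omega),
      fun t => ?_, fun t => ?_, ?_, fun r hr => ?_⟩
    · have := hZ.a t
      simp [count_cons, count_singleton, e] at this ⊢
      split_ifs <;> omega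
    · have := hZ.o t
      simp [count_cons, count_singleton] at this ⊢
      omega
    · simpa using hZ.k
    · have := hZ.d r hr
      have h3 := Dbl_ne hr
      simp [h3, cD_nfA hr] at this ⊢
      exact this
  | p n =>
    have h2 := hM.1
    simp only [Pt.ok, gO] at h2
    obtain ⟨m, rfl⟩ : ∃ m, n = m + 6 := ⟨n - 6, by omega⟩
    rw [Nat.add_sub_cancel] at hZ
    refine Or.inr (Or.inl ⟨m, hM.1.1, fun t => ?_, fun t => ?_, ?_, fun r hr => ?_⟩)
    · simpa using hZ.a t
    · simpa using hZ.o t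
    · simpa using hZ.k
    · have := hZ.d r hr
      have h3 := Dbl_ne hr
      simp [h3, cD_nfA hr, count_cons] at this ⊢
      exact this
  | q n h8 =>
    obtain ⟨m, rfl⟩ : ∃ m, n = m + 6 := ⟨n - 6, by omega⟩
    rw [Nat.add_sub_cancel] at hZ
    refine Or.inr (Or.inr ⟨m, by omega, fun t => ?_, fun t => ?_, ?_, fun r hr => ?_⟩)
    · simpa using hZ.a t
    · have := hZ.o t
      simp [count_singleton] at this ⊢
      omega
    · have := hZ.k
      simp at this ⊢
      omega
    · have := hZ.d r hr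
      have h3 := Dbl_ne hr
      simp [h3, count_cons] at this ⊢
      exact this

end Pool.Agent.P.MP_6e435d_co.G
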