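import Pool.Agent.P.MP_6e435d_co.Fam2

set_option autoImplicit false
set_option linter.dupNamespace false

namespace Pool.Agent.P.MP_6e435d_co.G

open Pt Multiset

def no57 (M : MP) : Prop := O 5 ∉ M ∧ O 7 ∉ M

structure Cl (M : MP) : Prop where
  c1 : wP M = 0 → 1 ≤ fP M → GA (val M)
  c2 : wP M = 1 → 2 ≤ fP M → GB (val M)
  c5 : wP M = 0 → fP M = 0 → no57 M → ¬ Eqv M 0 → GA (val M)
  c6 : wP M = 1 → fP M = 1 → no57 M → ¬ E M → GB (val M)

def IH (N : ℕ) : Prop := ∀ M, sP M < N → okP M → Cl M

theorem step2 {N : ℕ} (ih : IH N) {M : MP} (hs : sP M ≤ N) (hM : okP M) (hw : wP M = 1)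
    (hf : 2 ≤ fP M) : GB (val M) := by
  apply GB_rule hM hw
  rintro p R T rfl hc
  obtain ⟨h1, h2, h3, h4, -⟩ := crit_props hc
  simp only [okP_cons, wP_cons, fP_cons, sP_cons] at hs hM hw hf
  exact (ih (R + T) (by simp; omega) (by simp [hM.2, h1])).c1 (by simp; omega) (by simp; omega)

theorem GB0 {N : ℕ} (ih : IH N) {M : MP} (hs : sP M ≤ N) (hM : okP M) (hw : wP M = 1)
    (hf : 0 ≤ fP M) (h57 : no57 M) (hE : ¬ E M)
    (hd : fP M = 0 → ∀ p R T, M = p ::ₘ R → Crit p T → fP T < p.f → GA (val (R + T))) :
    GB (val M) := by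
  apply GB_rule hM hw
  rintro p R T rfl hc
  obtain ⟨h1, h2, h3, h4, h5⟩ := crit_props hc
  by_cases h6 : fP (p ::ₘ R) = 0 ∧ fP T < p.f
  · exact hd h6.1 p R T rfl hc h6.2
  simp only [okP_cons, wP_cons, fP_cons, sP_cons, no57, mem_cons, not_or] at hs hM hw hf h57 h6
  have h7 := ih (R + T) (by simp; omega) (by simp [hM.2, h1])
  by_cases h8 : 1 ≤ fP (R + T)
  · exact h7.c1 (by simp; omega) h8
  · refine h7.c5 (by simp; omega) (by simp at h8 ⊢; omega) ?_ (fun h => hE ⟨p, R, T, rfl, hc, h⟩)
    simp [no57, h5, h57]

theorem step6 {N : ℕ} (ih : IH N) {M : MP} (hs : sP M ≤ N) (hM : okP M) (hw : wP M = 1)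
    (hf : fP M = 1) (h57 : no57 M) (hE : ¬ E M) : GB (val M) :=
  GB0 ih hs hM hw (by omega) h57 hE (fun h => by omega)

/-- Only short parts. -/
def Sm (R : MP) : Prop :=
  ∀ q ∈ R, q = A 2 ∨ q = A 4 ∨ q = A 8 ∨ q = A 10 ∨ q = Pt.U ∨ q = oA 3

theorem tog {n a c : ℕ} (hn : n % 2 = 0) (h0 : n ≠ 0) (ha : a ∈ [0, n]) (h : a = 0 ↔ c % 2 = 0) :
    ∃ a' ∈ [0, n], V (sO n) + V (sO a) = V (sO a') ∧ (a' = 0 ↔ (c + 1) % 2 = 0) := by
  have e : V (sO 0) = 0 := V_dead (by decide)
  simp only [List.mem_cons, List.not_mem_nil, or_false] at ha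
  rcases ha with rfl | rfl
  · exact ⟨n, by simp, by rw [e, add_zero], by omega⟩
  · exact ⟨0, by simp, by rw [e, V_A_self hn], by omega⟩

theorem Sm_val (R : MP) (h : Sm R) : ∃ a ∈ [0, 2], ∃ b ∈ [0, 4], ∃ c ∈ [0, 8], ∃ d ∈ [0, 10],
    val R = wP R • V G.U + (V (sO a) + V (sO b) + V (sO c) + V (sO d)) ∧
    (a = 0 ↔ count (A 2) R % 2 = 0) ∧ (b = 0 ↔ count (A 4) R % 2 = 0) ∧
    (c = 0 ↔ count (A 8) R % 2 = 0) ∧ (d = 0 ↔ count (A 10) R % 2 = 0) ∧
    wP R = count Pt.U R - count (oA 3) R := by
  induction R using Multiset.induction_on with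
  | empty =>
    have e : V (sO 0) = 0 := V_dead (by decide)
    exact ⟨0, by simp, 0, by simp, 0, by simp, 0, by simp, by simp [e], by simp⟩
  | cons q R ih =>
    obtain ⟨a, ha, b, hb, c, hc, d, hd, h1, h2, h3, h4, h5, h6⟩ :=
      ih (fun t ht => h t (mem_cons_of_mem ht))
    rcases h q (mem_cons_self _ _) with rfl | rfl | rfl | rfl | rfl | rfl
    · obtain ⟨a', ha', e1, e2⟩ := tog (by norm_num) (by norm_num) ha h2
      refine ⟨a', ha', b, hb, c, hc, d, hd, ?_, by simpa using e2, by simpa using h3,
        by simpa using h4, by simpa using h5, by simpa [Pt.w] using h6⟩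
      simp only [val_cons, wP_cons, Pt.w, Pt.sh, h1, ← e1, zero_add]
      abel
    · obtain ⟨a', ha', e1, e2⟩ := tog (by norm_num) (by norm_num) hb h3
      refine ⟨a, ha, a', ha', c, hc, d, hd, ?_, by simpa using h2, by simpa using e2,
        by simpa using h4, by simpa using h5, by simpa [Pt.w] using h6⟩
      simp only [val_cons, wP_cons, Pt.w, Pt.sh, h1, ← e1, zero_add]
      abel
    · obtain ⟨a', ha', e1, e2⟩ := tog (by norm_num) (by norm_num) hc h4
      refine ⟨a, ha, b, hb, a', ha', d, hd, ?_, by simpa using h2, by simpa using h3,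
        by simpa using e2, by simpa using h5, by simpa [Pt.w] using h6⟩
      simp only [val_cons, wP_cons, Pt.w, Pt.sh, h1, ← e1, zero_add]
      abel
    · obtain ⟨a', ha', e1, e2⟩ := tog (by norm_num) (by norm_num) hd h5
      refine ⟨a, ha, b, hb, c, hc, a', ha', ?_, by simpa using h2, by simpa using h3,
        by simpa using h4, by simpa using e2, by simpa [Pt.w] using h6⟩
      simp only [val_cons, wP_cons, Pt.w, Pt.sh, h1, ← e1, zero_add]
      abel
    · refine ⟨a, ha, b, hb, c, hc, d, hd, ?_, by simpa using h2, by simpa using h3,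
        by simpa using h4, by simpa using h5, by simp [Pt.w]; omega⟩
      simp only [val_cons, wP_cons, Pt.w, Pt.sh, h1, add_smul, one_smul]
      abel
    · refine ⟨a, ha, b, hb, c, hc, d, hd, ?_, by simpa using h2, by simpa using h3,
        by simpa using h4, by simpa using h5, by simp [Pt.w]; omega⟩
      have e : V (s1 false (3 - 1)) = - V G.U := by rw [V_U, neg_neg]; rfl
      simp only [val_cons, wP_cons, Pt.w, Pt.sh, h1, add_smul, neg_smul, one_smul, e]
      abel

theorem Sm.cnt {R : MP} (h : Sm R) {q : Pt}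
    (hq : ¬ (q = A 2 ∨ q = A 4 ∨ q = A 8 ∨ q = A 10 ∨ q = Pt.U ∨ q = oA 3)) : count q R = 0 :=
  count_eq_zero.2 fun h1 => hq (h q h1)

theorem Sm.cA {R : MP} (h : Sm R) {t : ℕ} (ht : t ≠ 2 ∧ t ≠ 4 ∧ t ≠ 8 ∧ t ≠ 10) :
    count (A t) R = 0 := h.cnt (by simp [ht])

theorem Sm.cO {R : MP} (h : Sm R) (t : ℕ) : count (O t) R = 0 := h.cnt (by simp)

theorem Sm.cX {R : MP} (h : Sm R) (t : ℕ) : count (X t) R = 0 := h.cnt (by simp)

theorem Sm.cD {R : MP} (h : Sm R) {q : Pt} (hq : q.Dbl) : count q R = 0 := by
  have := Dbl_ne hq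
  exact h.cnt (by simp [this])

theorem Sm.ok {R : MP} (h : Sm R) : okP R := by
  intro q hq
  rcases h q hq with rfl | rfl | rfl | rfl | rfl | rfl <;> simp [Pt.ok, gA]

theorem Sm.f {R : MP} (h : Sm R) : fP R = 0 := by
  induction R using Multiset.induction_on with
  | empty => simp
  | cons q R ih =>
    rw [fP_cons, ih (fun t ht => h t (mem_cons_of_mem ht))]
    rcases h q (mem_cons_self _ _) with rfl | rfl | rfl | rfl | rfl | rfl <;> rfl

theorem Sm.no57 {R : MP} (h : Sm R) : no57 R :=
  ⟨count_eq_zero.1 (h.cO 5), count_eq_zero.1 (h.cO 7)⟩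

theorem TC {N : ℕ} (ih : IH N) : ∀ (K : ℕ) (R : MP) (n : ℕ), Sm R → wP R = 1 → n + sP R < K →
    n + sP R ≤ N → (n % 2 = 1 → 21 ≤ n → GA (val (X n ::ₘ R))) ∧
      (n % 2 = 0 → 24 ≤ n → GB (val (A n ::ₘ R))) := by
  intro K
  induction K with
  | zero => intro R n _ _ h; omega
  | succ K ih2 =>
    intro R n hR hw hK hN
    constructor
    · intro h1 h2
      by_cases h3 : n ≤ 25
      · obtain ⟨a, ha, b, hb, c, hc, d, hd, e, -⟩ := Sm_val R hR
        have := facts3 _ (f10 a ha b hb c hc d hd n (by simp; omega))
        rw [val_cons, e, hw]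
        convert this using 1
        simp only [valL, Pt.sh, List.map_cons, List.map_nil, List.sum_cons, List.sum_nil, one_smul]
        abel
      · have h4 := (ih2 R (n - 3) hR hw (by omega) (by omega)).2 (by omega) (by omega)
        rw [val_cons] at h4 ⊢
        exact rX ⟨h1, by omega⟩ h4
    · intro h1 h2
      have hok : okP (A n ::ₘ R) := by
        simp only [okP_cons, Pt.ok, hR.ok, and_true]
        omega
      have hnD : ∀ p T, A n ::ₘ R = p ::ₘ T → ¬ p.Dbl := by
        intro p T h hd
        have := congrArg (count p) h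
        have h3 := Dbl_ne hd
        simp [hR.cD hd, h3] at this
      have h57 := hR.no57
      refine GB0 ih (by simpa [Pt.sz] using hN) hok (by simp [Pt.w, hw]) (by simp [Pt.f, hR.f])
        (by simpa [no57] using h57) ?_ ?_
      · rintro ⟨p, T, T', h, hc, hZ⟩
        have hok' := hok
        rw [h, okP_cons] at hok'
        have h3 := (Z_val' (by simp [hok'.2, (crit_props hc).1]) hZ).2
        have h4 := congrArg fP h
        simp only [fP_add, fP_cons, hR.f] at h3 h4
        have h5 : (A n).f = 0 := rfl
        have c1 := congrArg (count (A n)) h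
        have c2 := hZ.a n
        have c3 := hR.cA (t := n) (by omega)
        rcases crit_same hok'.1 hc (by omega) with hd | ⟨q, hq, hd⟩ | ⟨rfl, rfl⟩ |
          ⟨t, rfl, rfl⟩ | ⟨t, rfl, rfl⟩
        · exact hnD p T h hd
        · have := hZ.d q hd
          have := count_pos.2 hq
          simp only [count_add, count_zero] at *
          omega
        · have : n ≠ 2 := by omega
          simp [this] at c1 c2
          omega
        · by_cases h6 : n = t + 4
          · subst h6
            rw [cons_inj_right] at h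
            subst h
            have c4 := hZ.a t
            have c5 := hR.cA (t := t) (by omega)
            have c6 := cA_nfA t t (by omega)
            simp at c4
            omega
          · have c4 := congrArg (count (A (t + 4))) h
            have c6 := cA_nfA n t (by omega)
            have c7 : count (A (t + 4)) R ≠ 0 := by
              simp [Ne.symm h6] at c4
              omega
            have c8 : ¬ 12 ≤ t + 4 := fun h7 => c7 (hR.cA (by omega))
            simp [h6] at c1 c2
            omega
        · have := congrArg (count (X (t + 4))) h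
          simp [hR.cX] at this
      · intro _ p T T' h hc hf
        have hok' := hok
        rw [h, okP_cons] at hok'
        rcases crit_drop hok'.1 hc hf with ⟨hd, -⟩ | hp
        · exact absurd hd (hnD p T h)
        cases hp with
        | o t =>
          have := congrArg (count (O t)) h
          simp [hR.cO] at this
        | p t => exact absurd trivial (hnD _ T h)
        | q t h8 => exact absurd (by simp only [Pt.Dbl]; omega) (hnD _ T h)
        | a t h8 =>
          rw [add_comm, singleton_add]
          rcases cons_eq_cons.1 h with ⟨h3, rfl⟩ | ⟨-, R1, rfl, rfl⟩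
          · obtain rfl : n = t := by simpa using h3
            exact (ih2 R (n - 3) hR hw (by omega) (by omega)).1 (by omega) (by omega)
          · have h4 : t = 8 ∨ t = 10 := by
              have := hR _ (mem_cons_self _ _)
              simp at this
              omega
            have h5 : Sm (A (t - 3 - 3) ::ₘ R1) := by
              intro q hq
              rcases mem_cons.1 hq with rfl | hq
              · rcases h4 with rfl | rfl <;> simp
              · exact hR q (mem_cons_of_mem hq)
            simp only [sP_cons, wP_cons, Pt.sz, Pt.w] at hK hN hw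
            have h6 := (ih2 _ n h5 (by simpa [Pt.w] using hw) (by simp [Pt.sz]; omega)
              (by simp [Pt.sz]; omega)).2 h1 h2
            rw [cons_swap, val_cons] at h6
            rw [val_cons]
            exact rX (n := t - 3) ⟨by omega, by omega⟩ h6

theorem Ba {N : ℕ} (ih : IH N) (n : ℕ) (hn : n % 2 = 1) : ∀ (K j : ℕ), j < K → j % 2 = 1 →
    11 ≤ j → (n = j + 2 ∨ j + 6 ≤ n) → j + n + 3 ≤ N → GB (val (O j ::ₘ X n ::ₘ {Pt.U})) := by
  intro K
  induction K with
  | zero => intro j h; omega
  | succ K ih2 =>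
    intro j hK h1 h2 h3 hN
    have hok : okP (O j ::ₘ X n ::ₘ {Pt.U}) := by
      simp only [okP_cons, okP_single, Pt.ok, gX, and_true]
      omega
    have hp : ∀ p T, O j ::ₘ X n ::ₘ {Pt.U} = p ::ₘ T → p = O j ∨ p = X n ∨ p = Pt.U := by
      intro p T h
      have : p ∈ O j ::ₘ X n ::ₘ ({Pt.U} : MP) := by rw [h]; simp
      simpa using this
    refine GB0 ih (by simp [Pt.sz]; omega) hok (by simp [Pt.w]) (by simp [Pt.f])
      (by simp [no57]; omega) ?_ ?_
    · rintro ⟨p, T, T', h, hc, hZ⟩
      have hok' := hok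
      rw [h, okP_cons] at hok'
      have h3 := (Z_val' (by simp [hok'.2, (crit_props hc).1]) hZ).2
      have h4 := congrArg fP h
      simp only [fP_add, fP_cons, fP_single] at h3 h4
      have h5 : (O j).f = 1 := rfl
      have h6 : (X n).f = -1 := rfl
      have h7 : Pt.U.f = 0 := rfl
      have c1 := congrArg (count (O j)) h
      have c2 := congrArg (count (X j)) h
      have c3 := hZ.o j
      have c4 : j ≠ n := by omega
      rcases crit_same hok'.1 hc (by omega) with hd | ⟨q, hq, hd⟩ | ⟨rfl, rfl⟩ |
        ⟨t, rfl, rfl⟩ | ⟨t, rfl, rfl⟩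
      · rcases hp p T h with rfl | rfl | rfl <;> exact hd
      · have := hZ.d q hd
        have := count_pos.2 hq
        simp only [count_add, count_zero] at *
        omega
      · simp [c4] at c1 c2 c3
        omega
      · simpa using hp _ T h
      · obtain rfl : t + 4 = n := by simpa using hp _ T h
        have c5 : j ≠ t := by omega
        simp [c4, c5] at c1 c2 c3
        omega
    · intro _ p T T' h hc hf
      have hok' := hok
      rw [h, okP_cons] at hok'
      have hp' := hp p T h
      rcases crit_drop hok'.1 hc hf with ⟨hd, -⟩ | hq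
      · rcases hp' with rfl | rfl | rfl <;> exact absurd hd id
      cases hq with
      | a t => simp at hp'
      | p t => simp at hp'
      | q t => simp at hp'
      | o t =>
        obtain rfl : t = j := by simpa using hp'
        rw [cons_inj_right] at h
        subst h
        rw [val_add, val_nfA, add_comm]
        by_cases h8 : 17 ≤ t
        · have h9 := ih2 (t - 3 - 3) (by omega) (by omega) (by omega) (by omega) (by omega)
          rw [val_cons] at h9
          exact rA (by omega) (by omega) h9
        by_cases h9 : 21 ≤ n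
        · have h10 : Sm (nfA (t - 3) + {Pt.U}) := by
            intro q hq
            rcases (by omega : t = 11 ∨ t = 13 ∨ t = 15) with rfl | rfl | rfl <;>
              simp [nfA] at hq <;> tauto
          have h11 := nfA_props (n := t - 3) (by omega)
          have h12 := (TC ih _ _ n h10 (by simp [h11, Pt.w]) (Nat.lt_succ_self _)
            (by simp [Pt.sz]; omega)).1 hn h9
          convert h12 using 1
          simp only [val_cons, val_add, val_nfA]
          abel
        · have := facts3 _ (f11 (t - 3, n) (by simp; omega))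
          convert this using 1
          simp only [valL, Pt.sh, List.map_cons, List.map_nil, List.sum_cons, List.sum_nil,
            val_cons, val_single]
          abel

end Pool.Agent.P.MP_6e435d_co.G
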