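import Pool.Agent.P.MP_6e435d_co.Main
import Pool.Agent.P.MP_6e435d_co.Defs2

set_option autoImplicit false
set_option linter.dupNamespace false
set_option linter.unusedTactic false

namespace Pool.Agent.P.MP_6e435d_co.G

open Pt Multiset

def tp (b : Bool) (s : Bool × ℕ) : MP :=
  if s.2 % 2 = 0 then nfA s.2 else if s.2 = 1 then 0 else if s.2 = 3 then {A 2}
  else if s.1 = b then {X s.2} else {O s.2}

def toP (b : Bool) (L : List (Bool × ℕ)) : MP := (L.map (tp b)).sum

theorem toP_cons (b : Bool) (s : Bool × ℕ) (L : List (Bool × ℕ)) :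
    toP b (s :: L) = tp b s + toP b L := by simp [toP]

theorem c1 (a b : ℕ) : List.count a [b] = if a = b then 1 else 0 := by
  by_cases h : a = b
  · simp [h]
  · simp [h, List.count_eq_zero]

theorem c2 (c d : Bool) (a b : ℕ) :
    List.count (c, a) [(d, b)] = if c = d ∧ a = b then 1 else 0 := by
  by_cases h : c = d ∧ a = b
  · simp [h]
  · rw [if_neg h, List.count_eq_zero]
    simpa using h

theorem cA_piece {j : ℕ} (hj : j % 2 = 0) (i : ℕ) : count (A i) (nfA j) = (piece j).count i := by
  unfold nfA piece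
  split_ifs with h1 h2 h3 h4 h5 h6 h7 h8 <;> try omega
  · simp
  · by_cases h : i = 2
    · simp [h]
    · by_cases h' : i = 4
      · simp [h']
      · rw [List.count_eq_zero.2 (by simp [h, h'])]
        simp [h, h']
  · by_cases h : i = j <;> simp [h, c1]

theorem tp_val (b : Bool) (s : Bool × ℕ) :
    val (tp b s) = if b then v (.row (alt s.1 s.2)) else - v (.row (alt s.1 s.2)) := by
  obtain ⟨c, n⟩ := s
  have e : v (.row (alt c n)) = if c then - V (sO n) else V (sO n) := by
    cases c
    · simp [V, sO, Sh.l]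
    · simp only [if_true]
      rw [← V_X]
      simp [V, sX, Sh.l]
  rw [e]
  unfold tp
  split_ifs with h1 h2 h3 h4 <;> simp only at * <;> subst_vars
  all_goals first
    | (rw [val_nfA]; done)
    | (rw [val_nfA, neg_neg]; done)
    | (rw [val_nfA, ← V_X, V_even h1]; done)
    | (rw [V_dead (s := sO 1) (by decide)]; simp; done)
    | (simp [V_O3, valL, neg_star, Pt.sh, ← V_A2]; done)
    | (simp_all [Pt.sh, V_X]; done)

theorem toP_val (b : Bool) (L : List (Bool × ℕ)) :
    val (toP b L) = if b then v (.row (strips L)) else - v (.row (strips L)) := by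
  rw [strips, v_rowOf]
  induction L with
  | nil => simp [toP]
  | cons s L ih =>
    rw [toP_cons, val_add, ih, tp_val]
    cases b <;> simp [add_comm]

structure Spec (b : Bool) (L : List (Bool × ℕ)) (M : MP) : Prop where
  ok : okP M
  n57 : no57 M
  w : wP M = dd b L
  f : fP M = dd b L
  a : ∀ i, count (A i) M = if i % 2 = 0 then (L.flatMap fun s => piece s.2).count i else 0
  o : ∀ n, count (O n) M = if n % 2 = 1 ∧ 5 ≤ n then L.count (!b, n) else 0
  x : ∀ n, count (X n) M = if n % 2 = 1 ∧ 5 ≤ n then L.count (b, n) else 0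
  r : ∀ q, (∀ t, q ≠ A t) → (∀ t, q ≠ O t) → (∀ t, q ≠ X t) → count q M = 0

theorem spec_one (b : Bool) (s : Bool × ℕ) (h : s.2 ≠ 5 ∧ s.2 ≠ 7 ∧ s.2 ≠ 9) :
    Spec b [s] (tp b s) := by
  obtain ⟨c, n⟩ := s
  simp only at h
  unfold tp
  split_ifs with h1 h2 h3 h4 <;> simp only at *
  · have h5 := nfA_props h1
    have h6 := nfA_noO h1
    have h7 : ¬ n % 2 = 1 := by omega
    refine ⟨h5.1, ⟨h6 5, h6 7⟩, by simp [h5, dd, h7], by simp [h5, dd, h7], fun i => ?_,
      fun t => ?_, fun t => ?_, fun q h1 _ _ => cnt_nfA q n h1⟩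
    · split_ifs with h8
      · simp [cA_piece h1]
      · rw [count_eq_zero]
        intro h9
        exact h8 (h5.1 _ h9).1
    · simp [c2]
      omega
    · simp [c2]
      omega
  · subst h2
    refine ⟨by simp, by simp [no57], by simp [dd], by simp [dd], fun i => by simp [piece],
      fun t => ?_, fun t => ?_, by simp⟩ <;> simp [c2] <;> omega
  · subst h3
    refine ⟨by simp [Pt.ok], by simp [no57], by simp [dd, Pt.w], by simp [dd, Pt.f], fun i => ?_,
      fun t => ?_, fun t => ?_, fun q h1 _ _ => by simp [h1]⟩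
    · by_cases h5 : i = 2 <;> simp [piece, h5, c1]
    · simp [c2]
      omega
    · simp [c2]
      omega
  · subst h4
    have h5 : n % 2 = 1 ∧ 5 ≤ n := by omega
    have h6 : piece n = [n] := by
      unfold piece
      rw [if_neg h3, if_neg (by omega), if_neg (by omega)]
    refine ⟨by simp [Pt.ok, gX, h5, h], by simp [no57], by simp [dd, Pt.w, h5],
      by simp [dd, Pt.f, h5], fun i => ?_, fun t => by simp, fun t => ?_,
      fun q _ _ h1 => by simp [h1]⟩
    · simp [h6, c1]
      omega
    · by_cases h7 : t = n <;> simp [h7, h5, c2]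
  · obtain rfl : c = !b := by
      cases b <;> simpa using h4
    have h5 : n % 2 = 1 ∧ 5 ≤ n := by omega
    have h6 : piece n = [n] := by
      unfold piece
      rw [if_neg h3, if_neg (by omega), if_neg (by omega)]
    refine ⟨by simp [Pt.ok, gX, h5, h], by simp [no57]; omega, by simp [dd, Pt.w, h5],
      by simp [dd, Pt.f, h5], fun i => ?_, fun t => ?_, fun t => by simp,
      fun q _ h1 _ => by simp [h1]⟩
    · simp [h6, c1]
      omega
    · by_cases h7 : t = n <;> simp [h7, h5, c2]

theorem dd_cons (b : Bool) (s : Bool × ℕ) (L : List (Bool × ℕ)) :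
    dd b (s :: L) = dd b [s] + dd b L := by
  simp only [dd, List.countP_cons, List.countP_nil]
  push_cast
  ring

theorem spec (b : Bool) (L : List (Bool × ℕ)) (h : ∀ s ∈ L, s.2 ≠ 5 ∧ s.2 ≠ 7 ∧ s.2 ≠ 9) :
    Spec b L (toP b L) := by
  induction L with
  | nil => exact ⟨by simp [toP], by simp [toP, no57], by simp [toP, dd], by simp [toP, dd],
      by simp [toP], by simp [toP], by simp [toP], by simp [toP]⟩
  | cons s L ih =>
    have h1 := spec_one b s (h s (by simp))
    have h2 := ih (fun t ht => h t (by simp [ht]))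
    rw [toP_cons]
    refine ⟨by simp [h1.ok, h2.ok], ?_, by rw [wP_add, h1.w, h2.w, ← dd_cons],
      by rw [fP_add, h1.f, h2.f, ← dd_cons], fun i => ?_, fun n => ?_, fun n => ?_,
      fun q a b c => by rw [count_add, h1.r q a b c, h2.r q a b c]⟩
    · simpa [no57] using ⟨⟨h1.n57.1, h2.n57.1⟩, h1.n57.2, h2.n57.2⟩
    · rw [count_add, h1.a, h2.a]
      split_ifs <;> simp
    · rw [count_add, h1.o, h2.o]
      split_ifs <;> simp [List.count_cons, add_comm]
    · rw [count_add, h1.x, h2.x]
      split_ifs <;> simp [List.count_cons, add_comm]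

theorem SM_sh {M : MP} (h : okP M) : SM (M.map Pt.sh) = 0 := by
  apply SM_zero
  intro s hs
  obtain ⟨p, hp, rfl⟩ := mem_map.1 hs
  have := h p hp
  cases p <;> simp [Pt.sh, Sh.st, sO, sX, s1, s2, G.U]
  rename_i n
  simp only [Pt.ok] at this
  have h8 : ¬ (n - 2) % 10 = 8 := by omega
  first | exact decide_eq_false h8 | exact h8

theorem dd_not (b : Bool) (L : List (Bool × ℕ)) : dd (!b) L = - dd b L := by simp [dd]

theorem final (L : List (Bool × ℕ)) (h : ∀ s ∈ L, s.2 ≠ 5 ∧ s.2 ≠ 7 ∧ s.2 ≠ 9) (b : Bool) :
    Wq (v (.row (strips L))) b ↔ 1 ≤ dd b L ∨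
      (dd b L = 0 ∧ ((∃ n, Odd n ∧ 5 ≤ n ∧ od b L n ≠ 0) ∨ ∃ i, Even i ∧ ev L i ≠ 0)) ∨
      ∃ m j, Odd m ∧ 5 ≤ m ∧ (j = m + 3 ∨ j + 3 = m) ∧
        (∀ n, Odd n → 5 ≤ n → od b L n = if n = m then -1 else 0) ∧
        ∀ i, Even i → ev L i = (piece j).count i := by
  have S := spec b L h
  have S' := spec (!b) L h
  have e0 : Wq (v (.row (strips L))) b ↔ GA (val (toP b L)) := by
    rw [toP_val]
    cases b
    · exact (Wq_neg _ false).symm
    · rfl
  have e1 : val (toP (!b) L) = - val (toP b L) := by
    rw [toP_val, toP_val]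
    cases b <;> simp
  have dU : ∀ {c : Bool} {M : MP}, Spec c L M →
      count Pt.U M = 0 ∧ count (oA 3) M = 0 ∧ ∀ q : Pt, q.Dbl → count q M = 0 := by
    intro c M T
    refine ⟨T.r _ (by simp) (by simp) (by simp), T.r _ (by simp) (by simp) (by simp),
      fun q hq => ?_⟩
    have := Dbl_ne hq
    exact T.r q this.1 this.2.1 this.2.2.1
  simp only [Nat.odd_iff, Nat.even_iff]
  rw [e0]
  constructor
  · intro hA
    have hB : ¬ GB (val (toP (!b) L)) := by rwa [e1, ← GA_iff]
    have hw := S'.w
    have hf := S'.f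
    rw [dd_not] at hw hf
    by_cases h1 : 1 ≤ dd b L
    · exact Or.inl h1
    right
    by_cases h2 : dd b L = 0
    · refine Or.inl ⟨h2, ?_⟩
      by_contra h3
      simp only [not_or, not_exists, not_and, not_not] at h3
      have h4 : Eqv (toP b L) 0 := by
        refine ⟨fun i => ?_, fun n => ?_, by simp [dU S], fun q hq => by simp [(dU S).2.2 q hq]⟩
        · have := h3.2 i
          unfold ev at this
          rw [S.a, count_zero]
          split_ifs <;> omega
        · have := h3.1 n
          unfold od at this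
          rw [S.o, S.x, count_zero, count_zero]
          split_ifs <;> omega
      rw [(Z_val' S.ok h4).1] at hA
      exact Wq_zero true hA
    right
    by_cases h3 : dd b L = -1
    swap
    · exfalso
      apply hB
      rw [val_eq]
      apply C4
      rw [HM_sh S'.ok, SM_sh S'.ok]
      omega
    have h4 : E (toP (!b) L) := by
      by_contra h5
      exact hB ((master' S'.ok).c6 (by omega) (by omega) S'.n57 h5)
    rcases E_pat S'.ok (by omega) h4 with ⟨m, j, hm, hj, hmj, hq⟩ | ⟨m, -, hq⟩ | ⟨m, -, hq⟩
    · refine ⟨m, j, hm.1, hm.2, by omega, fun n h5 h6 => ?_, fun i hi => ?_⟩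
      · have := hq.o n
        rw [S'.o, S'.x, if_pos ⟨h5, h6⟩, if_pos ⟨h5, h6⟩] at this
        unfold od
        by_cases h7 : n = m <;> simp [h7] at this ⊢ <;> omega
      · have h5 := hq.a i
        rw [S'.a, if_pos hi, count_cons_of_ne (by simp), cA_piece hj] at h5
        have h6 : (piece j).count i ≤ 1 := by
          unfold piece
          split_ifs <;> simp [List.count_cons] <;> split_ifs <;> omega
        unfold ev
        omega
    · simpa [(dU S').2.2 (oO (m + 6)) trivial] using hq.d (oO (m + 6)) trivial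
    · have hd : (oA (m + 6)).Dbl := by simp [Pt.Dbl]
      simpa [(dU S').2.2 _ hd] using hq.d _ hd
  · rintro (h1 | ⟨h1, h2⟩ | ⟨m, j, h1, h2, h3, h4, h5⟩)
    · rw [val_eq]
      apply C3
      rw [HM_sh S.ok, S.w]
      omega
    · refine (master' S.ok).c5 (by rw [S.w, h1]) (by rw [S.f, h1]) S.n57 (fun hZ => ?_)
      rcases h2 with ⟨n, h2, h3, h4⟩ | ⟨i, h2, h3⟩
      · have := hZ.o n
        rw [S.o, S.x, if_pos ⟨h2, h3⟩, if_pos ⟨h2, h3⟩] at this
        unfold od at h4
        simp at this
        omega
      · have := hZ.a i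
        rw [S.a, if_pos h2] at this
        unfold ev at h3
        simp only [count_zero] at this
        omega
    · have hj : j % 2 = 0 := by omega
      have h6 : X m ∈ toP b L := by
        have := h4 m h1 h2
        unfold od at this
        rw [← count_pos, S.x, if_pos ⟨h1, h2⟩]
        simp at this
        omega
      have h7 : Eqv (toP b L) (X m ::ₘ nfA j) := by
        refine ⟨fun i => ?_, fun n => ?_, by simp [dU S], fun q hq => ?_⟩
        · rw [S.a, count_cons_of_ne (by simp)]
          split_ifs with hi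
          · have := h5 i hi
            unfold ev at this
            rw [cA_piece hj]
            omega
          · rw [count_eq_zero.2 fun h9 => hi ((nfA_props hj).1 (A i) h9).1]
        · rw [S.o, S.x]
          split_ifs with hn
          · have := h4 n hn.1 hn.2
            unfold od at this
            by_cases h8 : n = m <;> simp [h8] at this ⊢ <;> omega
          · have : n ≠ m := by omega
            simp [this]
        · have := Dbl_ne hq
          simp [(dU S).2.2 q hq, this, cD_nfA hq]
      rw [Eqv_val _ _ S.ok (by simp [S.ok _ h6, nfA_props hj]) h7, val_cons, val_nfA]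
      rcases h3 with rfl | h3
      · rw [add_comm]
        apply rA hj (by omega)
        simpa [Pt.sh, V_X] using GB_zero
      · apply rX ⟨h1, h2⟩
        rw [show m - 3 = j by omega, V_A_self hj]
        exact GB_zero

end Pool.Agent.P.MP_6e435d_co.G
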