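import Pool.Agent.P.MP_6e435d_co.Check

set_option autoImplicit false
set_option linter.dupNamespace false

namespace Pool.Agent.P.MP_6e435d_co.G

theorem ofFn_dec {n : ℕ} (p q : Fin n → Option Bool) (i j : Fin n) (h : i.val + 1 = j.val)
    (hq : ∀ t, t ≠ i → t ≠ j → q t = p t) :
    List.ofFn q = (List.ofFn p).take i.val ++ q i :: q j :: (List.ofFn p).drop (i.val + 2) := by
  have hj := j.isLt
  apply List.ext_getElem
  · simp
    omega
  · intro t h1 h2
    rw [List.length_ofFn] at h1
    rw [List.getElem_ofFn, List.getElem_append]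
    have hl : ((List.ofFn p).take i.val).length = i.val := by simp
    split_ifs with h3
    · rw [hl] at h3
      rw [List.getElem_take, List.getElem_ofFn]
      apply hq <;> intro h4 <;> rw [Fin.ext_iff] at h4 <;> simp only at h4 <;> omega
    · rw [hl] at h3
      simp only [hl]
      have h5 : t = i.val ∨ t = i.val + 1 ∨ ∃ k, t = i.val + (k + 2) := by
        by_cases h6 : i.val + 2 ≤ t
        · exact Or.inr (Or.inr ⟨t - i.val - 2, by omega⟩)
        · omega
      rcases h5 with rfl | rfl | ⟨k, rfl⟩
      · simp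
      · simp only [Nat.add_sub_cancel_left, List.getElem_cons_succ, List.getElem_cons_zero]
        congr 1
        exact Fin.ext h
      · simp only [Nat.add_sub_cancel_left, List.getElem_cons_succ, List.getElem_drop,
          List.getElem_ofFn]
        rw [hq]
        · congr 1
          apply Fin.ext
          simp only
          omega
        · intro h4
          rw [Fin.ext_iff] at h4
          simp only at h4
          omega
        · intro h4
          rw [Fin.ext_iff] at h4
          simp only at h4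
          omega

theorem opt_ofFn {n : ℕ} (p : Fin n → Option Bool) (b : Bool) (c' : Cp) :
    Opt b (.row (List.ofFn p)) c' ↔ ∃ i j : Fin n, (i.val + 1 = j.val ∨ j.val + 1 = i.val) ∧
      p i = some b ∧ p j = some (!b) ∧
      c' = .row (List.ofFn (Function.update (Function.update p i none) j (some b))) := by
  have e1 : ∀ i j : Fin n, i.val + 1 = j.val →
      List.ofFn (Function.update (Function.update p i none) j (some b)) =
        (List.ofFn p).take i.val ++ none :: some b :: (List.ofFn p).drop (i.val + 2) := by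
    intro i j h
    have hne : i ≠ j := by
      intro h2
      subst h2
      omega
    rw [ofFn_dec p _ i j h]
    · simp [Function.update_of_ne hne]
    · intro t h1 h2
      simp [Function.update_of_ne h1, Function.update_of_ne h2]
  have e2 : ∀ i j : Fin n, i.val + 1 = j.val →
      List.ofFn (Function.update (Function.update p j none) i (some b)) =
        (List.ofFn p).take i.val ++ some b :: none :: (List.ofFn p).drop (i.val + 2) := by
    intro i j h
    have hne : j ≠ i := by
      intro h2
      subst h2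
      omega
    rw [ofFn_dec p _ i j h]
    · simp [Function.update_of_ne hne]
    · intro t h1 h2
      simp [Function.update_of_ne h1, Function.update_of_ne h2]
  rw [opt_row]
  constructor
  · rintro ⟨u, w, x, y, x', y', hl, h1, rfl⟩
    have h2 := congrArg List.length h1
    simp only [List.length_ofFn, List.length_append, List.length_cons] at h2
    have h3 := ofFn_dec p p ⟨u.length, by omega⟩ ⟨u.length + 1, by omega⟩ rfl (fun _ _ _ => rfl)
    obtain ⟨h4, h5⟩ := List.append_inj (h1.symm.trans h3) (by simp; omega)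
    simp only [List.cons.injEq] at h5
    obtain ⟨h5, h6, h7⟩ := h5
    rcases hl with ⟨rfl, rfl, rfl, rfl⟩ | ⟨rfl, rfl, rfl, rfl⟩
    · refine ⟨_, _, Or.inl rfl, h5.symm, h6.symm, ?_⟩
      rw [e1 _ _ rfl, ← h4, ← h7]
    · refine ⟨_, _, Or.inr rfl, h6.symm, h5.symm, ?_⟩
      rw [e2 _ _ rfl, ← h4, ← h7]
  · rintro ⟨i, j, h | h, hi, hj, rfl⟩
    · refine ⟨_, _, b, !b, none, some b, Or.inl ⟨rfl, rfl, rfl, rfl⟩, ?_, by rw [e1 i j h]⟩
      rw [← hi, ← hj]
      exact ofFn_dec p p i j h (fun _ _ _ => rfl)
    · refine ⟨_, _, !b, b, some b, none, Or.inr ⟨rfl, rfl, rfl, rfl⟩, ?_, by rw [e2 j i h]⟩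
      rw [← hi, ← hj]
      exact ofFn_dec p p j i h (fun _ _ _ => rfl)

theorem frozen_heap {n : ℕ} (W' : (Fin n → Option Bool) → ℕ → Bool → Prop)
    (hW : ∀ p h b, W' p h b ↔
      (∃ i j : Fin n, (i.val + 1 = j.val ∨ j.val + 1 = i.val) ∧ p i = some b ∧ p j = some (!b) ∧
        ¬ W' (Function.update (Function.update p i none) j (some b)) h (!b)) ∨
      ∃ k, k < h ∧ ¬ W' p k (!b)) :
    ∀ (N : ℕ) (p : Fin n → Option Bool) (h : ℕ) (b : Bool),
      (Cp.row (List.ofFn p)).sz + h < N →
      (W' p h b ↔ W (Cp.row (List.ofFn p) ::ₘ {Cp.hp h}) b) := by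
  intro N
  induction N with
  | zero => intro p h b hN; omega
  | succ N ih =>
    intro p h b hN
    rw [hW, W_iff]
    constructor
    · rintro (⟨i, j, h1, h2, h3, h4⟩ | ⟨k, h1, h2⟩)
      · have ho := (opt_ofFn p b _).2 ⟨i, j, h1, h2, h3, rfl⟩
        have := ho.sz_lt
        exact ⟨_, ho.mv _, by rwa [← ih _ _ _ (by omega)]⟩
      · exact ⟨_, ((Opt.hp h k h1).mv 0).cons _, by
          rw [Multiset.cons_zero, ← ih _ _ _ (by omega)]
          exact h2⟩
    · rintro ⟨K, hm, hw⟩
      rcases Mv_cons hm with ⟨c', ho, rfl⟩ | ⟨X', hm', rfl⟩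
      · have := ho.sz_lt
        obtain ⟨i, j, h1, h2, h3, rfl⟩ := (opt_ofFn p b _).1 ho
        exact Or.inl ⟨i, j, h1, h2, h3, by rwa [ih _ _ _ (by omega)]⟩
      · obtain ⟨c, c', R, ho, h1, rfl⟩ := hm'
        obtain ⟨rfl, rfl⟩ := (Multiset.singleton_eq_cons_iff _).1 h1
        obtain ⟨k, hk, rfl⟩ := opt_hp.1 ho
        refine Or.inr ⟨k, hk, ?_⟩
        rw [ih _ _ _ (by omega)]
        exact hw

theorem frozen_heap' (l : List (Option Bool))
    (W' : (Fin l.length → Option Bool) → ℕ → Bool → Prop)
    (hW : ∀ p h b, W' p h b ↔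
      (∃ i j : Fin l.length, (i.val + 1 = j.val ∨ j.val + 1 = i.val) ∧ p i = some b ∧
        p j = some (!b) ∧
        ¬ W' (Function.update (Function.update p i none) j (some b)) h (!b)) ∨
      ∃ k, k < h ∧ ¬ W' p k (!b)) (h : ℕ) (b : Bool) :
    W' l.get h b ↔ Wq (v (.row l) + v (.hp h)) b := by
  rw [frozen_heap W' hW _ _ _ _ (Nat.lt_succ_self _), List.ofFn_get, ← Wq_mk, mk_cons]
  rfl

theorem frozen_plain (l : List (Option Bool)) (W' : (Fin l.length → Option Bool) → Bool → Prop)
    (hW : ∀ p b, W' p b ↔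
      ∃ i j : Fin l.length, (i.val + 1 = j.val ∨ j.val + 1 = i.val) ∧ p i = some b ∧
        p j = some (!b) ∧
        ¬ W' (Function.update (Function.update p i none) j (some b)) (!b)) (b : Bool) :
    W' l.get b ↔ Wq (v (.row l)) b := by
  have key : ∀ (N : ℕ) (p : Fin l.length → Option Bool) (b : Bool),
      (Cp.row (List.ofFn p)).sz < N → (W' p b ↔ W {Cp.row (List.ofFn p)} b) := by
    intro N
    induction N with
    | zero => intro p b hN; omega
    | succ N ih =>
      intro p b hN
      rw [hW, W_iff]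
      constructor
      · rintro ⟨i, j, h1, h2, h3, h4⟩
        have ho := (opt_ofFn p b _).2 ⟨i, j, h1, h2, h3, rfl⟩
        have := ho.sz_lt
        exact ⟨_, ho.mv 0, by
          rw [Multiset.cons_zero, ← ih _ _ (by omega)]
          exact h4⟩
      · rintro ⟨K, ⟨c, c', R, ho, h1, rfl⟩, hw⟩
        obtain ⟨rfl, rfl⟩ := (Multiset.singleton_eq_cons_iff _).1 h1
        have := ho.sz_lt
        obtain ⟨i, j, h1, h2, h3, rfl⟩ := (opt_ofFn p b _).1 ho
        refine ⟨i, j, h1, h2, h3, ?_⟩
        rw [ih _ _ (by omega)]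
        exact hw
  rw [key _ _ _ (Nat.lt_succ_self _), List.ofFn_get]
  rfl

end Pool.Agent.P.MP_6e435d_co.G
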