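import Mathlib

set_option autoImplicit false
set_option linter.dupNamespace false

namespace Pool.Agent.P.MP_6e435d_co.G

/-- A component of a sum: a row of squares or a Nim heap. -/
inductive Cp
  | row (l : List (Option Bool))
  | hp (n : ℕ)

/-- Options of a component for player `b`. -/
inductive Opt (b : Bool) : Cp → Cp → Prop
  | rt (u w : List (Option Bool)) :
      Opt b (.row (u ++ some b :: some (!b) :: w)) (.row (u ++ none :: some b :: w))
  | lt (u w : List (Option Bool)) :
      Opt b (.row (u ++ some (!b) :: some b :: w)) (.row (u ++ some b :: none :: w))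
  | hp (n k : ℕ) (h : k < n) : Opt b (.hp n) (.hp k)

def Cp.sz : Cp → ℕ
  | .row l => l.countP Option.isSome
  | .hp n => n

def Cp.ng : Cp → Cp
  | .row l => .row (l.map (Option.map not))
  | .hp n => .hp n

theorem Opt.sz_lt {b : Bool} {c c' : Cp} (h : Opt b c c') : c'.sz < c.sz := by
  cases h with
  | rt u w => simp [Cp.sz, List.countP_append]
  | lt u w => simp [Cp.sz, List.countP_append]
  | hp n k h => exact h

theorem Cp.ng_ng (c : Cp) : c.ng.ng = c := by
  cases c with
  | row l =>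
    simp only [Cp.ng, List.map_map]
    congr 1
    conv_rhs => rw [← List.map_id l]
    apply List.map_congr_left
    intro x _
    rcases x with _ | x <;> simp
  | hp n => rfl

theorem Cp.ng_sz (c : Cp) : c.ng.sz = c.sz := by
  cases c with
  | row l =>
    simp only [Cp.ng, Cp.sz, List.countP_map]
    apply List.countP_congr
    intro x _
    rcases x with _ | x <;> simp
  | hp n => rfl

theorem Opt.ng {b : Bool} {c c' : Cp} (h : Opt b c c') : Opt (!b) c.ng c'.ng := by
  cases h with
  | rt u w =>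
    have := Opt.rt (b := !b) (u.map (Option.map not)) (w.map (Option.map not))
    simpa [Cp.ng] using this
  | lt u w =>
    have := Opt.lt (b := !b) (u.map (Option.map not)) (w.map (Option.map not))
    simpa [Cp.ng] using this
  | hp n k h => exact Opt.hp n k h

abbrev P := Multiset Cp

def size (G : P) : ℕ := (G.map Cp.sz).sum

def ng (G : P) : P := G.map Cp.ng

def Mv (b : Bool) (G K : P) : Prop := ∃ c c' R, Opt b c c' ∧ G = c ::ₘ R ∧ K = c' ::ₘ R

theorem size_cons (c : Cp) (R : P) : size (c ::ₘ R) = c.sz + size R := by simp [size]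

theorem size_add (G H : P) : size (G + H) = size G + size H := by simp [size]

theorem size_ng (G : P) : size (ng G) = size G := by
  simp [size, ng, Cp.ng_sz]

theorem ng_ng (G : P) : ng (ng G) = G := by
  simp [ng, Cp.ng_ng]

theorem ng_add (G H : P) : ng (G + H) = ng G + ng H := by simp [ng]

theorem Mv.size_lt {b : Bool} {G K : P} (h : Mv b G K) : size K < size G := by
  obtain ⟨c, c', R, ho, rfl, rfl⟩ := h
  have := ho.sz_lt
  simp only [size_cons]
  omega

theorem Mv.ng {b : Bool} {G K : P} (h : Mv b G K) : Mv (!b) (ng G) (ng K) := by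
  obtain ⟨c, c', R, ho, rfl, rfl⟩ := h
  exact ⟨c.ng, c'.ng, G.ng R, ho.ng, by simp [G.ng], by simp [G.ng]⟩

theorem Mv.add_right {b : Bool} {G K : P} (h : Mv b G K) (H : P) : Mv b (G + H) (K + H) := by
  obtain ⟨c, c', R, ho, rfl, rfl⟩ := h
  exact ⟨c, c', R + H, ho, by simp, by simp⟩

theorem Mv.add_left {b : Bool} {G K : P} (h : Mv b G K) (H : P) : Mv b (H + G) (H + K) := by
  rw [add_comm H G, add_comm H K]
  exact h.add_right H

theorem Mv.of_add {b : Bool} {G H K : P} (h : Mv b (G + H) K) :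
    (∃ G', Mv b G G' ∧ K = G' + H) ∨ (∃ H', Mv b H H' ∧ K = G + H') := by
  classical
  obtain ⟨c, c', R, ho, h1, rfl⟩ := h
  have hc : c ∈ G + H := by rw [h1]; simp
  rcases Multiset.mem_add.1 hc with hc | hc
  · obtain ⟨G0, rfl⟩ := Multiset.exists_cons_of_mem hc
    left
    refine ⟨c' ::ₘ G0, ⟨c, c', G0, ho, rfl, rfl⟩, ?_⟩
    rw [Multiset.cons_add] at h1
    rw [← (Multiset.cons_inj_right c).1 h1, Multiset.cons_add]
  · obtain ⟨H0, rfl⟩ := Multiset.exists_cons_of_mem hc
    right
    refine ⟨c' ::ₘ H0, ⟨c, c', H0, ho, rfl, rfl⟩, ?_⟩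
    rw [Multiset.add_cons] at h1
    rw [← (Multiset.cons_inj_right c).1 h1, Multiset.add_cons]

/-- The player `b` to move wins. -/
def W (G : P) (b : Bool) : Prop := ∃ K, ∃ _h : Mv b G K, ¬ W K (!b)
termination_by size G
decreasing_by exact _h.size_lt

theorem W_iff (G : P) (b : Bool) : W G b ↔ ∃ K, Mv b G K ∧ ¬ W K (!b) := by
  rw [W]
  simp only [exists_prop]

theorem W_ng_aux (n : ℕ) : ∀ (G : P) (b : Bool), size G < n → (W (ng G) (!b) ↔ W G b) := by
  induction n with
  | zero => intro G b h; omega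
  | succ n ih =>
    intro G b h
    rw [W_iff, W_iff G]
    constructor
    · rintro ⟨K, hm, hw⟩
      have h1 := hm.ng
      rw [ng_ng, Bool.not_not] at h1
      refine ⟨ng K, h1, ?_⟩
      have h2 := hm.size_lt
      rw [size_ng] at h2
      rw [Bool.not_not] at hw
      rw [ih K b (by omega)]
      exact hw
    · rintro ⟨K, hm, hw⟩
      refine ⟨ng K, hm.ng, ?_⟩
      have h2 := hm.size_lt
      rw [ih K (!b) (by omega)]
      exact hw

theorem W_ng (G : P) (b : Bool) : W (ng G) (!b) ↔ W G b := W_ng_aux _ G b (Nat.lt_succ_self _)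

theorem W_add_aux (n : ℕ) : ∀ (G H : P) (b : Bool), size G + size H < n → ¬ W G (!b) →
    (W H b → W (G + H) b) ∧ (¬ W H (!b) → ¬ W (G + H) (!b)) := by
  induction n with
  | zero => intro G H b h; omega
  | succ n ih =>
    intro G H b h hG
    constructor
    · intro hH
      rw [W_iff] at hH ⊢
      obtain ⟨K, hm, hw⟩ := hH
      have := hm.size_lt
      exact ⟨G + K, hm.add_left G, (ih G K b (by omega) hG).2 hw⟩
    · intro hH hGH
      rw [W_iff] at hGH
      obtain ⟨K, hm, hw⟩ := hGH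
      rw [Bool.not_not] at hw
      apply hw
      rcases hm.of_add with ⟨G', hm', rfl⟩ | ⟨H', hm', rfl⟩
      · have h1 : W G' b := by
          by_contra h2
          apply hG
          rw [W_iff]
          exact ⟨G', hm', by rwa [Bool.not_not]⟩
        have := hm'.size_lt
        rw [add_comm]
        exact (ih H G' b (by omega) hH).1 h1
      · have h1 : W H' b := by
          by_contra h2
          apply hH
          rw [W_iff]
          exact ⟨H', hm', by rwa [Bool.not_not]⟩
        have := hm'.size_lt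
        exact (ih G H' b (by omega) hG).1 h1

theorem W_add1 {G H : P} {b : Bool} (hG : ¬ W G (!b)) (hH : W H b) : W (G + H) b :=
  (W_add_aux _ G H b (Nat.lt_succ_self _) hG).1 hH

theorem W_add2 {G H : P} {b : Bool} (hG : ¬ W G b) (hH : ¬ W H b) : ¬ W (G + H) b := by
  have := (W_add_aux _ G H (!b) (Nat.lt_succ_self _) (by rwa [Bool.not_not])).2
    (by rwa [Bool.not_not])
  rwa [Bool.not_not] at this

theorem mirror_aux (n : ℕ) : ∀ (G : P) (b : Bool), size G < n → ¬ W (G + ng G) b := by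
  induction n with
  | zero => intro G b h; omega
  | succ n ih =>
    intro G b h hw
    rw [W_iff] at hw
    obtain ⟨K, hm, hw⟩ := hw
    apply hw
    rw [W_iff]
    rcases hm.of_add with ⟨G', hm', rfl⟩ | ⟨H', hm', rfl⟩
    · have := hm'.size_lt
      exact ⟨G' + ng G', hm'.ng.add_left G', ih G' _ (by omega)⟩
    · have h1 := hm'.ng
      rw [ng_ng] at h1
      have := h1.size_lt
      refine ⟨ng H' + H', h1.add_right H', ?_⟩
      have h2 := ih (ng H') (!!b) (by omega)
      rwa [ng_ng] at h2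

theorem mirror (G : P) (b : Bool) : ¬ W (G + ng G) b := mirror_aux _ G b (Nat.lt_succ_self _)

theorem W_zero_add {Z : P} (hZ : ∀ b, ¬ W Z b) (X : P) (b : Bool) : W (Z + X) b ↔ W X b := by
  constructor
  · intro h
    by_contra h2
    exact W_add2 (hZ b) h2 h
  · exact W_add1 (hZ _)

/-- Equivalence of sums: the same outcome in every context. -/
def con : AddCon P where
  r G H := ∀ X b, W (G + X) b ↔ W (H + X) b
  iseqv := ⟨fun _ _ _ => Iff.rfl, fun h X b => (h X b).symm,
    fun h1 h2 X b => (h1 X b).trans (h2 X b)⟩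
  add' := by
    intro G G' H H' h1 h2 X b
    rw [add_assoc, h1, ← add_assoc, add_comm G' H, add_assoc, h2, ← add_assoc, add_comm H' G']

/-- Game values. -/
def Gm : Type := con.Quotient

instance : AddCommMonoid Gm := inferInstanceAs (AddCommMonoid con.Quotient)

def mk : P →+ Gm := con.mk'

theorem mk_eq {G H : P} : mk G = mk H ↔ ∀ X b, W (G + X) b ↔ W (H + X) b := con.eq

theorem mk_surj (x : Gm) : ∃ G, mk G = x := con.mk'_surjective x

def Wq (x : Gm) (b : Bool) : Prop :=
  Quotient.liftOn' (s₁ := con.toSetoid) x (fun G => W G b) (fun G H h => by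
    have := h 0 b
    simp only [add_zero] at this
    exact propext this)

theorem Wq_mk (G : P) (b : Bool) : Wq (mk G) b ↔ W G b := Iff.rfl

def negq (x : Gm) : Gm :=
  Quotient.liftOn' (s₁ := con.toSetoid) x (fun G => mk (ng G)) (fun G H h => by
    rw [mk_eq]
    intro X b
    have h1 := W_ng (G + ng X) (!b)
    have h2 := W_ng (H + ng X) (!b)
    rw [ng_add, ng_ng, Bool.not_not] at h1 h2
    rw [h1, h2]
    exact h _ _)

theorem negq_mk (G : P) : negq (mk G) = mk (ng G) := rfl

theorem negq_add (x : Gm) : negq x + x = 0 := by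
  obtain ⟨G, rfl⟩ := mk_surj x
  rw [negq_mk, ← map_add, ← map_zero mk, mk_eq]
  intro X b
  rw [zero_add, add_comm (ng G)]
  exact W_zero_add (mirror G) X b

instance : AddCommGroup Gm :=
  { (inferInstance : AddCommMonoid Gm) with
    neg := negq
    zsmul := @zsmulRec Gm _ _ ⟨negq⟩ nsmulRec
    zsmul_zero' := fun _ => rfl
    zsmul_succ' := fun _ _ => rfl
    zsmul_neg' := fun _ _ => rfl
    neg_add_cancel := negq_add }

theorem neg_mk (G : P) : -mk G = mk (ng G) := rfl

theorem Wq_neg (x : Gm) (b : Bool) : Wq (-x) (!b) ↔ Wq x b := by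
  obtain ⟨G, rfl⟩ := mk_surj x
  rw [neg_mk, Wq_mk, Wq_mk, W_ng]

theorem Wq_add1 {x y : Gm} {b : Bool} (hx : ¬ Wq x (!b)) (hy : Wq y b) : Wq (x + y) b := by
  obtain ⟨G, rfl⟩ := mk_surj x
  obtain ⟨H, rfl⟩ := mk_surj y
  rw [← map_add]
  exact W_add1 hx hy

theorem Wq_add2 {x y : Gm} {b : Bool} (hx : ¬ Wq x b) (hy : ¬ Wq y b) : ¬ Wq (x + y) b := by
  obtain ⟨G, rfl⟩ := mk_surj x
  obtain ⟨H, rfl⟩ := mk_surj y
  rw [← map_add]
  exact W_add2 hx hy

theorem eq_zero_of {x : Gm} (h : ∀ b, ¬ Wq x b) : x = 0 := by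
  obtain ⟨G, rfl⟩ := mk_surj x
  rw [← map_zero mk, mk_eq]
  intro X b
  rw [zero_add]
  exact W_zero_add h X b

theorem Wq_zero (b : Bool) : ¬ Wq 0 b := by
  rw [← map_zero mk, Wq_mk, W_iff]
  rintro ⟨K, ⟨c, c', R, -, h, -⟩, -⟩
  exact Multiset.zero_ne_cons h

/-- Value of one component. -/
def v (c : Cp) : Gm := mk {c}

theorem mk_cons (c : Cp) (R : P) : mk (c ::ₘ R) = v c + mk R := by
  rw [v, ← map_add, Multiset.singleton_add]

theorem v_ng (c : Cp) : v c.ng = - v c := by
  rw [v, v, neg_mk]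
  simp [ng]

theorem Wq_move {b : Bool} {c c' : Cp} (h : Opt b c c') {x : Gm} (hw : ¬ Wq (v c' + x) (!b)) :
    Wq (v c + x) b := by
  obtain ⟨R, rfl⟩ := mk_surj x
  rw [← mk_cons, Wq_mk] at hw ⊢
  rw [W_iff]
  exact ⟨_, ⟨c, c', R, h, rfl, rfl⟩, hw⟩

theorem Wq_all {b : Bool} {G : P}
    (h : ∀ c c' R, G = c ::ₘ R → Opt b c c' → Wq (v c' + mk R) (!b)) : ¬ Wq (mk G) b := by
  rw [Wq_mk, W_iff]
  rintro ⟨K, ⟨c, c', R, ho, h1, rfl⟩, hw⟩
  apply hw
  rw [← Wq_mk, mk_cons]
  exact h c c' R h1 ho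

/-- Bisimulation principle. -/
theorem bisim (r : P → P → Prop)
    (h1 : ∀ G H b K, r G H → Mv b G K → ∃ K', Mv b H K' ∧ r K K')
    (h2 : ∀ G H b K', r G H → Mv b H K' → ∃ K, Mv b G K ∧ r K K') :
    ∀ (n : ℕ) (G H : P) (b : Bool), size G < n → r G H → (W G b ↔ W H b) := by
  intro n
  induction n with
  | zero => intro G H b h; omega
  | succ n ih =>
    intro G H b h hr
    rw [W_iff, W_iff H]
    constructor
    · rintro ⟨K, hm, hw⟩
      obtain ⟨K', hm', hr'⟩ := h1 G H b K hr hm
      have := hm.size_lt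
      exact ⟨K', hm', by rwa [← ih K K' _ (by omega) hr']⟩
    · rintro ⟨K', hm', hw⟩
      obtain ⟨K, hm, hr'⟩ := h2 G H b K' hr hm'
      have := hm.size_lt
      exact ⟨K, hm, by rwa [ih K K' _ (by omega) hr']⟩

end Pool.Agent.P.MP_6e435d_co.G
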