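import Pool.Agent.P.MP_6e435d_co.Weight
import Pool.Agent.P.MP_6e435d_co.Frozen

set_option autoImplicit false
set_option linter.dupNamespace false

namespace Pool.Agent.P.MP_6e435d_co.G

theorem wt_neg (s : Sh) : (neg s).wt = - s.wt := by
  obtain ⟨dl, c, m, dr⟩ := s
  cases dl <;> cases dr <;> cases c <;> simp only [neg, Sh.wt, col_not] <;>
    first
    | (simp [sg]; done)
    | (cases col _ (m + 1) <;> simp [sg])

theorem st_neg (s : Sh) : (neg s).st = s.st := rfl

theorem valM_neg (M : Multiset Sh) : valM (M.map neg) = - valM M := by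
  induction M using Multiset.induction_on with
  | empty => simp [valM]
  | cons s R ih => rw [Multiset.map_cons, valM_cons, valM_cons, ih, V_neg, neg_add]

theorem HM_neg (M : Multiset Sh) : HM (M.map neg) = - HM M := by
  induction M using Multiset.induction_on with
  | empty => simp [HM]
  | cons s R ih => rw [Multiset.map_cons, HM_cons, HM_cons, ih, wt_neg, neg_add]

theorem SM_neg (M : Multiset Sh) : SM (M.map neg) = SM M := by
  simp [SM, st_neg]

theorem heap_GA (M : Multiset Sh) {h : ℕ} (hh : 2 ≤ h) :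
    GA (valM M + v (.hp h)) ↔ -2 < HM M ∨ (HM M = -2 ∧ SM M % 2 = 1) := by
  constructor
  · intro h1
    by_contra h2
    rw [GA_iff, neg_add, neg_hp, ← valM_neg] at h1
    apply h1
    apply (CC _ (M.map neg) h 2 (Nat.lt_succ_self _) (Or.inr ⟨rfl, hh⟩)).1
    rw [HM_neg, SM_neg]
    omega
  · exact (CC _ M h 2 (Nat.lt_succ_self _) (Or.inr ⟨rfl, hh⟩)).2

theorem heap_R (M : Multiset Sh) {h : ℕ} (hh : 2 ≤ h) :
    Wq (valM M + v (.hp h)) false ↔ HM M < 2 ∨ (HM M = 2 ∧ SM M % 2 = 1) := by
  have := heap_GA (M.map neg) hh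
  rw [valM_neg, ← neg_hp, ← neg_add, HM_neg, SM_neg] at this
  rw [← Wq_neg]
  refine this.trans ?_
  omega

theorem v_rowSh (L : List Sh) : v (.row (rowOf (L.map Sh.l))) = valM (L : Multiset Sh) := by
  rw [v_rowOf, valM_coe, valL, List.map_map]
  rfl

theorem SM_coe (L : List Sh) : SM (L : Multiset Sh) = L.countP Sh.st := by
  induction L with
  | nil => rfl
  | cons s L ih =>
    rw [← Multiset.cons_coe, SM_cons, ih, List.countP_cons]
    cases s.st <;> simp [add_comm]

theorem HM_coe (L : List Sh) : HM (L : Multiset Sh) = (L.map Sh.wt).sum := by simp [HM]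

end Pool.Agent.P.MP_6e435d_co.G
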