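import Pool.Agent.P.MP_6e435d_co.Fam3

set_option autoImplicit false
set_option linter.dupNamespace false

namespace Pool.Agent.P.MP_6e435d_co.G

open Pt Multiset

theorem notE_X {B : MP} (hB : okP B) (hf : fP B = 1) (n : ℕ)
    (h : count (O n) B < count (X n) B) : ¬ E B := by
  intro hE
  rcases E_pat hB hf hE with ⟨m, j, -, -, -, hq⟩ | ⟨m, -, hq⟩ | ⟨m, -, hq⟩ <;>
    have := hq.o n <;> simp at this <;> omega

theorem good {N : ℕ} (ih : IH N) {B : MP} (hs : sP B < N) (hB : okP B) (hw : wP B = 1)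
    (h : 2 ≤ fP B ∨ (fP B = 1 ∧ no57 B ∧ (okP B → fP B = 1 → ¬ E B))) : GB (val B) := by
  rcases h with h | ⟨h1, h2, h3⟩
  · exact (ih B hs hB).c2 hw h
  · exact (ih B hs hB).c6 hw h1 h2 (h3 hB h1)

theorem viaA {N : ℕ} (ih : IH N) {j : ℕ} {R : MP} (hs : sP (A j ::ₘ R) ≤ N) (hM : okP (A j ::ₘ R))
    (hw : wP (A j ::ₘ R) = 0) (hj : 8 ≤ j)
    (h : 1 ≤ fP (A j ::ₘ R) ∨ (fP (A j ::ₘ R) = 0 ∧ 14 ≤ j ∧ no57 (A j ::ₘ R) ∧
      (okP (O (j - 3) ::ₘ R) → fP (O (j - 3) ::ₘ R) = 1 → ¬ E (O (j - 3) ::ₘ R)))) :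
    GA (val (A j ::ₘ R)) := by
  simp only [sP_cons, okP_cons, wP_cons, Pt.sz, Pt.ok, Pt.w] at hs hM hw
  have := good ih (B := O (j - 3) ::ₘ R) (by simp [Pt.sz]; omega)
    (by simp only [okP_cons, Pt.ok, gX, hM.2, and_true]; omega) (by simp [Pt.w]; omega) (by
      rcases h with h | ⟨h1, h2, h3, h4⟩
      · left
        simp [Pt.f] at h ⊢
        omega
      · refine Or.inr ⟨by simpa [Pt.f] using h1, ?_, h4⟩
        simp [no57] at h3 ⊢
        exact ⟨⟨by omega, h3.1⟩, by omega, h3.2⟩)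
  rw [val_cons] at this ⊢
  exact rA hM.1.1 (by omega) this

theorem viaP {N : ℕ} (ih : IH N) {j : ℕ} {R : MP} (hs : sP (oA j ::ₘ R) ≤ N)
    (hM : okP (oA j ::ₘ R)) (hw : wP (oA j ::ₘ R) = 0) (hj : j ≠ 3)
    (h : 1 ≤ fP (oA j ::ₘ R) ∨ (fP (oA j ::ₘ R) = 0 ∧ no57 (oA j ::ₘ R) ∧
      (okP (oO (j - 3) ::ₘ R) → fP (oO (j - 3) ::ₘ R) = 1 → ¬ E (oO (j - 3) ::ₘ R)))) :
    GA (val (oA j ::ₘ R)) := by
  simp only [sP_cons, okP_cons, wP_cons, Pt.sz, Pt.ok, Pt.w, gA] at hs hM hw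
  have := good ih (B := oO (j - 3) ::ₘ R) (by simp [Pt.sz]; omega)
    (by simp only [okP_cons, Pt.ok, gO, hM.2, and_true]; omega) (by simp [Pt.w]; omega) (by
      rcases h with h | ⟨h1, h3, h4⟩
      · left
        simp [Pt.f] at h ⊢
        omega
      · exact Or.inr ⟨by simpa [Pt.f] using h1, by simpa [no57] using h3, h4⟩)
  rw [val_cons] at this ⊢
  exact rP (by omega) (by omega) this

theorem viaX {N : ℕ} (ih : IH N) {j : ℕ} {R : MP} (hs : sP (X j ::ₘ R) ≤ N) (hM : okP (X j ::ₘ R))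
    (hw : wP (X j ::ₘ R) = 0)
    (h : 1 ≤ fP (X j ::ₘ R) ∨ (fP (X j ::ₘ R) = 0 ∧ no57 (X j ::ₘ R) ∧
      (okP (R + nfA (j - 3)) → fP (R + nfA (j - 3)) = 1 → ¬ E (R + nfA (j - 3))))) :
    GA (val (X j ::ₘ R)) := by
  simp only [sP_cons, okP_cons, wP_cons, Pt.sz, Pt.ok, Pt.w] at hs hM hw
  have hg := hM.1.1
  have hg' := hg
  unfold gX at hg'
  have h0 := nfA_props (n := j - 3) (by omega)
  have h00 := nfA_noO (n := j - 3) (by omega)
  have := good ih (B := R + nfA (j - 3)) (by simp; omega) (by simp [hM.2, h0])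
    (by simp [h0]; omega) (by
      rcases h with h | ⟨h1, h3, h4⟩
      · left
        simp [Pt.f, h0] at h ⊢
        omega
      · refine Or.inr ⟨?_, by simpa [no57, h00] using h3, h4⟩
        simp [Pt.f, h0] at h1 ⊢
        omega)
  rw [val_add, val_nfA, add_comm] at this
  rw [val_cons]
  exact rX hg this

theorem f_nonneg (M : MP) (h : ∀ n, X n ∉ M) :
    0 ≤ fP M ∧ (fP M = 0 → ∀ q ∈ M, q.f = 0) ∧ (0 < fP M → ∃ q ∈ M, q.f = 1) := by
  induction M using Multiset.induction_on with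
  | empty => simp
  | cons p R ih =>
    obtain ⟨h1, h2, h3⟩ := ih (fun n hn => h n (mem_cons_of_mem hn))
    have h4 : p.f = 0 ∨ p.f = 1 := by
      cases p with
      | X n => exact absurd (mem_cons_self _ _) (h n)
      | _ => simp [Pt.f]
    rw [fP_cons]
    refine ⟨by omega, fun h5 q hq => ?_, fun h5 => ?_⟩
    · rcases mem_cons.1 hq with rfl | hq
      · omega
      · exact h2 (by omega) q hq
    · rcases h4 with h4 | h4
      · obtain ⟨q, hq, h6⟩ := h3 (by omega)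
        exact ⟨q, mem_cons_of_mem hq, h6⟩
      · exact ⟨p, mem_cons_self _ _, h4⟩

theorem w_nonneg (M : MP) (h : ∀ q ∈ M, 0 ≤ q.w) :
    0 ≤ wP M ∧ (wP M = 0 → ∀ q ∈ M, q.w = 0) := by
  induction M using Multiset.induction_on with
  | empty => simp
  | cons p R ih =>
    obtain ⟨h1, h2⟩ := ih (fun n hn => h n (mem_cons_of_mem hn))
    have h4 := h p (mem_cons_self _ _)
    rw [wP_cons]
    refine ⟨by omega, fun h5 q hq => ?_⟩
    rcases mem_cons.1 hq with rfl | hq
    · omega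
    · exact h2 (by omega) q hq

theorem mk_Sm {M : MP} (hM : okP M) (hX : ∀ n, X n ∉ M) (hP : ∀ t, t ≠ 3 → oA t ∉ M)
    (hA : ∀ t, 14 ≤ t → A t ∉ M) (hf : fP M = 0) : Sm M := by
  intro q hq
  have h1 := (f_nonneg M hX).2.1 hf q hq
  have h2 := hM q hq
  cases q with
  | A t =>
    have h3 : ¬ 14 ≤ t := fun h => hA t h hq
    simp only [Pt.ok] at h2
    simp
    omega
  | oA t =>
    have h3 : t = 3 := by
      by_contra h
      exact hP t h hq
    simp [h3]
  | U => simp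
  | _ => simp [Pt.f] at h1

theorem step5X {N : ℕ} (ih : IH N) {n : ℕ} {R : MP} (hs : sP (X n ::ₘ R) ≤ N)
    (hM : okP (X n ::ₘ R)) (hw : wP (X n ::ₘ R) = 0) (hf : fP (X n ::ₘ R) = 0)
    (h57 : no57 (X n ::ₘ R)) (hO : O n ∉ R) : GA (val (X n ::ₘ R)) := by
  have cO : count (O n) R = 0 := count_eq_zero.2 hO
  by_cases hP : ∃ t, t ≠ 3 ∧ oA t ∈ R
  · obtain ⟨t, ht, hm⟩ := hP
    obtain ⟨T, rfl⟩ := exists_cons_of_mem hm
    rw [cons_swap] at hs hM hw hf h57 ⊢
    refine viaP ih hs hM hw ht (Or.inr ⟨hf, h57, fun h1 h2 => notE_X h1 h2 n ?_⟩)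
    simp at cO ⊢
    rw [count_eq_zero.2 cO]
    omega
  by_cases hA : ∃ t, 14 ≤ t ∧ t ≠ n + 3 ∧ A t ∈ R
  · obtain ⟨t, ht, ht2, hm⟩ := hA
    obtain ⟨T, rfl⟩ := exists_cons_of_mem hm
    rw [cons_swap] at hs hM hw hf h57 ⊢
    refine viaA ih hs hM hw (by omega) (Or.inr ⟨hf, ht, h57, fun h1 h2 => notE_X h1 h2 n ?_⟩)
    have : n ≠ t - 3 := by omega
    simp [this] at cO ⊢
    rw [count_eq_zero.2 cO]
    omega
  have hA' : ∀ t, 14 ≤ t → t = n + 3 ∨ count (A t) R = 0 := by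
    intro t ht
    by_contra h
    rw [not_or, count_eq_zero, not_not] at h
    exact hA ⟨t, ht, h.1, h.2⟩
  by_cases hE : E (R + nfA (n - 3))
  swap
  · exact viaX ih hs hM hw (Or.inr ⟨hf, h57, fun _ _ => hE⟩)
  simp only [sP_cons, okP_cons, fP_cons, Pt.sz, Pt.ok, Pt.f, gX] at hs hM hf
  have h0 := nfA_props (n := n - 3) (by omega)
  have hok : okP (R + nfA (n - 3)) := by simp [hM.2, h0]
  have hv : ∀ F, okP F → Eqv (R + nfA (n - 3)) F → val R = val F + V (sO (n - 3)) := by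
    intro F h1 h2
    rw [← Eqv_val F _ hok h1 h2, val_add, val_nfA, add_assoc, V_A_self (by omega), add_zero]
  have c1 := cA_nfA (n - 3) (n - 3)
  have c2 := hA' (n - 3)
  rw [val_cons]
  rcases E_pat hok (by simp [h0]; omega) hE with ⟨m, j, hm, hj, hmj, hq⟩ | ⟨m, hm, hq⟩ | ⟨m, hm, hq⟩
  · have c3 := hq.o m
    simp at c3
    have h1 : O m ∈ R := count_pos.1 (by omega)
    have h2 := hM.2 _ h1
    have h3 : m ≠ n := by
      rintro rfl
      exact hO h1
    have h4 : m ≠ 5 ∧ m ≠ 7 := by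
      constructor <;> rintro rfl
      · exact h57.1 (mem_cons_of_mem h1)
      · exact h57.2 (mem_cons_of_mem h1)
    have e := hv _ (by simp [h2, nfA_props hj]) hq
    simp only [Pt.ok, gX] at h2
    rw [e, val_cons, val_nfA]
    simp only [Pt.sh]
    by_cases h17 : 17 ≤ n
    · have c4 := hq.a (n - 3)
      have c5 := cA_nfA (n - 3) j
      simp at c4
      obtain rfl : j = n - 3 := by omega
      obtain rfl : n = m + 6 := by omega
      rw [add_assoc, V_A_self hj, add_zero, add_comm]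
      by_cases h13 : m ≤ 13
      · simpa [valL] using facts3 _ (f3 m (by simp; omega))
      · obtain ⟨T, rfl⟩ := exists_cons_of_mem h1
        simp only [sP_cons, Pt.sz] at hs
        have := Ba ih (m + 6) (by omega) _ (m - 4) (Nat.lt_succ_self _) (by omega) (by omega)
          (by omega) (by omega)
        apply rO hm
        convert this using 1
        simp only [val_cons, val_single, Pt.sh]
        abel
    · by_cases h14 : 14 ≤ j
      · have c4 := hq.a j
        have c5 := cA_nfA j j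
        have c6 := cA_nfA j (n - 3)
        have c7 := hA' j
        simp at c4
        obtain rfl : j = n + 3 := by omega
        obtain rfl : m = n + 6 := by omega
        convert facts3 _ (f2 n (by simp; omega)) using 1
        simp only [valL, List.map_cons, List.map_nil, List.sum_cons, List.sum_nil]
        abel
      · obtain rfl : j = m - 3 := by omega
        convert facts3 _ (f1 n (by simp; omega) m (by simp; omega) h3) using 1
        simp only [valL, List.map_cons, List.map_nil, List.sum_cons, List.sum_nil]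
        abel
  · have c3 := hq.d (oO (m + 6)) trivial
    simp at c3
    have h1 : oO (m + 6) ∈ R := count_pos.1 (by omega)
    have h2 := hM.2 _ h1
    have hm' := hm
    unfold gO at hm'
    have hj : m % 2 = 0 := by omega
    have e := hv _ (by simp [hm, nfA_props hj, Pt.ok]) hq
    rw [e, val_cons, val_cons, val_nfA]
    simp only [Pt.sh]
    by_cases h17 : 17 ≤ n
    · have c4 := hq.a (n - 3)
      have c5 := cA_nfA (n - 3) m
      simp at c4
      obtain rfl : n = m + 3 := by omega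
      obtain ⟨T, rfl⟩ := exists_cons_of_mem h1
      simp only [sP_cons, Pt.sz] at hs
      have := Ba ih (m + 3) (by omega) _ (m + 6 - 5) (Nat.lt_succ_self _) (by omega) (by omega)
        (by omega) (by omega)
      rw [val_cons] at this
      convert roO (by omega) this using 1
      simp only [val_cons, val_single, Pt.sh, Nat.add_sub_cancel]
      rw [add_assoc, add_assoc, V_A_self hj]
      abel
    · by_cases h14 : 14 ≤ m
      · have c4 := hq.a m
        have c5 := cA_nfA m m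
        have c6 := cA_nfA m (n - 3)
        have c7 := hA' m
        simp at c4
        obtain rfl : m = n + 3 := by omega
        convert facts3 _ (f5 n (by simp; omega)) using 1
        simp only [valL, List.map_cons, List.map_nil, List.sum_cons, List.sum_nil]
        rw [show n + 3 + 6 - 1 = n + 8 by omega]
        abel
      · convert facts3 _ (f4 n (by simp; omega) m (by simp; omega)) using 1
        simp only [valL, List.map_cons, List.map_nil, List.sum_cons, List.sum_nil]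
        rw [show m + 6 - 1 = m + 5 by omega]
        abel
  · have c3 := hq.d (oA (m + 6)) (by simp [Pt.Dbl])
    simp at c3
    exact absurd ⟨m + 6, by omega, count_pos.1 (by omega)⟩ hP

theorem step5P {N : ℕ} (ih : IH N) {t : ℕ} {R : MP} (hs : sP (oA t ::ₘ R) ≤ N)
    (hM : okP (oA t ::ₘ R)) (hw : wP (oA t ::ₘ R) = 0) (hf : fP (oA t ::ₘ R) = 0)
    (h57 : no57 (oA t ::ₘ R)) (ht : t ≠ 3) (hX : ∀ n, count (X n) R = 0) :
    GA (val (oA t ::ₘ R)) := by
  by_cases hE : E (oO (t - 3) ::ₘ R)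
  swap
  · exact viaP ih hs hM hw ht (Or.inr ⟨hf, h57, fun _ _ => hE⟩)
  have hM' := hM
  have hf' := hf
  simp only [okP_cons, fP_cons, Pt.ok, Pt.f, gA] at hM' hf'
  have hok : okP (oO (t - 3) ::ₘ R) := by
    simp only [okP_cons, Pt.ok, gO, hM'.2, and_true]
    omega
  rcases E_pat hok (by simp [Pt.f]; omega) hE with
    ⟨m, j, hm, hj, hmj, hq⟩ | ⟨m, hm, hq⟩ | ⟨m, hm, hq⟩
  · simpa using hq.d (oO (t - 3)) trivial
  swap
  · simpa using hq.d (oO (t - 3)) trivial
  have c3 := hq.d (oO (t - 3)) trivial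
  have h1 : t - 3 = m + 6 := by
    by_contra h
    simp [h] at c3
  obtain rfl : t = m + 9 := by omega
  have hm' := hm
  unfold gO at hm'
  have hj : m % 2 = 0 := by omega
  by_cases h14 : 14 ≤ m
  · have c4 := hq.a m
    have c5 := cA_nfA m m
    simp at c4
    obtain ⟨T, rfl⟩ := exists_cons_of_mem (count_pos.1 (by omega : 0 < count (A m) R))
    rw [cons_swap] at hs hM hw hf h57 ⊢
    refine viaA ih hs hM hw (by omega) (Or.inr ⟨hf, h14, h57, fun h1 h2 hE2 => ?_⟩)
    have hd : (oA (m + 9)).Dbl := ht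
    rcases E_pat h1 h2 hE2 with ⟨m', j, -, -, -, hq⟩ | ⟨m', -, hq⟩ | ⟨m', -, hq⟩
    · simpa using hq.d _ hd
    · simpa using hq.d _ hd
    · have c6 := hq.d _ hd
      have c7 := hq.o (m - 3)
      have c8 := hX (m - 3)
      have h3 : m + 9 = m' + 6 := by
        by_contra h
        simp [h] at c6
      have h4 : m - 3 ≠ m' := by omega
      simp [h4] at c7 c8
      rw [count_eq_zero.2 c8] at c7
      omega
  · have e := Eqv_val _ _ hok (by simp [hm, nfA_props hj, Pt.ok]) hq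
    rw [h1, val_cons, val_cons, add_right_inj, val_cons, val_nfA] at e
    rw [val_cons, e]
    simpa [valL, Pt.sh] using facts3 _ (f6 m (by simp; omega))

theorem step5A {N : ℕ} (ih : IH N) {t : ℕ} {R : MP} (hs : sP (A t ::ₘ R) ≤ N)
    (hM : okP (A t ::ₘ R)) (hw : wP (A t ::ₘ R) = 0) (hf : fP (A t ::ₘ R) = 0)
    (h57 : no57 (A t ::ₘ R)) (ht : 14 ≤ t) (hX : ∀ n, count (X n) R = 0)
    (hP : ∀ n, n ≠ 3 → count (oA n) R = 0) (hZ : ¬ Eqv (A t ::ₘ R) 0) :
    GA (val (A t ::ₘ R)) := by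
  by_cases hE : E (O (t - 3) ::ₘ R)
  swap
  · exact viaA ih hs hM hw (by omega) (Or.inr ⟨hf, ht, h57, fun _ _ => hE⟩)
  have hM' := hM
  have hf' := hf
  simp only [okP_cons, fP_cons, Pt.ok, Pt.f] at hM' hf'
  have hok : okP (O (t - 3) ::ₘ R) := by
    simp only [okP_cons, Pt.ok, gX, hM'.2, and_true]
    omega
  rcases E_pat hok (by simp [Pt.f]; omega) hE with
    ⟨m, j, hm, hj, hmj, hq⟩ | ⟨m, hm, hq⟩ | ⟨m, hm, hq⟩
  swap
  · simpa [hX] using hq.o (t - 3)
  swap
  · simpa [hP] using hq.d (oA (m + 6)) (by simp [Pt.Dbl])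
  have c3 := hq.o (t - 3)
  obtain rfl : m = t - 3 := by
    by_contra h
    simp [hX, Ne.symm h] at c3
  rcases hmj with h1 | h1
  swap
  · exfalso
    obtain rfl : j = t := by omega
    have e : nfA j = {A j} := by
      unfold nfA
      rw [if_neg (by omega), if_neg (by omega)]
    rw [e] at hq
    refine hZ ⟨fun n => ?_, fun n => ?_, ?_, fun r hr => ?_⟩
    · have := hq.a n
      simpa [count_cons, count_singleton] using this
    · have := hq.o n
      simp [count_cons] at this ⊢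
      omega
    · simpa using hq.k
    · have := hq.d r hr
      have h3 := Dbl_ne hr
      simpa [h3] using this
  obtain rfl : t = j + 6 := by omega
  by_cases h14 : 14 ≤ j
  · have c4 := hq.a j
    have c5 := cA_nfA j j
    have c6 := hq.a (j + 6)
    have c7 := cA_nfA (j + 6) j
    simp at c4 c6
    obtain ⟨T, rfl⟩ := exists_cons_of_mem (count_pos.1 (by omega : 0 < count (A j) R))
    rw [cons_swap] at hs hM hw hf h57 ⊢
    refine viaA ih hs hM hw (by omega) (Or.inr ⟨hf, h14, h57, fun h1 h2 hE2 => ?_⟩)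
    have c8 := hX (j - 3)
    simp at c6 c8
    rcases E_pat h1 h2 hE2 with ⟨m', j', -, -, h3, hq⟩ | ⟨m', -, hq⟩ | ⟨m', -, hq⟩
    · have c9 := hq.o (j - 3)
      have h4 : j - 3 = m' := by
        by_contra h
        simp [h, count_eq_zero.2 c8] at c9
      have c10 := hq.a (j + 6)
      have c11 := cA_nfA (j + 6) j'
      simp at c10
      omega
    · simpa [count_eq_zero.2 c8] using hq.o (j - 3)
    · have c9 := hq.d (oA (m' + 6)) (by simp [Pt.Dbl])
      have c10 := hP (m' + 6) (by omega)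
      simp at c9 c10
      rw [count_eq_zero.2 c10] at c9
      omega
  · have e := Eqv_val _ _ hok ((okP_cons _ _).2 ⟨((okP_cons _ _).1 hok).1, (nfA_props hj).1⟩) hq
    rw [val_cons, val_cons, add_right_inj, val_nfA] at e
    rw [val_cons, e]
    simpa [valL, Pt.sh] using facts3 _ (f7 (j + 6) (by simp; omega))

theorem step5 {N : ℕ} (ih : IH N) {M : MP} (hs : sP M ≤ N) (hM : okP M) (hw : wP M = 0)
    (hf : fP M = 0) (h57 : no57 M) (hZ : ¬ Eqv M 0) : GA (val M) := by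
  by_cases hX : ∃ n, X n ∈ M
  · obtain ⟨n, hn⟩ := hX
    obtain ⟨R, rfl⟩ := exists_cons_of_mem hn
    by_cases hO : O n ∈ R
    · obtain ⟨T, rfl⟩ := exists_cons_of_mem hO
      simp only [sP_cons, okP_cons, wP_cons, fP_cons, Pt.sz, Pt.ok, Pt.w, Pt.f, gX] at hs hM hw hf
      have := (ih T (by omega) hM.2.2).c5 (by omega) (by omega) (by
        simp only [no57, mem_cons, not_or] at h57 ⊢
        exact ⟨h57.1.2.2, h57.2.2.2⟩) (fun h => hZ ⟨fun t => by simpa using h.a t, fun t => by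
          have := h.o t
          simp [count_cons] at this ⊢
          omega, by simpa using h.k, fun r hr => by
          have h3 := Dbl_ne hr
          simpa [h3] using h.d r hr⟩)
      simpa [Pt.sh, V_X] using this
    · exact step5X ih hs hM hw hf h57 hO
  have hX' : ∀ n, X n ∉ M := fun n h => hX ⟨n, h⟩
  by_cases hP : ∃ t, t ≠ 3 ∧ oA t ∈ M
  · obtain ⟨t, ht, hm⟩ := hP
    obtain ⟨R, rfl⟩ := exists_cons_of_mem hm
    exact step5P ih hs hM hw hf h57 ht
      (fun n => count_eq_zero.2 fun h => hX' n (mem_cons_of_mem h))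
  have hP' : ∀ t, t ≠ 3 → oA t ∉ M := fun t h1 h2 => hP ⟨t, h1, h2⟩
  by_cases hA : ∃ t, 14 ≤ t ∧ A t ∈ M
  · obtain ⟨t, ht, hm⟩ := hA
    obtain ⟨R, rfl⟩ := exists_cons_of_mem hm
    exact step5A ih hs hM hw hf h57 ht
      (fun n => count_eq_zero.2 fun h => hX' n (mem_cons_of_mem h))
      (fun n hn => count_eq_zero.2 fun h => hP' n hn (mem_cons_of_mem h)) hZ
  have hS := mk_Sm hM hX' hP' (fun t h1 h2 => hA ⟨t, h1, h2⟩) hf
  obtain ⟨a, ha, b, hb, c, hc, d, hd, e, h1, h2, h3, h4, h5⟩ := Sm_val M hS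
  have h6 : a + b + c + d ≠ 0 := by
    intro h
    refine hZ ⟨fun t => ?_, fun t => by simp [hS.cO, hS.cX], by simp; omega,
      fun r hr => by simp [hS.cD hr]⟩
    by_cases h7 : t ≠ 2 ∧ t ≠ 4 ∧ t ≠ 8 ∧ t ≠ 10
    · simp [hS.cA h7]
    · rcases (by omega : t = 2 ∨ t = 4 ∨ t = 8 ∨ t = 10) with rfl | rfl | rfl | rfl <;>
        simp only [count_zero] <;> omega
  rw [e, hw]
  simpa [valL, add_assoc] using facts3 _ (f8 a ha b hb c hc d hd h6)

theorem E_smallO {n : ℕ} {R : MP} (hR : Sm R) (h8 : ∀ t, 8 ≤ t → count (A t) R = 0)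
    (hn : n ≠ 5 ∧ n ≠ 7 ∧ n ≠ 15) (hB : okP (O n ::ₘ R)) (hf : fP (O n ::ₘ R) = 1) :
    ¬ E (O n ::ₘ R) := by
  intro hE
  have h0 := hB (O n) (mem_cons_self _ _)
  simp only [Pt.ok, gX] at h0
  rcases E_pat hB hf hE with ⟨m, j, -, hj, h3, hq⟩ | ⟨m, -, hq⟩ | ⟨m, -, hq⟩
  · have c1 := hq.o n
    obtain rfl : n = m := by
      by_contra h
      simp [h, hR.cX] at c1
    have c2 := hq.a j
    have c3 := cA_nfA j j
    have c4 := h8 j
    simp at c2
    omega
  · simpa [hR.cX] using hq.o n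
  · have hd : (oA (m + 6)).Dbl := by simp [Pt.Dbl]
    simpa [hR.cD hd] using hq.d _ hd

theorem E_smalloO {n : ℕ} {R : MP} (h8 : ∀ t, 8 ≤ t → count (A t) R = 0)
    (hn : 14 ≤ n) (hB : okP (oO n ::ₘ R)) (hf : fP (oO n ::ₘ R) = 1) : ¬ E (oO n ::ₘ R) := by
  intro hE
  rcases E_pat hB hf hE with ⟨m, j, -, hj, h3, hq⟩ | ⟨m, hm, hq⟩ | ⟨m, -, hq⟩
  · simpa using hq.d (oO n) trivial
  · have c1 := hq.d (oO n) trivial
    obtain rfl : n = m + 6 := by
      by_contra h
      simp [h] at c1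
    unfold gO at hm
    have c2 := hq.a m
    have c3 := cA_nfA m m
    have c4 := h8 m
    simp at c2
    omega
  · simpa using hq.d (oO n) trivial

theorem step1 {N : ℕ} (ih : IH N) {M : MP} (hs : sP M ≤ N) (hM : okP M) (hw : wP M = 0)
    (hf : 1 ≤ fP M) : GA (val M) := by
  by_cases hX : ∃ n, X n ∈ M
  · obtain ⟨n, hn⟩ := hX
    obtain ⟨R, rfl⟩ := exists_cons_of_mem hn
    exact viaX ih hs hM hw (Or.inl hf)
  have hX' : ∀ n, X n ∉ M := fun n h => hX ⟨n, h⟩
  by_cases hP : ∃ t, t ≠ 3 ∧ oA t ∈ M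
  · obtain ⟨t, ht, hm⟩ := hP
    obtain ⟨R, rfl⟩ := exists_cons_of_mem hm
    exact viaP ih hs hM hw ht (Or.inl hf)
  have hP' : ∀ t, t ≠ 3 → oA t ∉ M := fun t h1 h2 => hP ⟨t, h1, h2⟩
  by_cases hA : ∃ t, 8 ≤ t ∧ A t ∈ M
  · obtain ⟨t, ht, hm⟩ := hA
    obtain ⟨R, rfl⟩ := exists_cons_of_mem hm
    exact viaA ih hs hM hw ht (Or.inl hf)
  have hA' : ∀ t, 8 ≤ t → A t ∉ M := fun t h1 h2 => hA ⟨t, h1, h2⟩
  have small : ∀ T : MP, (∀ q ∈ T, q ∈ M) → fP T = 0 → Sm T ∧
      (∀ t, 8 ≤ t → count (A t) T = 0) ∧ wP T = count Pt.U T - count (oA 3) T ∧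
      ∃ a ∈ [0, 2], ∃ b ∈ [0, 4], val T = wP T • V G.U + (V (sO a) + V (sO b)) := by
    intro T hT h0
    have hS := mk_Sm (M := T) (fun q hq => hM q (hT q hq)) (fun n h => hX' n (hT _ h))
      (fun t h1 h => hP' t h1 (hT _ h)) (fun t h1 h => hA' t (by omega) (hT _ h)) h0
    have h8 : ∀ t, 8 ≤ t → count (A t) T = 0 :=
      fun t h1 => count_eq_zero.2 fun h => hA' t h1 (hT _ h)
    obtain ⟨a, ha, b, hb, c, hc, d, hd, e, -, -, h3, h4, h5⟩ := Sm_val T hS
    obtain rfl : c = 0 := h3.2 (by rw [h8 8 le_rfl])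
    obtain rfl : d = 0 := h4.2 (by rw [h8 10 (by norm_num)])
    have e0 : V (sO 0) = 0 := V_dead (by decide)
    exact ⟨hS, h8, h5, a, ha, b, hb, by rw [e, e0, add_zero, add_zero]⟩
  have mvD : ∀ R : MP, M = oA 3 ::ₘ R → (2 ≤ fP (A 2 ::ₘ R) ∨ (fP (A 2 ::ₘ R) = 1 ∧
      no57 (A 2 ::ₘ R) ∧ (okP (A 2 ::ₘ R) → fP (A 2 ::ₘ R) = 1 → ¬ E (A 2 ::ₘ R)))) →
      GA (val M) := by
    rintro R rfl h
    simp only [sP_cons, okP_cons, wP_cons, Pt.sz, Pt.w] at hs hM hw
    have := good ih (by simp [Pt.sz]; omega) (by simp [Pt.ok, hM.2]) (by simp [Pt.w]; omega) h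
    rw [val_cons] at this ⊢
    exact rD this
  have mvR : ∀ (n : ℕ) (R : MP), M = oOo n ::ₘ R → (2 ≤ fP (oO (n - 3) ::ₘ A 2 ::ₘ R) ∨
      (fP (oO (n - 3) ::ₘ A 2 ::ₘ R) = 1 ∧ no57 (oO (n - 3) ::ₘ A 2 ::ₘ R) ∧
        (okP (oO (n - 3) ::ₘ A 2 ::ₘ R) → fP (oO (n - 3) ::ₘ A 2 ::ₘ R) = 1 →
          ¬ E (oO (n - 3) ::ₘ A 2 ::ₘ R)))) → GA (val M) := by
    rintro n R rfl h
    simp only [sP_cons, okP_cons, wP_cons, Pt.sz, Pt.w, Pt.ok] at hs hM hw
    have := good ih (by simp [Pt.sz]; omega) (by simp [Pt.ok, hM.2, gO]; omega)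
      (by simp [Pt.w]; omega) h
    rw [cons_swap, val_cons, val_cons, ← add_assoc] at this
    rw [val_cons]
    exact roOo (by omega) (by omega) this
  have mvQ : ∀ (n : ℕ) (R : MP), M = oO n ::ₘ R → 10 ≤ n → (2 ≤ fP (O (n - 5) ::ₘ R) ∨
      (fP (O (n - 5) ::ₘ R) = 1 ∧ no57 (O (n - 5) ::ₘ R) ∧
        (okP (O (n - 5) ::ₘ R) → fP (O (n - 5) ::ₘ R) = 1 → ¬ E (O (n - 5) ::ₘ R)))) →
      GA (val M) := by
    rintro n R rfl hn h
    simp only [sP_cons, okP_cons, wP_cons, Pt.sz, Pt.w, Pt.ok, gO] at hs hM hw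
    have := good ih (by simp [Pt.sz]; omega) (by simp [Pt.ok, hM.2, gX]; omega)
      (by simp [Pt.w]; omega) h
    rw [val_cons] at this ⊢
    exact roO (by omega) this
  by_cases h2 : 2 ≤ fP M
  · by_cases hD : oA 3 ∈ M
    · obtain ⟨R, hR⟩ := exists_cons_of_mem hD
      exact mvD R hR (Or.inl (by rw [hR] at h2; simpa [Pt.f] using h2))
    by_cases hR : ∃ n, oOo n ∈ M
    · obtain ⟨n, hn⟩ := hR
      obtain ⟨R, hR⟩ := exists_cons_of_mem hn
      exact mvR n R hR (Or.inl (by rw [hR] at h2; simpa [Pt.f] using h2))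
    by_cases hQ : ∃ n, 10 ≤ n ∧ oO n ∈ M
    · obtain ⟨n, hn, hm⟩ := hQ
      obtain ⟨R, hR⟩ := exists_cons_of_mem hm
      exact mvQ n R hR hn (Or.inl (by rw [hR] at h2; simpa [Pt.f] using h2))
    have h3 := (w_nonneg M (fun q hq => by
      cases q with
      | X n => exact absurd hq (hX' n)
      | oA n =>
        by_cases h : n = 3
        · exact absurd (h ▸ hq) hD
        · exact absurd hq (hP' n h)
      | oOo n => exact absurd ⟨n, hq⟩ hR
      | _ => simp [Pt.w])).2 hw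
    have h4 : ∀ q ∈ M, q.f = 1 → q = oO 6 := by
      intro q hq h5
      have h6 := h3 q hq
      have h7 := hM q hq
      cases q with
      | oO n =>
        have : ¬ 10 ≤ n := fun h => hQ ⟨n, h, hq⟩
        simp only [Pt.ok, gO] at h7
        congr 1
        omega
      | _ => simp [Pt.f, Pt.w] at h5 h6
    obtain ⟨q, hq, h5⟩ := (f_nonneg M hX').2.2 (by omega)
    obtain rfl := h4 q hq h5
    obtain ⟨R, rfl⟩ := exists_cons_of_mem hq
    simp only [sP_cons, wP_cons, fP_cons, Pt.sz, Pt.w, Pt.f] at hs hw h2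
    by_cases h6 : 2 ≤ fP R
    · have := good ih (B := Pt.U ::ₘ R) (by simp [Pt.sz]; omega)
        (by rw [okP_cons] at hM; simp [Pt.ok, hM.2]) (by simp [Pt.w]; omega)
        (Or.inl (by simpa [Pt.f] using h6))
      rw [val_cons] at this ⊢
      exact r6 this
    · obtain ⟨q, hq', h7⟩ := (f_nonneg R (fun n h => hX' n (mem_cons_of_mem h))).2.2 (by omega)
      obtain rfl := h4 q (mem_cons_of_mem hq') h7
      obtain ⟨T, rfl⟩ := exists_cons_of_mem hq'
      simp only [wP_cons, fP_cons, Pt.w, Pt.f] at hw h2 h6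
      obtain ⟨-, -, -, a, ha, b, hb, e⟩ :=
        small T (fun q hq => mem_cons_of_mem (mem_cons_of_mem hq)) (by omega)
      rw [val_cons, val_cons, e, show wP T = 0 by omega]
      simpa [valL, Pt.sh] using facts3 _ (f9 a ha b hb).2.2.2
  obtain ⟨q, hq, h5⟩ := (f_nonneg M hX').2.2 (by omega)
  obtain ⟨R, hR⟩ := exists_cons_of_mem hq
  have h6 : fP R = 0 := by
    rw [hR, fP_cons] at h2 hf
    omega
  obtain ⟨hS, h8, h9, a, ha, b, hb, e⟩ := small R (fun q hq => hR ▸ mem_cons_of_mem hq) h6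
  have h10 := hM q hq
  have h57 := hS.no57
  have hw' := hw
  rw [hR, wP_cons] at hw'
  cases q with
  | O n =>
    simp only [Pt.w] at hw'
    by_cases hn : n ≠ 5 ∧ n ≠ 7 ∧ n ≠ 15
    · obtain ⟨T, rfl⟩ := exists_cons_of_mem (count_pos.1 (by omega : 0 < count (oA 3) R))
      refine mvD (O n ::ₘ T) (by rw [hR, cons_swap]) (Or.inr ⟨by simpa [Pt.f] using h6, ?_, ?_⟩)
      · simp [no57] at h57 ⊢
        exact ⟨⟨by omega, h57.1⟩, by omega, h57.2⟩
      · rw [cons_swap]
        refine E_smallO ?_ ?_ hn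
        · intro q hq
          rcases mem_cons.1 hq with rfl | hq
          · simp
          · exact hS q (mem_cons_of_mem hq)
        · intro t ht
          have : t ≠ 2 := by omega
          simpa [this] using h8 t ht
    · rw [hR, val_cons, e, show wP R = -1 by omega]
      simpa [valL, Pt.sh, V_U] using facts3 _ ((f9 a ha b hb).1 n (by simp; omega))
  | oO n =>
    simp only [Pt.w, Pt.ok, gO] at hw' h10
    by_cases hn : 16 ≤ n ∧ n ≠ 20
    · refine mvQ n R hR (by omega) (Or.inr ⟨by simpa [Pt.f] using h6, ?_,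
        E_smallO hS h8 (by omega)⟩)
      simp [no57] at h57 ⊢
      exact ⟨⟨by omega, h57.1⟩, by omega, h57.2⟩
    · rw [hR, val_cons, e, show wP R = 0 by omega]
      simpa [valL, Pt.sh] using facts3 _ ((f9 a ha b hb).2.2.1 (n - 1) (by simp; omega))
  | oOo n =>
    simp only [Pt.w, Pt.ok] at hw' h10
    by_cases hn : n = 15
    · subst hn
      rw [hR, val_cons, e, show wP R = 1 by omega]
      simpa [valL, Pt.sh] using facts3 _ (f9 a ha b hb).2.1
    · refine mvR n R hR (Or.inr ⟨by simpa [Pt.f] using h6, by simpa [no57] using h57,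
        E_smalloO ?_ (by omega)⟩)
      intro t ht
      have : t ≠ 2 := by omega
      simpa [this] using h8 t ht
  | _ => simp [Pt.f] at h5

theorem master (N : ℕ) : IH N := by
  induction N with
  | zero => intro M h; omega
  | succ N ih =>
    intro M hs hM
    have h : sP M ≤ N := by omega
    exact ⟨step1 ih h hM, step2 ih h hM, step5 ih h hM, step6 ih h hM⟩

theorem master' {M : MP} (hM : okP M) : Cl M := master _ M (Nat.lt_succ_self _) hM

end Pool.Agent.P.MP_6e435d_co.G
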