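import Pool.Agent.P.MP_6e435d_co.Game
import Pool.Agent.P.MP_6e435d_co.Defs

set_option autoImplicit false
set_option linter.dupNamespace false

namespace Pool.Agent.P.MP_6e435d_co.G

theorem Mv_cons {b : Bool} {c : Cp} {X K : P} (h : Mv b (c ::ₘ X) K) :
    (∃ c', Opt b c c' ∧ K = c' ::ₘ X) ∨ (∃ X', Mv b X X' ∧ K = c ::ₘ X') := by
  rw [← Multiset.singleton_add] at h
  rcases h.of_add with ⟨G', ⟨d, d', R, ho, h1, rfl⟩, rfl⟩ | ⟨H', hm, rfl⟩
  · obtain ⟨rfl, rfl⟩ := (Multiset.singleton_eq_cons_iff _).1 h1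
    exact Or.inl ⟨d', ho, by simp⟩
  · exact Or.inr ⟨H', hm, by simp⟩

theorem Mv.cons {b : Bool} {X K : P} (h : Mv b X K) (c : Cp) : Mv b (c ::ₘ X) (c ::ₘ K) := by
  have := h.add_left {c}
  simpa using this

theorem Opt.mv {b : Bool} {c c' : Cp} (h : Opt b c c') (X : P) : Mv b (c ::ₘ X) (c' ::ₘ X) :=
  ⟨c, c', X, h, rfl, rfl⟩

/-- The local change made by a move of `b`. -/
def Loc (b x y : Bool) (x' y' : Option Bool) : Prop :=
  (x = b ∧ y = !b ∧ x' = none ∧ y' = some b) ∨ (x = !b ∧ y = b ∧ x' = some b ∧ y' = none)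

theorem opt_row {b : Bool} {l : List (Option Bool)} {c' : Cp} :
    Opt b (.row l) c' ↔ ∃ u w x y x' y', Loc b x y x' y' ∧ l = u ++ some x :: some y :: w ∧
      c' = .row (u ++ x' :: y' :: w) := by
  constructor
  · intro h
    generalize hc : Cp.row l = c at h
    cases h with
    | rt u w =>
      cases hc
      exact ⟨u, w, _, _, _, _, Or.inl ⟨rfl, rfl, rfl, rfl⟩, rfl, rfl⟩
    | lt u w =>
      cases hc
      exact ⟨u, w, _, _, _, _, Or.inr ⟨rfl, rfl, rfl, rfl⟩, rfl, rfl⟩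
    | hp n k h => cases hc
  · rintro ⟨u, w, x, y, x', y', ⟨rfl, rfl, rfl, rfl⟩ | ⟨rfl, rfl, rfl, rfl⟩, rfl, rfl⟩
    · exact Opt.rt u w
    · exact Opt.lt u w

theorem opt_hp {b : Bool} {n : ℕ} {c' : Cp} : Opt b (.hp n) c' ↔ ∃ k, k < n ∧ c' = .hp k := by
  constructor
  · intro h
    generalize hc : Cp.hp n = c at h
    cases h with
    | rt u w => cases hc
    | lt u w => cases hc
    | hp n k h =>
      cases hc
      exact ⟨k, h, rfl⟩
  · rintro ⟨k, h, rfl⟩
    exact Opt.hp n k h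

theorem split_inv (x y : Bool) (w l2 : List (Option Bool)) : ∀ (u l1 : List (Option Bool)),
    l1 ++ none :: l2 = u ++ some x :: some y :: w →
    (∃ w', l1 = u ++ some x :: some y :: w' ∧ w = w' ++ none :: l2) ∨
      (∃ u', l2 = u' ++ some x :: some y :: w ∧ u = l1 ++ none :: u') := by
  intro u
  induction u with
  | nil =>
    intro l1 h
    rcases l1 with _ | ⟨a, _ | ⟨a', l1⟩⟩
    · simp at h
    · simp at h
    · simp only [List.cons_append, List.nil_append, List.cons.injEq] at h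
      obtain ⟨rfl, rfl, rfl⟩ := h
      exact Or.inl ⟨l1, rfl, rfl⟩
  | cons a u ih =>
    intro l1 h
    rcases l1 with _ | ⟨a', l1⟩
    · simp only [List.cons_append, List.nil_append, List.cons.injEq] at h
      obtain ⟨rfl, rfl⟩ := h
      exact Or.inr ⟨u, rfl, rfl⟩
    · simp only [List.cons_append, List.cons.injEq] at h
      obtain ⟨rfl, h⟩ := h
      rcases ih l1 h with ⟨w', rfl, rfl⟩ | ⟨u', rfl, rfl⟩
      · exact Or.inl ⟨w', rfl, rfl⟩
      · exact Or.inr ⟨u', rfl, rfl⟩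

theorem v_split (l1 l2 : List (Option Bool)) :
    v (.row (l1 ++ none :: l2)) = v (.row l1) + v (.row l2) := by
  rw [v, v, v, ← map_add, mk_eq]
  intro X b
  refine bisim (fun G H => ∃ l1 l2 X, G = Cp.row (l1 ++ none :: l2) ::ₘ X ∧
    H = Cp.row l1 ::ₘ Cp.row l2 ::ₘ X) ?_ ?_ _ _ _ b (Nat.lt_succ_self _)
    ⟨l1, l2, X, by simp, by simp⟩
  · rintro G H b K ⟨l1, l2, X, rfl, rfl⟩ hm
    rcases Mv_cons hm with ⟨c', ho, rfl⟩ | ⟨X', hm', rfl⟩
    · obtain ⟨u, w, x, y, x', y', hl, h1, rfl⟩ := opt_row.1 ho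
      rcases split_inv x y w l2 u l1 h1 with ⟨w', rfl, rfl⟩ | ⟨u', rfl, rfl⟩
      · exact ⟨_, (opt_row.2 ⟨u, w', x, y, x', y', hl, rfl, rfl⟩).mv _,
          u ++ x' :: y' :: w', l2, X, by simp, rfl⟩
      · exact ⟨_, ((opt_row.2 ⟨u', w, x, y, x', y', hl, rfl, rfl⟩).mv _).cons _,
          l1, u' ++ x' :: y' :: w, X, by simp, rfl⟩
    · exact ⟨_, (hm'.cons _).cons _, l1, l2, X', rfl, rfl⟩
  · rintro G H b K ⟨l1, l2, X, rfl, rfl⟩ hm
    rcases Mv_cons hm with ⟨c', ho, rfl⟩ | ⟨X', hm', rfl⟩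
    · obtain ⟨u, w, x, y, x', y', hl, rfl, rfl⟩ := opt_row.1 ho
      exact ⟨_, (opt_row.2 ⟨u, w ++ none :: l2, x, y, x', y', hl, by simp, rfl⟩).mv _,
        u ++ x' :: y' :: w, l2, X, by simp, rfl⟩
    · rcases Mv_cons hm' with ⟨c', ho, rfl⟩ | ⟨X'', hm'', rfl⟩
      · obtain ⟨u, w, x, y, x', y', hl, rfl, rfl⟩ := opt_row.1 ho
        exact ⟨_, (opt_row.2 ⟨l1 ++ none :: u, w, x, y, x', y', hl, by simp, rfl⟩).mv _,
          l1, u ++ x' :: y' :: w, X, by simp, rfl⟩
      · exact ⟨_, hm''.cons _, l1, l2, X'', rfl, rfl⟩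

theorem opt_rev {b : Bool} {l : List (Option Bool)} {c' : Cp} (h : Opt b (.row l) c') :
    ∃ l', c' = .row l' ∧ Opt b (.row l.reverse) (.row l'.reverse) := by
  obtain ⟨u, w, x, y, x', y', hl, rfl, rfl⟩ := opt_row.1 h
  refine ⟨_, rfl, opt_row.2 ⟨w.reverse, u.reverse, y, x, y', x', ?_, by simp, by simp⟩⟩
  rcases hl with ⟨h1, h2, h3, h4⟩ | ⟨h1, h2, h3, h4⟩
  · exact Or.inr ⟨h2, h1, h4, h3⟩
  · exact Or.inl ⟨h2, h1, h4, h3⟩

theorem v_rev (l : List (Option Bool)) : v (.row l.reverse) = v (.row l) := by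
  symm
  rw [v, v, mk_eq]
  intro X b
  refine bisim (fun G H => ∃ l X, G = Cp.row l ::ₘ X ∧ H = Cp.row l.reverse ::ₘ X) ?_ ?_ _ _ _ b
    (Nat.lt_succ_self _) ⟨l, X, by simp, by simp⟩
  · rintro G H b K ⟨l, X, rfl, rfl⟩ hm
    rcases Mv_cons hm with ⟨c', ho, rfl⟩ | ⟨X', hm', rfl⟩
    · obtain ⟨l', rfl, ho'⟩ := opt_rev ho
      exact ⟨_, ho'.mv _, l', X, rfl, rfl⟩
    · exact ⟨_, hm'.cons _, l, X', rfl, rfl⟩
  · rintro G H b K ⟨l, X, rfl, rfl⟩ hm
    rcases Mv_cons hm with ⟨c', ho, rfl⟩ | ⟨X', hm', rfl⟩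
    · obtain ⟨l', rfl, ho'⟩ := opt_rev ho
      rw [List.reverse_reverse] at ho'
      exact ⟨_, ho'.mv _, l'.reverse, X, rfl, by simp⟩
    · exact ⟨_, hm'.cons _, l, X', rfl, rfl⟩

theorem v_dead {c : Cp} (h : ∀ b c', ¬ Opt b c c') : v c = 0 := by
  apply eq_zero_of
  intro b
  apply Wq_all
  intro d d' R h1 ho
  obtain ⟨rfl, -⟩ := (Multiset.singleton_eq_cons_iff _).1 h1
  exact absurd ho (h _ _)

theorem v_nil : v (.row []) = 0 := by
  apply v_dead
  intro b c' ho
  obtain ⟨u, w, x, y, x', y', -, h, -⟩ := opt_row.1 ho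
  simp at h

theorem v_rowOf (L : List (List (Option Bool))) :
    v (.row (rowOf L)) = (L.map fun l => v (.row l)).sum := by
  induction L with
  | nil => simpa [rowOf] using v_nil
  | cons l L ih =>
    have : rowOf (l :: L) = l ++ none :: rowOf L := by simp [rowOf]
    rw [this, v_split, ih]
    simp

/-! ### Blocks -/

theorem col_zero (c : Bool) : col c 0 = c := rfl

theorem col_succ (c : Bool) (i : ℕ) : col c (i + 1) = !col c i := by
  unfold col
  split_ifs <;> first | omega | simp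

theorem col_not (c : Bool) (i : ℕ) : col (!c) i = !col c i := by
  unfold col
  split_ifs <;> simp

theorem col_col (c : Bool) (i j : ℕ) : col (col c i) j = col c (i + j) := by
  unfold col
  split_ifs <;> first | omega | simp

theorem alt_add (i j : ℕ) : ∀ c : Bool, alt c (i + j) = alt c i ++ alt (col c i) j := by
  induction i with
  | zero => intro c; simp [alt, col]
  | succ i ih =>
    intro c
    rw [Nat.add_right_comm, alt, alt, ih, col_succ, col_not]
    rfl

theorem alt_length (m : ℕ) : ∀ c : Bool, (alt c m).length = m := by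
  induction m with
  | zero => intro c; rfl
  | succ m ih => intro c; simp [alt, ih]

theorem alt_cut (c : Bool) (i j : ℕ) :
    alt c (i + j + 2) = alt c i ++ some (col c i) :: some (!col c i) :: alt (col c i) j := by
  rw [add_assoc, alt_add, alt, alt, Bool.not_not]

theorem alt_rev (m : ℕ) : ∀ c : Bool, (alt c m).reverse = alt (col c (m + 1)) m := by
  induction m with
  | zero => intro c; rfl
  | succ m ih =>
    intro c
    rw [alt, List.reverse_cons, ih, alt_add m 1, col_col, col_not, ← col_succ]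
    have : col c (m + 1 + 1 + m) = c := by
      unfold col
      rw [if_pos (by omega)]
    rw [this]
    rfl

theorem alt_neg (m : ℕ) : ∀ c : Bool, (alt c m).map (Option.map not) = alt (!c) m := by
  induction m with
  | zero => intro c; rfl
  | succ m ih => intro c; simp [alt, ih]

/-- Value of a block. -/
def V (s : Sh) : Gm := v (.row s.l)

def rev (s : Sh) : Sh := ⟨s.dr, col s.c (s.m + 1), s.m, s.dl⟩

def neg (s : Sh) : Sh := ⟨s.dl, !s.c, s.m, s.dr⟩

theorem V_rev (s : Sh) : V (rev s) = V s := by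
  rw [V, V, ← v_rev s.l]
  congr 2
  have : col (col s.c (s.m + 1)) (s.m + 1) = s.c := by
    rw [col_col]
    unfold col
    rw [if_pos (by omega)]
  obtain ⟨dl, c, m, dr⟩ := s
  simp only at this
  cases dl <;> cases dr <;> simp [rev, Sh.l, alt_rev, this]

theorem V_neg (s : Sh) : V (neg s) = - V s := by
  rw [V, V, ← v_ng]
  congr 1
  obtain ⟨dl, c, m, dr⟩ := s
  cases dl <;> cases dr <;> simp [neg, Sh.l, Cp.ng, alt_neg, col_not]

/-- The two blocks left when `b` captures at the pair `(i, i + 1)` of the core, `j` core pieces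
being further right. -/
def cut (b : Bool) (s : Sh) (i j : ℕ) : Sh × Sh :=
  if col s.c i = b then (⟨s.dl, s.c, i, false⟩, ⟨true, col s.c i, j, s.dr⟩)
  else (⟨s.dl, s.c, i, true⟩, ⟨false, col s.c i, j, s.dr⟩)

theorem l_cut (s : Sh) (i j : ℕ) (h : i + j + 2 = s.m) :
    s.l = (Sh.mk s.dl s.c i false).l ++ some (col s.c i) :: some (!col s.c i) ::
      (Sh.mk false (col s.c i) j s.dr).l := by
  obtain ⟨dl, c, m, dr⟩ := s
  simp only at h
  subst h
  have : col (col c i) (j + 1) = col c (i + j + 2 + 1) := by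
    rw [col_col, col_succ c (i + j + 2), col_succ c (i + j + 1), Bool.not_not, add_assoc]
  simp [Sh.l, alt_cut, this]

theorem opt_cut (b : Bool) (s : Sh) (i j : ℕ) (h : i + j + 2 = s.m) :
    Opt b (.row s.l) (.row ((cut b s i j).1.l ++ none :: (cut b s i j).2.l)) := by
  rw [l_cut s i j h]
  unfold cut
  split_ifs with hb
  · have := Opt.rt (b := b) (Sh.mk s.dl s.c i false).l (Sh.mk false (col s.c i) j s.dr).l
    rw [hb] at *
    simpa [Sh.l] using this
  · have hb' : col s.c i = !b := by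
      cases b <;> simpa using hb
    have := Opt.lt (b := b) (Sh.mk s.dl s.c i false).l (Sh.mk false (col s.c i) j s.dr).l
    have h2 : col s.c (i + 1) = b := by rw [col_succ, hb', Bool.not_not]
    rw [hb'] at this ⊢
    simpa [Sh.l, h2] using this

theorem Wq_cut {b : Bool} {s : Sh} (i j : ℕ) (h : i + j + 2 = s.m) {x : Gm}
    (hw : ¬ Wq (V (cut b s i j).1 + V (cut b s i j).2 + x) (!b)) : Wq (V s + x) b := by
  apply Wq_move (opt_cut b s i j h)
  rwa [v_split]

theorem alt_dec (x y : Bool) (hxy : y = !x) (e : List (Option Bool)) :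
    ∀ (m : ℕ) (c : Bool) (u w : List (Option Bool)), 1 ≤ m →
    (e = [] ∨ e = [some (col c (m + 1))]) → alt c m ++ e = u ++ some x :: some y :: w →
    ∃ j, u.length + j + 2 = m := by
  intro m
  induction m with
  | zero => intro c u w h; omega
  | succ m ih =>
    intro c u w _ he h
    rcases Nat.eq_zero_or_pos m with rfl | hm
    · exfalso
      rcases he with rfl | rfl
      · rcases u with _ | ⟨a, _ | ⟨a', u⟩⟩ <;> simp [alt] at h
      · rcases u with _ | ⟨a, _ | ⟨a', u⟩⟩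
        · simp only [alt, col] at h
          cases x <;> cases c <;> simp_all
        · simp [alt] at h
        · rcases u with _ | ⟨a'', u⟩ <;> simp [alt] at h
    · rcases u with _ | ⟨a, u⟩
      · exact ⟨m - 1, by simp; omega⟩
      · rw [alt] at h
        simp only [List.cons_append, List.cons.injEq] at h
        obtain ⟨j, hj⟩ := ih (!c) u w hm (by rwa [col_not, ← col_succ]) h.2
        exact ⟨j, by simp; omega⟩

theorem opt_sh {b : Bool} {s : Sh} (hm : 1 ≤ s.m) {c' : Cp} (ho : Opt b (.row s.l) c') :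
    ∃ i j, i + j + 2 = s.m ∧ c' = .row ((cut b s i j).1.l ++ none :: (cut b s i j).2.l) := by
  obtain ⟨u, w, x, y, x', y', hl, h1, rfl⟩ := opt_row.1 ho
  have hxy : y = !x := by
    rcases hl with ⟨rfl, rfl, -, -⟩ | ⟨rfl, rfl, -, -⟩ <;> simp
  have key : ∃ i j, i + j + 2 = s.m ∧ u.length = (Sh.mk s.dl s.c i false).l.length := by
    obtain ⟨dl, c, m, dr⟩ := s
    have he : (if dr then [some (col c (m + 1))] else []) = [] ∨
        (if dr then [some (col c (m + 1))] else []) = [some (col c (m + 1))] := by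
      cases dr <;> simp
    cases dl with
    | false =>
      obtain ⟨j, hj⟩ := alt_dec x y hxy _ m c u w hm he (by simpa [Sh.l] using h1)
      exact ⟨u.length, j, hj, by simp [Sh.l, alt_length]⟩
    | true =>
      rcases u with _ | ⟨a, u⟩
      · exfalso
        obtain ⟨m, rfl⟩ : ∃ k, m = k + 1 := ⟨m - 1, by simp at hm; omega⟩
        simp only [Sh.l, alt, if_true, List.cons_append, List.nil_append, List.cons.injEq,
          Option.some.injEq] at h1
        obtain ⟨rfl, rfl, -⟩ := h1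
        simp at hxy
      · simp only [Sh.l, if_true, List.cons_append, List.nil_append, List.cons.injEq] at h1
        obtain ⟨j, hj⟩ := alt_dec x y hxy _ m c u w hm he h1.2
        exact ⟨u.length, j, hj, by simp [Sh.l, alt_length]⟩
  obtain ⟨i, j, hij, hlen⟩ := key
  refine ⟨i, j, hij, ?_⟩
  rw [l_cut s i j hij] at h1
  obtain ⟨h2, h3⟩ := List.append_inj h1 hlen.symm
  simp only [List.cons.injEq, Option.some.injEq] at h3
  obtain ⟨h3, -, h4⟩ := h3
  subst h2 h4
  unfold cut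
  rcases hl with ⟨rfl, -, rfl, rfl⟩ | ⟨h5, -, rfl, rfl⟩
  · rw [if_pos h3]
    simp [Sh.l, h3]
  · have : ¬ col s.c i = b := by
      rw [h3, h5]
      simp
    rw [if_neg this]
    simp [Sh.l, col_succ, h3, h5]

end Pool.Agent.P.MP_6e435d_co.G
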