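import Pool.Agent.P.MP_6e435d_co.Check

set_option autoImplicit false
set_option linter.dupNamespace false

namespace Pool.Agent.P.MP_6e435d_co.G

/-- An alternating block that starts with a piece of Right. -/
def sO (n : ℕ) : Sh := ⟨false, false, n, false⟩
/-- An alternating block that starts with a piece of Left. -/
def sX (n : ℕ) : Sh := ⟨false, true, n, false⟩
/-- First piece (of colour `c`) doubled. -/
def s1 (c : Bool) (m : ℕ) : Sh := ⟨true, c, m, false⟩
/-- Both ends doubled. -/
def s2 (c : Bool) (m : ℕ) : Sh := ⟨true, c, m, true⟩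

def A2 : Sh := sX 2
def A4 : Sh := sX 4
def U : Sh := s1 true 2
def D : Sh := s1 false 2

theorem V_even {n : ℕ} (h : n % 2 = 0) : V (sX n) = V (sO n) := by
  rw [← V_rev]
  congr 1
  have : col true (n + 1) = false := by
    unfold col
    rw [if_neg (by omega)]
    rfl
  simp only [rev, sX, sO, this]

theorem V_X (n : ℕ) : V (sX n) = - V (sO n) := V_neg (sO n)

theorem V_A_self {n : ℕ} (h : n % 2 = 0) : V (sO n) + V (sO n) = 0 := by
  have := V_even h
  rw [V_X] at this
  rw [add_eq_zero_iff_eq_neg, this]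

theorem V_U : V U = - V D := V_neg D

theorem star_star : V A2 + V A2 = 0 := by
  rw [A2, V_even (by norm_num)]
  exact V_A_self (by norm_num)

theorem neg_star : - V A2 = V A2 := neg_eq_of_add_eq_zero_left star_star

def nf0 (s : Sh) : List Sh :=
  if s.m ≤ 1 then (if s.m = 0 ∧ s.dl = true ∧ s.dr = true then [A2] else []) else [s]

theorem nf0_val (s : Sh) : valL (nf0 s) = V s := by
  unfold nf0
  split_ifs with h1 h2
  · rw [← V_fx s, fx, if_pos h2, valL_cons, valL_nil, add_zero]
    cases s.c
    · exact V_even (by norm_num)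
    · rfl
  · rw [valL_nil, V_dead]
    rwa [fx, if_neg h2]
  · simp [valL]

def cert0 : List (List ℕ × ℕ × ℕ) :=
  [([],0,0),([24],25,0),([17],18,0),([17,24],0,0),([25],26,0),([17,25],0,0),([28],29,1),
   ([17,28],0,0),([20,28],21,0),([17,28],29,0),([17,20],21,0),([17,20,28],0,0),([21],0,0),
   ([21,29],30,0),([29],30,0),([21],22,0),([17,21],18,0),([17,21,29],0,0),([36],37,0),
   ([17,36],0,0),([37],38,0),([17,23],24,0),([17,37],0,0),([17,30],31,0),([21,30],0,0),
   ([31],32,0),([20,31],0,0),([23],0,0),([33],34,0),([49],0,0)]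

theorem facts0 : ∀ t ∈ [[sO 3, A2], [sX 3, A2], [s1 false 3, D, A2], [s1 true 3, U, A2],
    [s1 false 4, A2], [s1 true 4, A2], [s2 false 3, U], [s2 true 3, D], [s2 false 2], [sO 6]],
    GB (valL t) :=
  (run_ok' (lA := fun _ => false) (lB := fun _ => false) (TA := []) (es := cert0) nf0_val
    (by simp) (by simp) (by decide +kernel)).2

theorem pair_zero {s : Sh} {t t' : List Sh} (h1 : GB (valL (s :: t)))
    (h2 : GB (valL (neg s :: t'))) (h : valL t' = - valL t) : V s = valL t' := by
  have : V s + valL t = 0 := by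
    apply eq_zero_GB
    · rwa [← valL_cons]
    · rwa [valL_cons, V_neg, h, ← neg_add] at h2
  rw [h]
  exact eq_neg_of_add_eq_zero_left this

theorem V_O3 : V (sO 3) = valL [A2] :=
  pair_zero (facts0 [sO 3, A2] (by simp)) (facts0 [sX 3, A2] (by simp))
    (by simp [valL, neg_star])

theorem V_oO4 : V (s1 false 3) = valL [U, A2] :=
  pair_zero (facts0 [s1 false 3, D, A2] (by simp)) (facts0 [s1 true 3, U, A2] (by simp))
    (by simp [valL, neg_star, V_U, add_comm])

theorem V_oA5 : V (s1 false 4) = valL [A2] :=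
  pair_zero (facts0 [s1 false 4, A2] (by simp)) (facts0 [s1 true 4, A2] (by simp))
    (by simp [valL, neg_star])

theorem V_oOo5 : V (s2 false 3) = valL [D] :=
  pair_zero (facts0 [s2 false 3, U] (by simp)) (facts0 [s2 true 3, D] (by simp))
    (by simp [valL, V_U])

theorem V_ooxx : V (s2 false 2) = 0 := by
  have h := facts0 [s2 false 2] (by simp)
  simp only [valL, List.map_cons, List.map_nil, List.sum_cons, List.sum_nil, add_zero] at h
  refine eq_zero_GB h ?_
  rw [← V_neg, ← V_rev]
  exact h

theorem V_A6 : V (sO 6) = 0 := by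
  have h := facts0 [sO 6] (by simp)
  simp only [valL, List.map_cons, List.map_nil, List.sum_cons, List.sum_nil, add_zero] at h
  refine eq_zero_GB h ?_
  rw [← V_X, V_even (by norm_num)]
  exact h

def nf1 (s : Sh) : List Sh :=
  if s.dr then (if s.dl then (if s.m = 2 then [] else if s.m = 3 then [s1 s.c 2] else nf0 s)
    else nf0 s)
  else (if s.dl then (if s.m = 3 then [s1 (!s.c) 2, A2] else if s.m = 4 then [A2] else nf0 s)
    else (if s.m = 3 then [A2] else if s.m = 6 then [] else nf0 s))

theorem V_c {s : Sh} {l l' : List Sh} (h : V s = valL l) (h' : valL l' = - valL l) :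
    valL l' = V (neg s) := by rw [V_neg, h, h']

theorem nf1_val (s : Sh) : valL (nf1 s) = V s := by
  obtain ⟨dl, c, m, dr⟩ := s
  unfold nf1
  split_ifs with h1 h2 h3 h4 h5 h6 h7 h8 h9 <;> try exact nf0_val _
  all_goals simp only [Bool.not_eq_true] at *
  all_goals subst_vars
  all_goals cases c
  · exact V_ooxx.symm
  · exact V_c (s := s2 false 2) (l := []) V_ooxx (by simp [valL])
  · exact V_oOo5.symm
  · exact V_c V_oOo5 (by simpa [valL, U] using V_U)
  · exact V_oO4.symm
  · exact V_c V_oO4 (by simp [valL, neg_star, V_U, add_comm, D])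
  · exact V_oA5.symm
  · exact V_c V_oA5 (by simp [valL, neg_star])
  · exact V_O3.symm
  · exact V_c V_O3 (by simp [valL, neg_star])
  · exact V_A6.symm
  · exact V_c (s := sO 6) (l := []) V_A6 (by simp [valL])

def cert1 : List (List ℕ × ℕ × ℕ) :=
  [([],0,0),([17],18,0),([21],0,0),([21],22,0),([17,21],18,0),([40],0,0),([40],41,1),([44],45,1),
   ([33],34,0),([56],0,0),([56],57,0),([69],70,1),([17,69],70,2)]

theorem facts1 : (∀ t ∈ [[U], [sO 5], [sO 7], [s1 true 8], [s1 true 8, A2], [A2]], GA (valL t)) ∧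
    ∀ t ∈ [[U], [sO 5], [sO 7]], GB (valL t) :=
  run_ok' (lA := fun _ => false) (lB := fun _ => false) (es := cert1) nf1_val
    (by simp) (by simp) (by decide +kernel)

end Pool.Agent.P.MP_6e435d_co.G
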