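import Pool.Agent.P.MP_6e435d_co.Small

set_option autoImplicit false
set_option linter.dupNamespace false

namespace Pool.Agent.P.MP_6e435d_co.G

def sz (s : Sh) : ℕ := s.m + s.dl.toNat + s.dr.toNat

def szM (M : Multiset Sh) : ℕ := (M.map sz).sum

def HM (M : Multiset Sh) : ℤ := (M.map Sh.wt).sum

def SM (M : Multiset Sh) : ℕ := (M.map fun s => s.st.toNat).sum

theorem szM_cons (s : Sh) (R : Multiset Sh) : szM (s ::ₘ R) = sz s + szM R := by simp [szM]
theorem HM_cons (s : Sh) (R : Multiset Sh) : HM (s ::ₘ R) = s.wt + HM R := by simp [HM]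
theorem SM_cons (s : Sh) (R : Multiset Sh) : SM (s ::ₘ R) = s.st.toNat + SM R := by simp [SM]

theorem sz_cut (b : Bool) (s : Sh) (i j : ℕ) (h : i + j + 2 = s.m) :
    sz (cut b s i j).1 + sz (cut b s i j).2 + 1 = sz s := by
  unfold cut
  split_ifs <;> simp [sz] <;> omega

theorem sz_fx (s : Sh) : sz (fx s) = sz s := by
  unfold fx
  split_ifs with h
  · simp [sz, h]
  · rfl

theorem wt_fx (s : Sh) : (fx s).wt = s.wt := by
  unfold fx
  split_ifs with h
  · simp [Sh.wt, h, w0, w2]
  · rfl

theorem st_fx (s : Sh) : (fx s).st = s.st := by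
  unfold fx
  split_ifs with h
  · simp [Sh.st, h]
  · rfl

def Rp (m m' : ℕ) : Prop := m = m' ∨ (10 ≤ m ∧ 10 ≤ m' ∧ m % 10 = m' % 10)

theorem col_congr (c : Bool) {m m' : ℕ} (h : m % 2 = m' % 2) : col c m = col c m' := by
  unfold col
  rw [h]

theorem wt_congr (dl c dr : Bool) {m m' : ℕ} (h : Rp m m') :
    (Sh.mk dl c m dr).wt = (Sh.mk dl c m' dr).wt := by
  unfold Rp at h
  have h0 : w0 m = w0 m' := by
    unfold w0
    split_ifs <;> omega
  have h1 : w1 m = w1 m' := by
    unfold w1
    split_ifs <;> omega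
  have h2 : w2 m = w2 m' := by
    unfold w2
    split_ifs <;> omega
  have h3 : col c (m + 1) = col c (m' + 1) := col_congr c (by omega)
  simp only [Sh.wt, h0, h1, h2, h3]

theorem st_congr (dl c dr : Bool) {m m' : ℕ} (h : Rp m m') :
    (Sh.mk dl c m dr).st = (Sh.mk dl c m' dr).st := by
  have : m % 10 = m' % 10 := by
    unfold Rp at h
    omega
  simp only [Sh.st, this]

/-- Change of the numerical part in a move. -/
def dw (b dl c dr : Bool) (i j : ℕ) : ℤ :=
  (cut b ⟨dl, c, i + j + 2, dr⟩ i j).1.wt + (cut b ⟨dl, c, i + j + 2, dr⟩ i j).2.wt -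
    (Sh.mk dl c (i + j + 2) dr).wt

/-- Change of the star part in a move. -/
def ds (b dl c dr : Bool) (i j : ℕ) : ℕ :=
  (cut b ⟨dl, c, i + j + 2, dr⟩ i j).1.st.toNat + (cut b ⟨dl, c, i + j + 2, dr⟩ i j).2.st.toNat +
    (Sh.mk dl c (i + j + 2) dr).st.toNat

theorem Rp_sum {i j i' j' : ℕ} (hi : Rp i i') (hj : Rp j j') : Rp (i + j + 2) (i' + j' + 2) := by
  unfold Rp at *
  omega

theorem dw_congr (b dl c dr : Bool) {i j i' j' : ℕ} (hi : Rp i i') (hj : Rp j j') :
    dw b dl c dr i j = dw b dl c dr i' j' := by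
  have h3 : col c i = col c i' := col_congr c (by unfold Rp at hi; omega)
  unfold dw cut
  simp only [h3]
  split_ifs <;> simp only [wt_congr _ _ _ hi, wt_congr _ _ _ hj, wt_congr _ _ _ (Rp_sum hi hj)]

theorem ds_congr (b dl c dr : Bool) {i j i' j' : ℕ} (hi : Rp i i') (hj : Rp j j') :
    ds b dl c dr i j = ds b dl c dr i' j' := by
  have h3 : col c i = col c i' := col_congr c (by unfold Rp at hi; omega)
  unfold ds cut
  simp only [h3]
  split_ifs <;> simp only [st_congr _ _ _ hi, st_congr _ _ _ hj, st_congr _ _ _ (Rp_sum hi hj)]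

def rp (m : ℕ) : ℕ := if m < 10 then m else 10 + m % 10

theorem Rp_rp (m : ℕ) : Rp m (rp m) ∧ rp m < 20 := by
  unfold Rp rp
  split_ifs <;> omega

theorem tab2 : ∀ dl c dr : Bool, ∀ i, i < 20 → ∀ j, j < 20 →
    -4 < dw false dl c dr i j ∨ (dw false dl c dr i j = -4 ∧ ds false dl c dr i j % 2 = 1) := by
  decide +kernel

theorem L2 (dl c dr : Bool) (i j : ℕ) :
    -4 < dw false dl c dr i j ∨ (dw false dl c dr i j = -4 ∧ ds false dl c dr i j % 2 = 1) := by
  rw [dw_congr _ _ _ _ (Rp_rp i).1 (Rp_rp j).1, ds_congr _ _ _ _ (Rp_rp i).1 (Rp_rp j).1]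
  exact tab2 dl c dr _ (Rp_rp i).2 _ (Rp_rp j).2

def Gain (dl c dr : Bool) (i j : ℕ) : Prop :=
  if (Sh.mk dl c (i + j + 2) dr).st = true then
    4 < dw true dl c dr i j ∨ (dw true dl c dr i j = 4 ∧ ds true dl c dr i j % 2 = 1)
  else if (Sh.mk dl c (i + j + 2) dr).wt % 2 = 1 then
    3 < dw true dl c dr i j ∨ (dw true dl c dr i j = 3 ∧ ds true dl c dr i j % 2 = 0)
  else 2 < dw true dl c dr i j ∨ (dw true dl c dr i j = 2 ∧ ds true dl c dr i j % 2 = 0)

instance (dl c dr : Bool) (i j : ℕ) : Decidable (Gain dl c dr i j) := by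
  unfold Gain
  infer_instance

theorem Gain_congr (dl c dr : Bool) {i j i' j' : ℕ} (hi : Rp i i') (hj : Rp j j')
    (h : Gain dl c dr i' j') : Gain dl c dr i j := by
  unfold Gain at *
  rwa [dw_congr _ _ _ _ hi hj, ds_congr _ _ _ _ hi hj, wt_congr _ _ _ (Rp_sum hi hj),
    st_congr _ _ _ (Rp_sum hi hj)]

def Exc (s : Sh) : Prop := s.st = false ∧
  ((s.wt = 0 ∧ nf1 (canon s) ∈ [[], [A2]]) ∨
    (s.wt = 2 ∧ nf1 (canon s) ∈ [[U], [U, A2], [sO 5], [sO 7]]) ∨
    (s.wt = 2 ∧ sz s = 9 ∧ nf1 (canon s) = [s1 true 8]))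

instance (s : Sh) : Decidable (Exc s) := by
  unfold Exc
  infer_instance

theorem tab1 : ∀ dl c dr : Bool, ∀ m, m < 32 →
    (∃ i, i < 32 ∧ i + 2 ≤ m ∧ Gain dl c dr i (m - 2 - i)) ∨ (m < 10 ∧ Exc ⟨dl, c, m, dr⟩) := by
  decide +kernel

theorem L1 (s : Sh) : (∃ i j, i + j + 2 = s.m ∧ Gain s.dl s.c s.dr i j) ∨ Exc s := by
  obtain ⟨dl, c, m, dr⟩ := s
  by_cases hm : m < 32
  · rcases tab1 dl c dr m hm with ⟨i, -, h1, h2⟩ | ⟨-, h⟩
    · exact Or.inl ⟨i, m - 2 - i, by simp only; omega, h2⟩
    · exact Or.inr h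
  · left
    rcases tab1 dl c dr (22 + (m - 22) % 10) (by omega) with ⟨i, -, h1, h2⟩ | ⟨h, -⟩
    · by_cases hi : 10 ≤ i
      · refine ⟨i + (m - (22 + (m - 22) % 10)), 22 + (m - 22) % 10 - 2 - i, by simp only; omega,
          Gain_congr _ _ _ ?_ (Or.inl rfl) h2⟩
        unfold Rp
        omega
      · refine ⟨i, m - 2 - i, by simp only; omega, Gain_congr _ _ _ (Or.inl rfl) ?_ h2⟩
        unfold Rp
        omega
    · omega

/-- Zero or star. -/
def z (σ : Bool) : Gm := if σ then V A2 else 0

theorem z_add (a b : Bool) : z a + z b = z (xor a b) := by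
  cases a <;> cases b <;> simp [z, star_star]

theorem neg_z (a : Bool) : - z a = z a := by
  cases a <;> simp [z, neg_star]

theorem GA_star : GA (V A2) := by simpa [valL] using facts1.1 [A2] (by simp)

theorem neg_hp (h : ℕ) : - v (.hp h) = v (.hp h) := (v_ng (.hp h)).symm

theorem hp_one : V A2 + v (.hp 1) = 0 := by
  have key : GB (V A2 + v (.hp 1)) := by
    have := all_sh (b := false) {A2} 1 ?_ ?_
    · simpa [valM, GB] using this
    · intro s R i j h hij
      obtain ⟨rfl, rfl⟩ := (Multiset.singleton_eq_cons_iff _).1 h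
      have h2 : (fx A2).m = 2 := rfl
      obtain rfl : i = 0 := by omega
      obtain rfl : j = 0 := by omega
      rw [V_dead (by decide), V_dead (by decide), valM_zero, zero_add, zero_add, zero_add,
        ← add_zero (v _)]
      apply Wq_move (Opt.hp 1 0 (by norm_num))
      rw [v_hp0, add_zero]
      exact Wq_zero _
    · intro k hk
      obtain rfl : k = 0 := by omega
      simpa [valM, v_hp0, GA] using GA_star
  refine eq_zero_GB key ?_
  rwa [neg_add, neg_star, neg_hp]

theorem z_hp (σ : Bool) : z σ + v (.hp σ.toNat) = 0 := by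
  cases σ
  · simp [z, v_hp0]
  · exact hp_one

theorem GA_z_hp (σ : Bool) {h : ℕ} (hh : 2 ≤ h) : GA (z σ + v (.hp h)) := by
  rw [add_comm]
  apply Wq_move (Opt.hp h σ.toNat (by cases σ <;> simp <;> omega))
  rw [add_comm, z_hp]
  exact Wq_zero _

theorem sym_cases (σ : Bool) (h : ℕ) : GA (z σ + v (.hp h)) ∨ GB (z σ + v (.hp h)) := by
  by_cases h1 : GA (z σ + v (.hp h))
  · exact Or.inl h1
  · right
    rwa [GA_iff, not_not, neg_add, neg_z, neg_hp] at h1

theorem V_cls (s : Sh) : V s = valL (nf1 (canon s)) := by rw [nf1_val, V_canon]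

def Q (s : Sh) : Prop := ∃ σ, GB (V s + z σ) ∧ (s.wt = 0 ∨ (s.wt = 2 ∧ GA (V s + z σ)))

theorem exc_cases {s : Sh} (h : Exc s) : Q s ∨ (s.wt = 2 ∧ sz s = 9 ∧ V s = V (s1 true 8)) := by
  have hU1 : GA (V U) := by simpa [valL] using facts1.1 [U] (by simp)
  have hU2 : GB (V U) := by simpa [valL] using facts1.2 [U] (by simp)
  rcases h.2 with ⟨h1, h2⟩ | ⟨h1, h2⟩ | ⟨h1, h2, h3⟩
  · left
    simp only [List.mem_cons, List.not_mem_nil, or_false] at h2
    rcases h2 with h2 | h2
    · exact ⟨false, by simpa [V_cls s, h2, valL, z] using GB_zero, Or.inl h1⟩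
    · exact ⟨true, by simpa [V_cls s, h2, valL, z, star_star] using GB_zero, Or.inl h1⟩
  · left
    simp only [List.mem_cons, List.not_mem_nil, or_false] at h2
    rcases h2 with h2 | h2 | h2 | h2
    · exact ⟨false, by simpa [V_cls s, h2, valL, z] using hU2,
        Or.inr ⟨h1, by simpa [V_cls s, h2, valL, z] using hU1⟩⟩
    · exact ⟨true, by simpa [V_cls s, h2, valL, z, add_assoc, star_star] using hU2,
        Or.inr ⟨h1, by simpa [V_cls s, h2, valL, z, add_assoc, star_star] using hU1⟩⟩
    · exact ⟨false, by simpa [V_cls s, h2, valL, z] using facts1.2 [sO 5] (by simp),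
        Or.inr ⟨h1, by simpa [V_cls s, h2, valL, z] using facts1.1 [sO 5] (by simp)⟩⟩
    · exact ⟨false, by simpa [V_cls s, h2, valL, z] using facts1.2 [sO 7] (by simp),
        Or.inr ⟨h1, by simpa [V_cls s, h2, valL, z] using facts1.1 [sO 7] (by simp)⟩⟩
  · right
    exact ⟨h1, h2, by simp [V_cls s, h3, valL]⟩

theorem base (M : Multiset Sh) (h : ∀ s ∈ M, Q s) :
    ∃ σ, GB (valM M + z σ) ∧ 0 ≤ HM M ∧ (0 < HM M → GA (valM M + z σ)) := by
  induction M using Multiset.induction_on with
  | empty => exact ⟨false, by simpa [valM, z] using GB_zero, by simp [HM], by simp [HM]⟩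
  | cons s R ih =>
    obtain ⟨σ, h1, h2, h3⟩ := ih (fun t ht => h t (Multiset.mem_cons_of_mem ht))
    obtain ⟨τ, h4, h5⟩ := h s (Multiset.mem_cons_self _ _)
    have e : valM (s ::ₘ R) + z (xor τ σ) = (V s + z τ) + (valM R + z σ) := by
      rw [valM_cons, ← z_add]
      abel
    refine ⟨xor τ σ, ?_, ?_, ?_⟩
    · rw [e]
      exact GB_add h4 h1
    · rw [HM_cons]
      omega
    · rw [e, HM_cons]
      intro h6
      rcases h5 with h5 | ⟨-, h5⟩
      · exact GA_add h4 (h3 (by omega))
      · rw [add_comm]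
        exact GA_add h1 h5

theorem SM_zero (M : Multiset Sh) (h : ∀ s ∈ M, s.st = false) : SM M = 0 := by
  induction M using Multiset.induction_on with
  | empty => rfl
  | cons s R ih =>
    rw [SM_cons, ih (fun t ht => h t (Multiset.mem_cons_of_mem ht)),
      h s (Multiset.mem_cons_self _ _)]
    rfl

theorem HM_even (M : Multiset Sh) (h : ∀ s ∈ M, s.wt % 2 = 0) : HM M % 2 = 0 := by
  induction M using Multiset.induction_on with
  | empty => rfl
  | cons s R ih =>
    have h1 := ih (fun t ht => h t (Multiset.mem_cons_of_mem ht))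
    have h2 := h s (Multiset.mem_cons_self _ _)
    rw [HM_cons]
    omega

theorem HM_exc (M : Multiset Sh) (h : ∀ s ∈ M, s.wt = 0 ∨ s.wt = 2) :
    0 ≤ HM M ∧ (HM M = 0 → ∀ s ∈ M, s.wt = 0) := by
  induction M using Multiset.induction_on with
  | empty => simp [HM]
  | cons s R ih =>
    obtain ⟨h1, h3⟩ := ih (fun t ht => h t (Multiset.mem_cons_of_mem ht))
    have h2 := h s (Multiset.mem_cons_self _ _)
    rw [HM_cons]
    refine ⟨by omega, fun h4 t ht => ?_⟩
    rcases Multiset.mem_cons.1 ht with rfl | ht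
    · omega
    · exact h3 (by omega) t ht

theorem eta (s : Sh) : Sh.mk s.dl s.c s.m s.dr = s := rfl

theorem CC (n : ℕ) : ∀ (M : Multiset Sh) (h : ℕ) (t : ℤ), szM M + h < n →
    (t = 0 ∨ (t = 2 ∧ 2 ≤ h)) →
    ((4 - t < HM M ∨ (HM M = 4 - t ∧ SM M % 2 = 0)) → GB (valM M + v (.hp h))) ∧
    ((-t < HM M ∨ (HM M = -t ∧ SM M % 2 = 1)) → GA (valM M + v (.hp h))) := by
  induction n with
  | zero => intro M h t hn; omega
  | succ n ih =>
    intro M h t hn ht
    constructor
    · intro hw
      apply all_sh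
      · intro s R i j hM hij
        subst hM
        have h1 := sz_cut false (fx s) i j hij
        have h2 := L2 (fx s).dl (fx s).c (fx s).dr i j
        unfold dw ds at h2
        rw [hij, eta] at h2
        rw [szM_cons, ← sz_fx] at hn
        rw [HM_cons, SM_cons, ← wt_fx, ← st_fx] at hw
        have h3 := (ih ((cut false (fx s) i j).1 ::ₘ (cut false (fx s) i j).2 ::ₘ R) h t
          (by rw [szM_cons, szM_cons]; omega) ht).2
          (by rw [HM_cons, HM_cons, SM_cons, SM_cons]; omega)
        rw [valM_cons, valM_cons, add_assoc, add_assoc, ← add_assoc] at h3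
        exact h3
      · intro k hk
        exact (ih M k 0 (by omega) (Or.inl rfl)).2 (by omega)
    · intro hw
      have step : ∀ s R i j, M = s ::ₘ R → i + j + 2 = s.m →
          (4 - t < HM M + dw true s.dl s.c s.dr i j ∨
            (HM M + dw true s.dl s.c s.dr i j = 4 - t ∧
              (SM M + ds true s.dl s.c s.dr i j) % 2 = 0)) → GA (valM M + v (.hp h)) := by
        intro s R i j hM hij h2
        subst hM
        have h1 := sz_cut true s i j hij
        unfold dw ds at h2
        rw [hij, eta] at h2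
        rw [szM_cons] at hn
        rw [HM_cons, SM_cons] at h2
        have h3 := (ih ((cut true s i j).1 ::ₘ (cut true s i j).2 ::ₘ R) h t
          (by rw [szM_cons, szM_cons]; omega) ht).1
          (by rw [HM_cons, HM_cons, SM_cons, SM_cons]; omega)
        rw [valM_cons, valM_cons, add_assoc, add_assoc, ← add_assoc] at h3
        rw [valM_cons, add_assoc]
        exact Wq_cut i j hij h3
      by_cases hA : ∃ s ∈ M, s.st = true
      · obtain ⟨s, hs, hst⟩ := hA
        obtain ⟨R, hR⟩ := Multiset.exists_cons_of_mem hs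
        rcases L1 s with ⟨i, j, hij, hg⟩ | he
        · unfold Gain at hg
          rw [hij, eta, if_pos hst] at hg
          exact step s R i j hR hij (by omega)
        · rw [he.1] at hst
          simp at hst
      have hA' : ∀ s ∈ M, s.st = false := by simpa using hA
      have hS := SM_zero M hA'
      by_cases hB : ∃ s ∈ M, s.wt % 2 = 1
      · obtain ⟨s, hs, hst⟩ := hB
        obtain ⟨R, hR⟩ := Multiset.exists_cons_of_mem hs
        rcases L1 s with ⟨i, j, hij, hg⟩ | he
        · unfold Gain at hg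
          rw [hij, eta, if_neg (by simp [hA' s hs]), if_pos hst] at hg
          exact step s R i j hR hij (by omega)
        · have := he.2
          omega
      have hB' : ∀ s ∈ M, s.wt % 2 = 0 := by
        intro s hs
        by_contra h5
        exact hB ⟨s, hs, by omega⟩
      have hH := HM_even M hB'
      by_cases hC : ∃ s ∈ M, ¬ Exc s
      · obtain ⟨s, hs, hst⟩ := hC
        obtain ⟨R, hR⟩ := Multiset.exists_cons_of_mem hs
        rcases L1 s with ⟨i, j, hij, hg⟩ | he
        · unfold Gain at hg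
          have := hB' s hs
          rw [hij, eta, if_neg (by simp [hA' s hs]), if_neg (by omega)] at hg
          exact step s R i j hR hij (by omega)
        · exact absurd he hst
      have hC' : ∀ s ∈ M, Exc s := by simpa using hC
      by_cases hD : ∀ s ∈ M, Q s
      · obtain ⟨σ, h1, h2, h3⟩ := base M hD
        have e : valM M + v (.hp h) = (valM M + z σ) + (z σ + v (.hp h)) := by
          rw [add_assoc, ← add_assoc (z σ), z_add]
          simp [z]
        rw [e]
        rcases ht with rfl | ⟨-, hh⟩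
        · rcases sym_cases σ h with h4 | h4
          · exact GA_add h1 h4
          · rw [add_comm]
            exact GA_add h4 (h3 (by omega))
        · exact GA_add h1 (GA_z_hp σ hh)
      · obtain ⟨s, hs, hq⟩ : ∃ s ∈ M, ¬ Q s := by simpa using hD
        obtain ⟨R, rfl⟩ := Multiset.exists_cons_of_mem hs
        obtain ⟨h1, h2, h3⟩ := (exc_cases (hC' s hs)).resolve_left hq
        have hR := HM_exc R (fun t ht => by
          have := (hC' t (Multiset.mem_cons_of_mem ht)).2
          omega)
        rw [szM_cons] at hn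
        rw [SM_cons] at hS
        rw [HM_cons] at hw hH
        have mv : ∀ t' : ℤ, (t' = 0 ∨ (t' = 2 ∧ 2 ≤ h)) → 4 - t' ≤ 2 + HM R →
            GA (valM (s ::ₘ R) + v (.hp h)) := by
          intro t' ht' hle
          have h4 := (ih (sO 5 ::ₘ R) h t' (by rw [szM_cons]; simp only [sz, sO]; simp; omega)
            ht').1 (by
              rw [HM_cons, SM_cons]
              have e1 : (sO 5).wt = 2 := by decide
              have e2 : (sO 5).st.toNat = 0 := by decide
              omega)
          rw [valM_cons, h3, add_assoc]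
          apply Wq_cut 1 5 rfl
          rw [V_dead (s := (cut true (s1 true 8) 1 5).1) (by decide), zero_add]
          rwa [valM_cons, add_assoc] at h4
        by_cases hh : 2 ≤ h
        · exact mv 2 (Or.inr ⟨rfl, hh⟩) (by omega)
        by_cases h0 : 0 < HM R
        · exact mv 0 (Or.inl rfl) (by omega)
        obtain ⟨σ, h5, -, -⟩ := base R (fun t ht => by
          have h6 := hR.2 (by omega) t ht
          rcases exc_cases (hC' t (Multiset.mem_cons_of_mem ht)) with h7 | h7
          · exact h7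
          · omega)
        obtain ⟨τ, rfl⟩ : ∃ τ : Bool, h = τ.toNat := by
          rcases (by omega : h = 0 ∨ h = 1) with rfl | rfl
          · exact ⟨false, rfl⟩
          · exact ⟨true, rfl⟩
        have e0 : v (.hp τ.toNat) = z τ := by
          rw [← neg_z]
          exact eq_neg_of_add_eq_zero_right (z_hp τ)
        have e : valM (s ::ₘ R) + v (.hp τ.toNat) =
            (valM R + z σ) + (V (s1 true 8) + z (xor σ τ)) := by
          have e1 : z σ + z σ = 0 := by rw [z_add]; simp [z]
          rw [valM_cons, h3, e0, ← z_add,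
            show valM R + z σ + (V (s1 true 8) + (z σ + z τ)) =
              V (s1 true 8) + valM R + z τ + (z σ + z σ) by abel, e1, add_zero]
        rw [e]
        apply GA_add h5
        cases xor σ τ
        · simpa [valL, z] using facts1.1 [s1 true 8] (by simp)
        · simpa [valL, z] using facts1.1 [s1 true 8, A2] (by simp)

theorem C4 {M : Multiset Sh} (h : 4 < HM M ∨ (HM M = 4 ∧ SM M % 2 = 0)) : GB (valM M) := by
  have := (CC _ M 0 0 (Nat.lt_succ_self _) (Or.inl rfl)).1 (by omega)
  rwa [v_hp0, add_zero] at this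

theorem C3 {M : Multiset Sh} (h : 0 < HM M ∨ (HM M = 0 ∧ SM M % 2 = 1)) : GA (valM M) := by
  have := (CC _ M 0 0 (Nat.lt_succ_self _) (Or.inl rfl)).2 (by omega)
  rwa [v_hp0, add_zero] at this

end Pool.Agent.P.MP_6e435d_co.G
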