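import Mathlib

set_option autoImplicit false

namespace Pool.Agent.P.MP_6e435d_co

/-- Position after the piece of colour `b` on `i` captures on `j`. -/
def mv {n : ℕ} (p : Fin n → Option Bool) (b : Bool) (i j : Fin n) : Fin n → Option Bool :=
  Function.update (Function.update p i none) j (some b)

/-- Number of occupied squares. -/
def cnt {n : ℕ} (p : Fin n → Option Bool) : ℕ := (Finset.univ.filter fun i => p i ≠ none).card

/-- Fuel-bounded minimax evaluation: the player `b` to move wins. -/
def win {n : ℕ} : ℕ → (Fin n → Option Bool) → Bool → Bool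
  | 0, _, _ => false
  | k + 1, p, b =>
    (List.finRange n).any fun i => (p i == some b) && (List.finRange n).any fun j =>
      (i.val + 1 == j.val || j.val + 1 == i.val) && (p j == some (!b)) && !(win k (mv p b i j) (!b))

theorem win_succ_iff {n : ℕ} (k : ℕ) (p : Fin n → Option Bool) (b : Bool) :
    win (k + 1) p b = true ↔ ∃ i j : Fin n, (i.val + 1 = j.val ∨ j.val + 1 = i.val) ∧
      p i = some b ∧ p j = some (!b) ∧ ¬ (win k (mv p b i j) (!b) = true) := by
  simp only [win, List.any_eq_true, List.mem_finRange, true_and, Bool.and_eq_true, beq_iff_eq,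
    Bool.or_eq_true, Bool.not_eq_true', Bool.not_eq_true]
  constructor
  · rintro ⟨i, hi, j, ⟨h1, h2⟩, h3⟩
    exact ⟨i, j, h1, hi, h2, h3⟩
  · rintro ⟨i, j, h1, hi, h2, h3⟩
    exact ⟨i, hi, j, ⟨h1, h2⟩, h3⟩

theorem cnt_mv {n : ℕ} (p : Fin n → Option Bool) (b : Bool) (i j : Fin n)
    (hij : i.val + 1 = j.val ∨ j.val + 1 = i.val) (hi : p i = some b) (hj : p j = some (!b)) :
    cnt (mv p b i j) + 1 = cnt p := by
  have hne : i ≠ j := by
    intro h
    subst h
    omega
  have hset : (Finset.univ.filter fun l => mv p b i j l ≠ none) =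
      (Finset.univ.filter fun l => p l ≠ none).erase i := by
    ext l
    rw [Finset.mem_erase, Finset.mem_filter, Finset.mem_filter]
    simp only [Finset.mem_univ, true_and, mv]
    by_cases hl : l = j
    · subst hl
      simp [hj, hne.symm]
    · by_cases hl' : l = i
      · subst hl'
        simp [Function.update_of_ne hl]
      · simp [Function.update_of_ne hl, Function.update_of_ne hl', hl']
  unfold cnt
  rw [hset, Finset.card_erase_add_one]
  simp [hi]

/-- The exact outcome predicate. -/
def Wn {n : ℕ} (p : Fin n → Option Bool) (b : Bool) : Prop := win (cnt p) p b = true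

theorem Wn_iff {n : ℕ} (p : Fin n → Option Bool) (b : Bool) :
    Wn p b ↔ ∃ i j : Fin n, (i.val + 1 = j.val ∨ j.val + 1 = i.val) ∧
      p i = some b ∧ p j = some (!b) ∧
      ¬ Wn (Function.update (Function.update p i none) j (some b)) (!b) := by
  unfold Wn
  rcases h : cnt p with _ | k
  · simp only [win, Bool.false_eq_true, false_iff]
    rintro ⟨i, j, hij, hi, hj, -⟩
    have := cnt_mv p b i j hij hi hj
    omega
  · rw [win_succ_iff]
    refine exists_congr fun i => exists_congr fun j => ?_
    refine and_congr_right fun hij => and_congr_right fun hi => and_congr_right fun hj => ?_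
    have h2 := cnt_mv p b i j hij hi hj
    have h3 : cnt (mv p b i j) = k := by omega
    have h4 : cnt (Function.update (Function.update p i none) j (some b)) = k := h3
    rw [h4]
    rfl

theorem win13 : win 13 (fun i : Fin 13 => some (decide (i.val % 2 = 0))) true = false := by
  decide +kernel

theorem cnt13 : cnt (fun i : Fin 13 => some (decide (i.val % 2 = 0))) = 13 := by
  simp [cnt]

theorem not_Wn13 : ¬ Wn (fun i : Fin 13 => some (decide (i.val % 2 = 0))) true := by
  unfold Wn
  rw [cnt13, win13]
  simp

end Pool.Agent.P.MP_6e435d_co
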